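import Pool.Agent.P.MP_3c2f8c_gt.An.Geom

/-! AN-3: calculus of the Laplacian. -/

namespace Pool.Agent.P.MP_3c2f8c_gt

open Matrix MeasureTheory
open scoped ENNReal

variable {n : ℕ}

namespace LapAux

theorem pd_pd_comp {F : (Fin (n + 1) → ℝ) → ℝ} (L : (Fin (n + 1) → ℝ) →L[ℝ] (Fin (n + 1) → ℝ))
    {x : Fin (n + 1) → ℝ} (hF : ContDiffAt ℝ 2 F (L x)) (i : Fin (n + 1)) :
    pd i (pd i (F ∘ L)) x =
      fderiv ℝ (fderiv ℝ F) (L x) (L (Pi.single i 1)) (L (Pi.single i 1)) := by
  have h1 : pd i (F ∘ L) =ᶠ[nhds x] fun y => fderiv ℝ F (L y) (L (Pi.single i 1)) := by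
    filter_upwards [L.continuous.continuousAt.eventually (hF.eventually (by simp))] with y hy
    rw [pd, ((hy.differentiableAt two_ne_zero).hasFDerivAt.comp y L.hasFDerivAt).fderiv]
    rfl
  have h2 : DifferentiableAt ℝ (fderiv ℝ F) (L x) :=
    (hF.fderiv_right (m := 1) (by norm_num)).differentiableAt one_ne_zero
  have h3 := (h2.hasFDerivAt.comp x L.hasFDerivAt).clm_apply
    (hasFDerivAt_const (L (Pi.single i 1)) x)
  rw [pd, h1.fderiv_eq]
  have h4 := h3.fderiv
  simp only [Function.comp_apply] at h4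
  rw [h4]
  simp

theorem pd_pd {F : (Fin (n + 1) → ℝ) → ℝ} {x : Fin (n + 1) → ℝ} (hF : ContDiffAt ℝ 2 F x)
    (i : Fin (n + 1)) :
    pd i (pd i F) x = fderiv ℝ (fderiv ℝ F) x (Pi.single i 1) (Pi.single i 1) :=
  pd_pd_comp (ContinuousLinearMap.id ℝ _) hF i

theorem box_congr {F G : (Fin (n + 1) → ℝ) → ℝ} {x : Fin (n + 1) → ℝ} (h : F =ᶠ[nhds x] G) :
    box F x = box G x := by
  have key : ∀ i, pd i (pd i F) x = pd i (pd i G) x := by
    intro i
    have h1 : pd i F =ᶠ[nhds x] pd i G := by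
      filter_upwards [h.eventually_nhds] with y hy
      rw [pd, pd, Filter.EventuallyEq.fderiv_eq hy]
    rw [pd, h1.fderiv_eq]
    rfl
  simp only [box, key]

/-- The signs of the Lorentz form. -/
def eps (n : ℕ) : Fin (n + 1) → ℝ := Fin.cons (-1) fun _ => 1

theorem box_eq (F : (Fin (n + 1) → ℝ) → ℝ) (x : Fin (n + 1) → ℝ) :
    box F x = ∑ i, eps n i * pd i (pd i F) x := by
  rw [box, Fin.sum_univ_succ]
  simp only [eps, Fin.cons_zero, Fin.cons_succ, one_mul]
  ring

theorem lor_eq (x y : Fin (n + 1) → ℝ) : lor x y = ∑ i, eps n i * (x i * y i) := by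
  rw [lor, Fin.sum_univ_succ]
  simp only [eps, Fin.cons_zero, Fin.cons_succ, one_mul]
  ring

theorem eps_sq : diagonal (eps n) * diagonal (eps n) = 1 := by
  rw [diagonal_mul_diagonal, ← diagonal_one]
  congr 1
  funext i
  refine Fin.cases ?_ (fun j => ?_) i <;> simp [eps]

theorem mul_diag_transpose {g : Matrix (Fin (n + 1)) (Fin (n + 1)) ℝ}
    (hg : ∀ x y, lor (g *ᵥ x) (g *ᵥ y) = lor x y) : g * diagonal (eps n) * gᵀ = diagonal (eps n) := by
  have h1 : gᵀ * diagonal (eps n) * g = diagonal (eps n) := by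
    ext a b
    have h := hg (Pi.single a 1) (Pi.single b 1)
    rw [lor_eq, lor_eq] at h
    simp only [mulVec_single_one, col_apply] at h
    rw [Matrix.mul_apply]
    simp only [mul_diagonal, transpose_apply]
    have h2 : ∑ i, eps n i * ((Pi.single a 1 : Fin (n + 1) → ℝ) i *
        (Pi.single b 1 : Fin (n + 1) → ℝ) i) = diagonal (eps n) a b := by
      rw [Finset.sum_eq_single a (fun i _ hi => by simp [Pi.single_eq_of_ne hi])
        (fun h => absurd (Finset.mem_univ a) h)]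
      by_cases hab : a = b
      · subst hab
        simp
      · simp [hab]
    rw [← h2, ← h]
    exact Finset.sum_congr rfl fun i _ => by ring
  have h2 : diagonal (eps n) * gᵀ * diagonal (eps n) * g = 1 := by
    rw [Matrix.mul_assoc, Matrix.mul_assoc, ← Matrix.mul_assoc gᵀ, h1, eps_sq]
  have h3 := mul_eq_one_comm.1 h2
  calc g * diagonal (eps n) * gᵀ
      = g * diagonal (eps n) * gᵀ * (diagonal (eps n) * diagonal (eps n)) := by
        rw [eps_sq, Matrix.mul_one]
    _ = g * (diagonal (eps n) * gᵀ * diagonal (eps n)) * diagonal (eps n) := by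
        simp only [Matrix.mul_assoc]
    _ = diagonal (eps n) := by rw [h3, Matrix.one_mul]

theorem sum_bilin (B : (Fin (n + 1) → ℝ) →L[ℝ] (Fin (n + 1) → ℝ) →L[ℝ] ℝ)
    {g : Matrix (Fin (n + 1)) (Fin (n + 1)) ℝ} (hg : ∀ x y, lor (g *ᵥ x) (g *ᵥ y) = lor x y) :
    ∑ i, eps n i * B (g *ᵥ Pi.single i 1) (g *ᵥ Pi.single i 1) =
      ∑ i, eps n i * B (Pi.single i 1) (Pi.single i 1) := by
  have h1 : ∀ i, g *ᵥ Pi.single i 1 = ∑ a, g a i • (Pi.single a 1 : Fin (n + 1) → ℝ) := by
    intro i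
    rw [mulVec_single_one]
    funext c
    simp [Finset.sum_apply, Pi.single_apply]
  have h2 : ∀ a b, ∑ i, g a i * eps n i * g b i = diagonal (eps n) a b := by
    intro a b
    rw [← mul_diag_transpose hg, Matrix.mul_apply]
    simp only [mul_diagonal, transpose_apply]
  calc ∑ i, eps n i * B (g *ᵥ Pi.single i 1) (g *ᵥ Pi.single i 1)
      = ∑ i, ∑ b, ∑ a, g a i * eps n i * g b i * B (Pi.single a 1) (Pi.single b 1) := by
        refine Finset.sum_congr rfl fun i _ => ?_
        simp only [h1, map_sum, map_smul, _root_.sum_apply,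
          _root_.smul_apply, smul_eq_mul, Finset.mul_sum]
        exact Finset.sum_congr rfl fun b _ => Finset.sum_congr rfl fun a _ => by ring
    _ = ∑ b, ∑ a, diagonal (eps n) a b * B (Pi.single a 1) (Pi.single b 1) := by
        rw [Finset.sum_comm]
        refine Finset.sum_congr rfl fun b _ => ?_
        rw [Finset.sum_comm]
        exact Finset.sum_congr rfl fun a _ => by rw [← Finset.sum_mul, h2]
    _ = _ := by
        refine Finset.sum_congr rfl fun b _ => ?_
        rw [Finset.sum_eq_single b (fun a _ ha => by rw [diagonal_apply_ne _ ha, zero_mul])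
          (fun h => absurd (Finset.mem_univ b) h), diagonal_apply_eq]

theorem ext_comp (f : Hyp n → ℝ) (g : Oplus n) :
    ext (fun y => f (g • y)) = ext f ∘ (mulVecLin g.1.1).toContinuousLinearMap := by
  funext x
  change _ = ext f (g.1.1 *ᵥ x)
  by_cases hx : x ∈ cone n
  · rw [ext, ext, dif_pos hx, dif_pos ((smul_mem_cone g).2 hx), proj_smul g hx]
  · rw [ext, ext, dif_neg hx, dif_neg ((smul_mem_cone g).not.2 hx)]

theorem smul_mem {c : ℝ} (hc : 0 < c) {x : Fin (n + 1) → ℝ} (hx : x ∈ cone n) :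
    c • x ∈ cone n :=
  ⟨by rw [lor_smul_smul]; exact mul_neg_of_pos_of_neg (pow_pos hc 2) hx.1, mul_pos hc hx.2⟩

theorem ext_smul_pos (f : Hyp n → ℝ) {c : ℝ} (hc : 0 < c) {x : Fin (n + 1) → ℝ}
    (hx : x ∈ cone n) : ext f (c • x) = ext f x := by
  rw [ext, ext, dif_pos hx, dif_pos (smul_mem hc hx)]
  congr 1
  apply Subtype.ext
  change (√(-lor (c • x) (c • x)))⁻¹ • c • x = (√(-lor x x))⁻¹ • x
  rw [lor_smul_smul, ← mul_neg, Real.sqrt_mul (sq_nonneg c), Real.sqrt_sq hc.le, smul_smul,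
    mul_inv, mul_right_comm, inv_mul_cancel₀ hc.ne', one_mul]

theorem ext_const (c : ℝ) {x : Fin (n + 1) → ℝ} (hx : x ∈ cone n) :
    ext (fun _ : Hyp n => c) x = c := by
  rw [ext, dif_pos hx]

end LapAux

open LapAux

theorem Smooth.c2 {f : Hyp n → ℝ} (hf : Smooth f) : C2 f :=
  ContDiffOn.of_le hf (WithTop.coe_le_coe.2 (le_top : ((2 : ℕ∞)) ≤ ⊤))

theorem C2.continuous {f : Hyp n → ℝ} (hf : C2 f) : Continuous f := by
  have h := (ContDiffOn.continuousOn hf).comp_continuous continuous_subtype_val mem_cone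
  exact h.congr fun x => ext_coe f x

theorem C2.continuous_lap {f : Hyp n → ℝ} (hf : C2 f) : Continuous (lap f) := by
  have h1 : ContinuousOn (fderiv ℝ (fderiv ℝ (ext f))) (cone n) :=
    (ContDiffOn.fderiv_of_isOpen (m := 1) hf isOpen_cone (by norm_num)).continuousOn_fderiv_of_isOpen
      isOpen_cone le_rfl
  have h2 : Continuous fun x : Hyp n => fderiv ℝ (fderiv ℝ (ext f)) x.1 :=
    h1.comp_continuous continuous_subtype_val mem_cone
  have h3 : lap f = fun x : Hyp n => ∑ i, eps n i *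
      fderiv ℝ (fderiv ℝ (ext f)) x.1 (Pi.single i 1) (Pi.single i 1) := by
    funext x
    rw [lap, box_eq]
    exact Finset.sum_congr rfl fun i _ => by
      rw [pd_pd (ContDiffOn.contDiffAt hf (isOpen_cone.mem_nhds (mem_cone x)))]
  rw [h3]
  exact continuous_finsetSum _ fun i _ => continuous_const.mul
    ((h2.clm_apply continuous_const).clm_apply continuous_const)

theorem smooth_const (c : ℝ) : Smooth (fun _ : Hyp n => c) :=
  (contDiffOn_const (c := c)).congr fun _ hx => ext_const c hx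

theorem lap_const (c : ℝ) (x : Hyp n) : lap (fun _ : Hyp n => c) x = 0 := by
  have h : ext (fun _ : Hyp n => c) =ᶠ[nhds x.1] fun _ => c := by
    filter_upwards [isOpen_cone.mem_nhds (mem_cone x)] with y hy
    exact ext_const c hy
  have h0 : ∀ (i : Fin (n + 1)) (d : ℝ), pd i (fun _ => d) = fun _ => 0 := by
    intro i d
    funext y
    simp [pd]
  rw [lap, box_congr h]
  simp [box, h0]

theorem Smooth.comp_smul {f : Hyp n → ℝ} (hf : Smooth f) (g : Oplus n) :
    Smooth fun x => f (g • x) := by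
  rw [Smooth, ext_comp]
  exact ContDiffOn.comp hf (ContinuousLinearMap.contDiff _).contDiffOn
    fun x hx => (smul_mem_cone g).2 hx

theorem lap_comp_smul {f : Hyp n → ℝ} (hf : C2 f) (g : Oplus n) (x : Hyp n) :
    lap (fun y => f (g • y)) x = lap f (g • x) := by
  have h : ContDiffAt ℝ 2 (ext f) (g • x).1 :=
    ContDiffOn.contDiffAt hf (isOpen_cone.mem_nhds (mem_cone _))
  rw [lap, lap, ext_comp, box_eq, box_eq]
  simp only [pd_pd h, pd_pd_comp (mulVecLin g.1.1).toContinuousLinearMap (x := x.1) h]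
  exact sum_bilin _ g.2.1

theorem euler {f : Hyp n → ℝ} (hf : C2 f) {x : Fin (n + 1) → ℝ} (hx : x ∈ cone n) :
    fderiv ℝ (ext f) x x = 0 := by
  have h1 : HasFDerivAt (ext f) (fderiv ℝ (ext f) x) ((1 : ℝ) • x) := by
    rw [one_smul]
    exact ((ContDiffOn.contDiffAt hf (isOpen_cone.mem_nhds hx)).differentiableAt
      two_ne_zero).hasFDerivAt
  have h2 : HasDerivAt (fun c : ℝ => c • x) x 1 := by
    simpa using (hasDerivAt_id (1 : ℝ)).smul_const x
  have h3 := HasFDerivAt.comp_hasDerivAt (f := fun c : ℝ => c • x) 1 h1 h2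
  have h4 : HasDerivAt (ext f ∘ fun c : ℝ => c • x) 0 1 := by
    refine (hasDerivAt_const (1 : ℝ) (ext f x)).congr_of_eventuallyEq ?_
    filter_upwards [lt_mem_nhds (zero_lt_one' ℝ)] with c hc
    exact ext_smul_pos f hc hx
  exact h3.unique h4

theorem box_ext {f : Hyp n → ℝ} (hf : C2 f) {x : Fin (n + 1) → ℝ} (hx : x ∈ cone n) :
    box (ext f) x = (-lor x x)⁻¹ * lap f (proj x hx) := by
  have hρ : 0 < -lor x x := neg_pos.2 hx.1
  set c : ℝ := (√(-lor x x))⁻¹ with hc
  have hc0 : 0 < c := inv_pos.2 (Real.sqrt_pos.2 hρ)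
  have hc2 : c * c = (-lor x x)⁻¹ := by rw [hc, ← mul_inv, Real.mul_self_sqrt hρ.le]
  have h : ContDiffAt ℝ 2 (ext f) (c • x) :=
    ContDiffOn.contDiffAt hf (isOpen_cone.mem_nhds (smul_mem hc0 hx))
  have h1 : ext f =ᶠ[nhds x] ext f ∘ (c • ContinuousLinearMap.id ℝ (Fin (n + 1) → ℝ) :) := by
    filter_upwards [isOpen_cone.mem_nhds hx] with y hy
    exact (ext_smul_pos f hc0 hy).symm
  change _ = _ * box (ext f) (c • x)
  rw [box_congr h1, box_eq, box_eq, Finset.mul_sum]
  refine Finset.sum_congr rfl fun i _ => ?_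
  rw [pd_pd h, pd_pd_comp (c • ContinuousLinearMap.id ℝ (Fin (n + 1) → ℝ)) (x := x) h, ← hc2]
  simp only [_root_.smul_apply, ContinuousLinearMap.id_apply, map_smul, smul_eq_mul]
  ring

end Pool.Agent.P.MP_3c2f8c_gt
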