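import Pool.Agent.P.MP_3c2f8c_gt.An.Geom

/-! AN-2: the invariant measure. -/

namespace Pool.Agent.P.MP_3c2f8c_gt

open Matrix MeasureTheory
open scoped ENNReal

variable {n : ℕ}

namespace MeasAux

theorem cont_rho : Continuous fun x : Fin (n + 1) → ℝ => -lor x x := by unfold lor; fun_prop

theorem cont_bump : Continuous bump :=
  ((expNegInvGlue.contDiff (n := 0)).continuous.comp (by fun_prop)).mul
    ((expNegInvGlue.contDiff (n := 0)).continuous.comp (by fun_prop))

theorem meas_wt : Measurable (wt (n := n)) :=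
  Measurable.ite (measurableSet_lt measurable_const (measurable_pi_apply 0))
    (cont_bump.comp cont_rho).measurable measurable_const

theorem wt_nonneg (x : Fin (n + 1) → ℝ) : 0 ≤ wt x := by
  unfold wt bump
  split_ifs
  exacts [mul_nonneg (expNegInvGlue.nonneg _) (expNegInvGlue.nonneg _), le_rfl]

theorem wt_ne_iff {x : Fin (n + 1) → ℝ} :
    wt x ≠ 0 ↔ 0 < x 0 ∧ 1 < -lor x x ∧ -lor x x < 2 := by
  unfold wt bump
  split_ifs with h <;> simp [h, not_or, -sub_neg_eq_add]

theorem cone_of_wt {x : Fin (n + 1) → ℝ} (h : wt x ≠ 0) : x ∈ cone n :=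
  ⟨by linarith [(wt_ne_iff.1 h).2.1], (wt_ne_iff.1 h).1⟩

theorem wt_le (x : Fin (n + 1) → ℝ) : wt x ≤ expNegInvGlue 1 * expNegInvGlue 1 := by
  by_cases h : wt x = 0
  · rw [h]; exact mul_self_nonneg _
  · obtain ⟨h1, h2, h3⟩ := wt_ne_iff.1 h
    rw [wt, if_pos h1, bump]
    exact mul_le_mul (expNegInvGlue.monotone (by linarith)) (expNegInvGlue.monotone (by linarith))
      (expNegInvGlue.nonneg _) (expNegInvGlue.nonneg _)

theorem projT_coe {x : Fin (n + 1) → ℝ} (h : x ∈ cone n) :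
    (projT x).1 = (√(-lor x x))⁻¹ • x := by rw [projT, dif_pos h]; rfl

theorem wt_smul (g : Oplus n) (x : Fin (n + 1) → ℝ) : wt (g.1.1 *ᵥ x) = wt x := by
  by_cases h : x ∈ cone n
  · rw [wt, wt, if_pos h.2, if_pos ((smul_mem_cone g).2 h).2, g.2.1]
  · rw [not_not.1 (mt cone_of_wt h), not_not.1 (mt cone_of_wt (mt (smul_mem_cone g).1 h))]

theorem projT_smul (g : Oplus n) {x : Fin (n + 1) → ℝ} (h : x ∈ cone n) :
    projT (g.1.1 *ᵥ x) = g • projT x := by
  rw [projT, projT, dif_pos h, dif_pos ((smul_mem_cone g).2 h), proj_smul]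

theorem mp (g : Oplus n) : MeasurePreserving (fun x : Fin (n + 1) → ℝ => g.1.1 *ᵥ x) := by
  have h : |g.1.1.det| = 1 := abs_det_eq_one ⟨g.1, g.2.1⟩
  have h0 : g.1.1.det ≠ 0 := fun h0 => by simp [h0] at h
  refine ⟨(Matrix.toLin' g.1.1).continuous_of_finiteDimensional.measurable, ?_⟩
  have := Real.map_matrix_volume_pi_eq_smul_volume_pi h0
  rwa [abs_inv, h, inv_one, ENNReal.ofReal_one, one_smul] at this

end MeasAux

open MeasAux

theorem measurable_projT : Measurable (projT (n := n)) := by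
  classical
  have h : Measurable fun x : Fin (n + 1) → ℝ =>
      if x ∈ cone n then (√(-lor x x))⁻¹ • x else (orig n).1 :=
    Measurable.ite isOpen_cone.measurableSet
      ((Real.continuous_sqrt.comp cont_rho).measurable.inv.smul measurable_id) measurable_const
  have e : ∀ x, (projT x).1 = if x ∈ cone n then (√(-lor x x))⁻¹ • x else (orig n).1 := fun x => by
    split_ifs with hx
    exacts [projT_coe hx, by rw [projT, dif_neg hx]]
  exact measurable_comap_iff.2 (funext e ▸ h :)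

theorem lintegral_hm {f : Hyp n → ℝ≥0∞} (hf : Measurable f) :
    ∫⁻ y, f y ∂hm n = ∫⁻ x, ENNReal.ofReal (wt x) * f (projT x) := by
  rw [hm, lintegral_map hf measurable_projT]
  exact lintegral_withDensity_eq_lintegral_mul _ meas_wt.ennreal_ofReal (hf.comp measurable_projT)

theorem integral_hm {f : Hyp n → ℝ} (hf : Measurable f) :
    ∫ y, f y ∂hm n = ∫ x, wt x * f (projT x) := by
  rw [hm, integral_map measurable_projT.aemeasurable hf.aestronglyMeasurable,
    integral_withDensity_eq_integral_toReal_smul meas_wt.ennreal_ofReal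
      (.of_forall fun _ => ENNReal.ofReal_lt_top)]
  simp only [ENNReal.toReal_ofReal (wt_nonneg _), smul_eq_mul]

theorem hm_invariant : SMulInvariantMeasure (Oplus n) (Hyp n) (hm n) := by
  refine ⟨fun g s hs => ?_⟩
  have := hyp_continuousConstSMul (n := n)
  have h1 : MeasurableSet ((g • ·) ⁻¹' s : Set (Hyp n)) := (continuous_const_smul g).measurable hs
  rw [← lintegral_indicator_one h1, ← lintegral_indicator_one hs,
    lintegral_hm (measurable_one.indicator h1), lintegral_hm (measurable_one.indicator hs),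
    ← (mp g).lintegral_comp (f := fun x => ENNReal.ofReal (wt x) * s.indicator 1 (projT x))
      (meas_wt.ennreal_ofReal.mul ((measurable_one.indicator hs).comp measurable_projT))]
  refine lintegral_congr fun x => ?_
  rw [wt_smul]
  by_cases h : wt x = 0
  · simp [h]
  · rw [projT_smul g (cone_of_wt h)]; rfl

theorem hm_openPos : (hm n).IsOpenPosMeasure := by
  refine ⟨fun U hU ⟨y, hy⟩ => ?_⟩
  rw [hm, Measure.map_apply measurable_projT hU.measurableSet, Ne,
    withDensity_apply_eq_zero meas_wt.ennreal_ofReal]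
  obtain ⟨U', hU', rfl⟩ := isOpen_induced_iff.1 hU
  let S : Set (Fin (n + 1) → ℝ) := {x | 0 < x 0 ∧ 1 < -lor x x ∧ -lor x x < 2}
  have hS : IsOpen S := (isOpen_lt continuous_const (continuous_apply 0)).inter
    ((isOpen_lt continuous_const cont_rho).inter (isOpen_lt cont_rho continuous_const))
  have hc : ContinuousOn (fun x : Fin (n + 1) → ℝ => (√(-lor x x))⁻¹ • x) S :=
    ((Real.continuous_sqrt.comp cont_rho).continuousOn.inv₀ fun x hx =>
      (Real.sqrt_pos.2 (one_pos.trans hx.2.1)).ne').smul continuousOn_id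
  have h1 : -lor ((5 / 4 : ℝ) • y.1) ((5 / 4 : ℝ) • y.1) = (5 / 4) ^ 2 := by
    rw [lor_smul_smul, y.2.1]; ring
  refine fun h => (hc.isOpen_inter_preimage hS hU').measure_ne_zero volume
    ⟨(5 / 4 : ℝ) • y.1, ⟨mul_pos (by norm_num) y.2.2, by rw [h1]; norm_num⟩, ?_⟩
    (measure_mono_null (fun x hx => ?_) h)
  · rw [Set.mem_preimage, h1, Real.sqrt_sq (by norm_num), inv_smul_smul₀ (by norm_num)]
    exact hy
  · have h2 := wt_ne_iff.2 hx.1
    refine ⟨by simpa using (wt_nonneg x).lt_of_ne' h2, ?_⟩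
    rw [Set.mem_preimage, Set.mem_preimage, projT_coe (cone_of_wt h2)]
    exact hx.2

namespace MeasAux

theorem meas_ker (s : ℕ) (x : Hyp n) : Measurable fun y => (uu x y)⁻¹ ^ s :=
  ((continuous_uu.comp (.prodMk_right x)).measurable.inv).pow_const s

theorem ker_orig {s : ℕ} (hs : n + 1 ≤ s) : ∫⁻ y, ker1 s (orig n) y ∂hm n ≠ ∞ := by
  let a : (Fin n → ℝ) → ℝ := fun v => √(1 + ∑ i, v i * v i)
  have ha : Continuous a := by fun_prop
  let H : (Fin n → ℝ) → ℝ≥0∞ := fun v => ENNReal.ofReal ((1 + ‖v‖) ^ (-(s : ℝ)))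
  have hH : Measurable H := by fun_prop
  let S : Set (ℝ × (Fin n → ℝ)) := {p | a p.2 ≤ p.1 ∧ p.1 ≤ a p.2 + 1}
  have hS : MeasurableSet S := ((isClosed_le (by fun_prop) continuous_fst).inter
    (isClosed_le continuous_fst (by fun_prop))).measurableSet
  let G : ℝ × (Fin n → ℝ) → ℝ≥0∞ := S.indicator fun p => H p.2
  have hG : Measurable G := (hH.comp measurable_snd).indicator hS
  have h1 : ∫⁻ p, G p = ∫⁻ v, H v := by
    rw [Measure.volume_eq_prod, lintegral_prod_symm' _ hG]
    refine lintegral_congr fun v => ?_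
    have : (fun t => G (t, v)) = (Set.Icc (a v) (a v + 1)).indicator fun _ => H v := rfl
    rw [this, lintegral_indicator_const measurableSet_Icc]
    simp
  have h2 : ∫⁻ v, H v < ∞ := finite_integral_one_add_norm (by
    rw [Module.finrank_fin_fun]; exact_mod_cast hs)
  unfold ker1
  rw [lintegral_hm (meas_ker s _).ennreal_ofReal]
  refine ne_top_of_le_ne_top (b := ENNReal.ofReal (expNegInvGlue 1 * expNegInvGlue 1 * 4 ^ s) *
    ∫⁻ v, H v) (ENNReal.mul_ne_top ENNReal.ofReal_ne_top h2.ne) ?_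
  rw [← h1, ← (volume_preserving_piFinSuccAbove (fun _ : Fin (n + 1) => ℝ) 0).lintegral_comp hG,
    ← lintegral_const_mul' _ _ ENNReal.ofReal_ne_top]
  refine lintegral_mono fun x => ?_
  by_cases h : wt x = 0
  · simp [h]
  obtain ⟨b1, b2, b3⟩ := wt_ne_iff.1 h
  let v : Fin n → ℝ := fun i => x i.succ
  have e : MeasurableEquiv.piFinSuccAbove (fun _ : Fin (n + 1) => ℝ) 0 x = (x 0, v) := rfl
  have hq : 0 ≤ ∑ i, v i * v i := Finset.sum_nonneg fun i _ => mul_self_nonneg _
  have hl : lor x x = ∑ i, v i * v i - x 0 * x 0 := rfl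
  have c1 : a v ≤ x 0 := Real.sqrt_le_iff.2 ⟨b1.le, by nlinarith⟩
  have c2 : 1 ≤ a v := Real.one_le_sqrt.2 (by linarith)
  have c3 : a v ^ 2 = 1 + ∑ i, v i * v i := Real.sq_sqrt (by linarith)
  have c4 : x 0 ≤ a v + 1 := by nlinarith
  have c5 : ‖v‖ ≤ a v := (pi_norm_le_iff_of_nonneg (by linarith)).2 fun i =>
    Real.abs_le_sqrt (by
      have := Finset.single_le_sum (f := fun i => v i * v i) (fun i _ => mul_self_nonneg _)
        (Finset.mem_univ i)
      nlinarith)
  have c6 : (uu (orig n) (projT x))⁻¹ ≤ 4 * (1 + ‖v‖)⁻¹ := by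
    rw [uu_orig, projT_coe (cone_of_wt h), Pi.smul_apply, smul_eq_mul, mul_inv, inv_inv,
      ← div_eq_mul_inv, ← div_eq_mul_inv, div_le_div_iff₀ b1 (by positivity)]
    have : √(-lor x x) ≤ 2 := Real.sqrt_le_iff.2 ⟨by norm_num, by linarith⟩
    nlinarith [norm_nonneg v]
  have c7 : 0 ≤ (uu (orig n) (projT x))⁻¹ := inv_nonneg.2 (zero_le_one.trans (one_le_uu _ _))
  simp only [e, G, Set.indicator_of_mem (show (x 0, v) ∈ S from ⟨c1, c4⟩), H]
  rw [← ENNReal.ofReal_mul (wt_nonneg x),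
    ← ENNReal.ofReal_mul (mul_nonneg (mul_self_nonneg _) (by positivity))]
  refine ENNReal.ofReal_le_ofReal ?_
  rw [Real.rpow_neg (by positivity), Real.rpow_natCast, ← inv_pow, mul_assoc, ← mul_pow]
  exact mul_le_mul (wt_le x) (pow_le_pow_left₀ c7 c6 s) (pow_nonneg c7 s) (mul_self_nonneg _)

end MeasAux

theorem hm_finCompact : IsFiniteMeasureOnCompacts (hm n) := by
  refine ⟨fun K hK => ?_⟩
  obtain ⟨R, hR⟩ := (hK.image (continuous_uu.comp (.prodMk_right (orig n)))).bddAbove
  have h1 : ∀ y ∈ K, ENNReal.ofReal ((max R 1)⁻¹ ^ (n + 1)) ≤ ker1 (n + 1) (orig n) y :=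
    fun y hy => ENNReal.ofReal_le_ofReal (pow_le_pow_left₀ (by positivity)
      (inv_anti₀ (one_pos.trans_le (one_le_uu _ _)) (le_max_of_le_left (hR ⟨y, hy, rfl⟩))) _)
  refine (measure_mono h1).trans_lt ((meas_ge_le_lintegral_div
    (meas_ker _ _).ennreal_ofReal.aemeasurable ?_ ENNReal.ofReal_ne_top).trans_lt
    (ENNReal.div_lt_top (ker_orig le_rfl) ?_)) <;>
  exact (ENNReal.ofReal_pos.2 (by positivity)).ne'

theorem hm_sigmaFinite : SigmaFinite (hm n) := by
  have := hm_finCompact (n := n)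
  have := hyp_locallyCompact (n := n)
  infer_instance

theorem lintegral_ker1 {s : ℕ} (hs : n + 1 ≤ s) (x : Hyp n) :
    ∫⁻ y, ker1 s x y ∂hm n ≠ ∞ := by
  obtain ⟨g, rfl⟩ := exists_smul_orig x
  have := hyp_continuousConstSMul (n := n)
  have := hm_invariant (n := n)
  unfold ker1
  rw [← (measurePreserving_smul g (hm n)).lintegral_comp (meas_ker s _).ennreal_ofReal]
  simpa only [uu_smul, ker1] using ker_orig hs

theorem integrable_ker {s : ℕ} (hs : n + 1 ≤ s) (x : Hyp n) :
    Integrable (fun y => (uu x y)⁻¹ ^ s) (hm n) :=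
  ⟨(meas_ker s x).aestronglyMeasurable, (hasFiniteIntegral_iff_ofReal (.of_forall fun y =>
    pow_nonneg (inv_nonneg.2 (zero_le_one.trans (one_le_uu x y))) s)).2
      (lintegral_ker1 hs x).lt_top⟩

theorem TT_smul (s : ℕ) (f : Hyp n → ℝ) (g : Oplus n) (x : Hyp n) :
    TT s f (g • x) = TT s (fun y => f (g • y)) x := by
  have := hyp_continuousConstSMul (n := n)
  have := hm_invariant (n := n)
  rw [TT, ← integral_smul_eq_self (g := g)]
  simp only [uu_smul, TT]

end Pool.Agent.P.MP_3c2f8c_gt
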