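import Pool.Agent.P.MP_3c2f8c_gt.An.Sel
import Pool.Agent.P.MP_3c2f8c_gt.An.Meas
import Pool.Agent.P.MP_3c2f8c_gt.An.Lap

/-! AN-8: the Selberg transform. -/

namespace Pool.Agent.P.MP_3c2f8c_gt

open Matrix MeasureTheory
open scoped ENNReal

variable {n : ℕ}

namespace EigTAux

open Filter Topology

/-- The total mass of the kernel. -/
noncomputable def cs (s : ℕ) (x : Hyp n) : ℝ := ∫ y, (uu x y)⁻¹ ^ s ∂hm n

theorem TT_one (s : ℕ) (x : Hyp n) : TT s (fun _ => 1) x = cs s x := by simp [TT, cs]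

theorem uu_pos (x y : Hyp n) : 0 < uu x y := lt_of_lt_of_le one_pos (one_le_uu x y)

theorem cont_uu (x : Hyp n) : Continuous (uu x) :=
  continuous_uu.comp (continuous_const.prodMk continuous_id)

theorem cont_ker (s : ℕ) (x : Hyp n) : Continuous fun y => (uu x y)⁻¹ ^ s :=
  ((cont_uu x).inv₀ fun y => (uu_pos x y).ne').pow s

theorem ker_pos (s : ℕ) (x y : Hyp n) : 0 < (uu x y)⁻¹ ^ s := pow_pos (inv_pos.2 (uu_pos x y)) s

theorem cs_lower (x : Hyp n) {δ : ℝ} (hδ : 0 < δ) :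
    ∃ m : ℝ, 0 < m ∧ ∀ s, n + 1 ≤ s → (1 + δ)⁻¹ ^ s * m ≤ cs s x := by
  have := hm_openPos (n := n)
  have := hm_finCompact (n := n)
  set B : Set (Hyp n) := {y | uu x y < 1 + δ} with hB
  have hBo : IsOpen B := isOpen_lt (cont_uu x) continuous_const
  have hfin : hm n B ≠ ∞ :=
    ((measure_mono (fun y (hy : uu x y < 1 + δ) => (hy.le : uu x y ≤ 1 + δ))).trans_lt
      (isCompact_ball x (1 + δ)).measure_lt_top).ne
  have hpos : 0 < hm n B := hBo.measure_pos _ ⟨x, by simp [hB, uu_self, hδ]⟩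
  refine ⟨(hm n).real B, ENNReal.toReal_pos hpos.ne' hfin, fun s hs => ?_⟩
  have h1 : ∫ y, B.indicator (fun _ => (1 + δ)⁻¹ ^ s) y ∂hm n = (1 + δ)⁻¹ ^ s * (hm n).real B := by
    rw [integral_indicator_const _ hBo.measurableSet, smul_eq_mul, mul_comm]
  rw [← h1]
  refine integral_mono_of_nonneg (Eventually.of_forall fun y => ?_) (integrable_ker hs x)
    (Eventually.of_forall fun y => ?_)
  · exact Set.indicator_nonneg (fun _ _ => by positivity) y
  · by_cases hy : y ∈ B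
    · rw [Set.indicator_of_mem hy]
      exact pow_le_pow_left₀ (by positivity) (inv_anti₀ (uu_pos x y) (le_of_lt hy)) s
    · rw [Set.indicator_of_notMem hy]
      exact (ker_pos s x y).le

theorem cs_pos {s : ℕ} (hs : n + 1 ≤ s) (x : Hyp n) : 0 < cs s x := by
  obtain ⟨m, hm0, h⟩ := cs_lower x one_pos
  exact lt_of_lt_of_le (by positivity) (h s hs)

theorem cs_eq (s : ℕ) (x : Hyp n) : cs s x = cs s (orig n) := by
  obtain ⟨g, rfl⟩ := exists_smul_orig x
  rw [← TT_one, TT_smul, TT_one]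

theorem integrable_mul {s : ℕ} (hs : n + 1 ≤ s) (x : Hyp n) {f : Hyp n → ℝ} (hf : Continuous f)
    {C : ℝ} (hC : ∀ y, |f y| ≤ C) : Integrable (fun y => (uu x y)⁻¹ ^ s * f y) (hm n) :=
  (integrable_ker hs x).mul_bdd hf.aestronglyMeasurable (Eventually.of_forall hC)

theorem TT_sub {s : ℕ} (hs : n + 1 ≤ s) (x : Hyp n) {f : Hyp n → ℝ} (hf : Continuous f)
    {C : ℝ} (hC : ∀ y, |f y| ≤ C) (a : ℝ) :
    TT s f x - a * cs s x = ∫ y, (uu x y)⁻¹ ^ s * (f y - a) ∂hm n := by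
  rw [TT, cs, ← integral_const_mul,
    ← integral_sub (integrable_mul hs x hf hC) ((integrable_ker hs x).const_mul a)]
  exact integral_congr_ae (Eventually.of_forall fun y => by ring)

theorem abs_TT_le {s : ℕ} (hs : n + 1 ≤ s) (x : Hyp n) {f : Hyp n → ℝ}
    {C : ℝ} (hC : ∀ y, |f y| ≤ C) : |TT s f x| ≤ C * cs s x := by
  rw [TT, cs, ← integral_const_mul, ← Real.norm_eq_abs]
  refine norm_integral_le_of_norm_le ((integrable_ker hs x).const_mul C)
    (Eventually.of_forall fun y => ?_)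
  rw [Real.norm_eq_abs, abs_mul, abs_of_pos (ker_pos s x y), mul_comm]
  exact mul_le_mul_of_nonneg_right (hC y) (ker_pos s x y).le

theorem approx {s : ℕ} (hs : n + 1 ≤ s) (x : Hyp n) {f : Hyp n → ℝ} (hf : Continuous f)
    {C : ℝ} (hC : ∀ y, |f y| ≤ C) :
    Tendsto (fun j => TT (s + 2 * j) f x / cs (s + 2 * j) x) atTop (𝓝 (f x)) := by
  rw [Metric.tendsto_atTop]
  intro ε hε
  obtain ⟨δ, hδ, hb⟩ := ball_subset x
    (hf.continuousAt.preimage_mem_nhds (Metric.ball_mem_nhds (f x) (half_pos hε)))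
  obtain ⟨m, hm0, hlow⟩ := cs_lower x (half_pos hδ)
  have hC0 : 0 ≤ C := (abs_nonneg _).trans (hC x)
  set q : ℝ := ((1 + δ / 2) / (1 + δ)) ^ 2 with hq
  have hq0 : 0 ≤ q := sq_nonneg _
  have hq1 : q < 1 := pow_lt_one₀ (by positivity) ((div_lt_one (by positivity)).2 (by linarith))
    two_ne_zero
  have ht : Tendsto (fun j : ℕ => 2 * C * cs s x * (1 + δ / 2) ^ s / m * q ^ j) atTop (𝓝 0) := by
    simpa using (tendsto_pow_atTop_nhds_zero_of_lt_one hq0 hq1).const_mul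
      (2 * C * cs s x * (1 + δ / 2) ^ s / m)
  obtain ⟨N, hN⟩ := eventually_atTop.1 (ht.eventually (gt_mem_nhds (half_pos hε)))
  refine ⟨N, fun j hj => ?_⟩
  have hs' : n + 1 ≤ s + 2 * j := by omega
  have hc := cs_pos hs' x
  have h1 : |TT (s + 2 * j) f x - f x * cs (s + 2 * j) x| ≤
      ε / 2 * cs (s + 2 * j) x + 2 * C * (1 + δ)⁻¹ ^ (2 * j) * cs s x := by
    rw [TT_sub hs' x hf hC, cs, cs, ← integral_const_mul, ← integral_const_mul,
      ← integral_add ((integrable_ker hs' x).const_mul _) ((integrable_ker hs x).const_mul _),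
      ← Real.norm_eq_abs]
    refine norm_integral_le_of_norm_le
      (((integrable_ker hs' x).const_mul _).add ((integrable_ker hs x).const_mul _))
      (Eventually.of_forall fun y => ?_)
    have k1 := ker_pos (s + 2 * j) x y
    have k2 := ker_pos s x y
    rw [Real.norm_eq_abs, abs_mul, abs_of_pos k1]
    by_cases hy : uu x y < 1 + δ
    · have h2 : |f y - f x| < ε / 2 := hb hy
      have h3 : 0 ≤ 2 * C * (1 + δ)⁻¹ ^ (2 * j) * (uu x y)⁻¹ ^ s := by positivity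
      nlinarith
    · have h2 : |f y - f x| ≤ 2 * C := (abs_sub _ _).trans (by linarith [hC y, hC x])
      have h3 : (uu x y)⁻¹ ^ (2 * j) ≤ (1 + δ)⁻¹ ^ (2 * j) :=
        pow_le_pow_left₀ (inv_pos.2 (uu_pos x y)).le (inv_anti₀ (by positivity) (not_lt.1 hy)) _
      have h4 : (uu x y)⁻¹ ^ (s + 2 * j) * |f y - f x| ≤
          (uu x y)⁻¹ ^ s * (1 + δ)⁻¹ ^ (2 * j) * (2 * C) := by
        rw [pow_add]
        exact mul_le_mul (mul_le_mul_of_nonneg_left h3 k2.le) h2 (abs_nonneg _) (by positivity)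
      have h5 : 0 ≤ ε / 2 * (uu x y)⁻¹ ^ (s + 2 * j) := by positivity
      linarith
  have h2 : 2 * C * (1 + δ)⁻¹ ^ (2 * j) * cs s x < ε / 2 * cs (s + 2 * j) x := by
    have h3 : 2 * C * (1 + δ)⁻¹ ^ (2 * j) * cs s x =
        2 * C * cs s x * (1 + δ / 2) ^ s / m * q ^ j * ((1 + δ / 2)⁻¹ ^ (s + 2 * j) * m) := by
      rw [hq, ← pow_mul, div_pow, pow_add, inv_pow, inv_pow, inv_pow]
      field_simp
    rw [h3]
    calc _ < ε / 2 * ((1 + δ / 2)⁻¹ ^ (s + 2 * j) * m) :=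
          mul_lt_mul_of_pos_right (hN j hj) (by positivity)
      _ ≤ _ := mul_le_mul_of_nonneg_left (hlow _ hs') (half_pos hε).le
  rw [Real.dist_eq, div_sub' hc.ne', abs_div, abs_of_pos hc, div_lt_iff₀ hc, mul_comm _ (f x)]
  linarith

/-- The coefficient `s (s + 1 - n)`. -/
def aa (n s : ℕ) : ℝ := s * ((s : ℝ) + 1 - n)

theorem aa_ge {s : ℕ} (hs : n + 1 ≤ s) (i : ℕ) :
    ((i : ℝ) + 1) * ((i : ℝ) + 2) ≤ aa n (s + 2 * i) := by
  have h : (n : ℝ) + 1 ≤ s := by exact_mod_cast hs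
  have h0 : (0 : ℝ) ≤ n := Nat.cast_nonneg n
  have hi : (0 : ℝ) ≤ i := Nat.cast_nonneg i
  unfold aa
  push_cast
  exact mul_le_mul (by linarith) (by linarith) (by linarith) (by linarith)

theorem aa_pos {s : ℕ} (hs : n + 1 ≤ s) : 0 < aa n s :=
  lt_of_lt_of_le (by positivity) (aa_ge hs 0)

theorem le_aa {s : ℕ} (hs : n + 1 ≤ s) : (s : ℝ) ≤ aa n s := by
  have h : (n : ℝ) + 1 ≤ s := by exact_mod_cast hs
  have h0 : (0 : ℝ) ≤ s := Nat.cast_nonneg s
  unfold aa
  nlinarith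

theorem recur {s : ℕ} (hs : n + 1 ≤ s) {ev : ℝ} {f : Hyp n → ℝ} (hf : C2 f)
    (hb : ∃ C, ∀ x, |f x| ≤ C) (he : ∀ x, lap f x = -ev * f x) (x : Hyp n) :
    s * ((s : ℝ) + 1) * TT (s + 2) f x = (aa n s + ev) * TT s f x := by
  have h := TT_lap hs hf hb (by
    obtain ⟨C, hC⟩ := hb
    refine ⟨|ev| * C, fun y => ?_⟩
    rw [he, abs_mul, abs_neg]
    exact mul_le_mul_of_nonneg_left (hC y) (abs_nonneg _)) x
  have h2 : TT s (lap f) x = -ev * TT s f x := by
    rw [TT, TT, ← integral_const_mul]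
    exact integral_congr_ae (Eventually.of_forall fun y => by simp only [he]; ring)
  rw [h2] at h
  unfold aa
  linarith

theorem recur' {s : ℕ} (hs : n + 1 ≤ s) {ev : ℝ} {f : Hyp n → ℝ} (hf : C2 f)
    (hb : ∃ C, ∀ x, |f x| ≤ C) (he : ∀ x, lap f x = -ev * f x) (x : Hyp n) :
    TT (s + 2) f x / cs (s + 2) x = (1 + ev / aa n s) * (TT s f x / cs s x) := by
  have h1 := recur hs hf hb he x
  have h2 := recur (ev := 0) hs (smooth_const (n := n) 1).c2 ⟨1, fun _ => by simp⟩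
    (fun y => by rw [lap_const]; simp) x
  rw [TT_one, TT_one, add_zero] at h2
  have c1 := cs_pos hs x
  have c2 := cs_pos (show n + 1 ≤ s + 2 by omega) x
  have a1 := aa_pos hs
  have hs0 : (0 : ℝ) < s * ((s : ℝ) + 1) := by
    have : (0 : ℝ) < s := by exact_mod_cast (show 0 < s by omega)
    positivity
  rw [← mul_div_mul_left _ _ hs0.ne', h1, h2]
  field_simp

/-- The finite products. -/
noncomputable def PP (n s : ℕ) (ev : ℝ) (j : ℕ) : ℝ :=
  ∏ i ∈ Finset.range j, (1 + ev / aa n (s + 2 * i))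

theorem iter {s : ℕ} (hs : n + 1 ≤ s) {ev : ℝ} {f : Hyp n → ℝ} (hf : C2 f)
    (hb : ∃ C, ∀ x, |f x| ≤ C) (he : ∀ x, lap f x = -ev * f x) (x : Hyp n) :
    Tendsto (fun j => PP n s ev j * (TT s f x / cs s x)) atTop (𝓝 (f x)) := by
  have h : ∀ j, TT (s + 2 * j) f x / cs (s + 2 * j) x = PP n s ev j * (TT s f x / cs s x) := by
    intro j
    induction j with
    | zero => simp [PP]
    | succ j ih =>
      rw [show s + 2 * (j + 1) = s + 2 * j + 2 by ring, recur' (by omega) hf hb he, ih, PP, PP,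
        Finset.prod_range_succ]
      ring
  obtain ⟨C, hC⟩ := hb
  simpa only [h] using approx hs x hf.continuous hC

theorem one_le_factor {s : ℕ} (hs : n + 1 ≤ s) {ev : ℝ} (hev : 0 ≤ ev) (i : ℕ) :
    1 ≤ 1 + ev / aa n (s + 2 * i) :=
  le_add_of_nonneg_right (div_nonneg hev (aa_pos (by omega)).le)

theorem one_le_PP {s : ℕ} (hs : n + 1 ≤ s) {ev : ℝ} (hev : 0 ≤ ev) (j : ℕ) : 1 ≤ PP n s ev j := by
  induction j with
  | zero => simp [PP]
  | succ j ih =>
    rw [PP, Finset.prod_range_succ]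
    exact one_le_mul_of_one_le_of_one_le ih (one_le_factor hs hev j)

theorem PP_mono {s : ℕ} (hs : n + 1 ≤ s) {ev : ℝ} (hev : 0 ≤ ev) : Monotone (PP n s ev) := by
  refine monotone_nat_of_le_succ fun j => ?_
  have h := one_le_PP hs hev j
  rw [PP, PP, Finset.prod_range_succ] at *
  exact le_mul_of_one_le_right (by linarith) (one_le_factor hs hev j)

theorem PP_le {s : ℕ} (hs : n + 1 ≤ s) {ev : ℝ} (hev : 0 ≤ ev) (j : ℕ) :
    PP n s ev j ≤ Real.exp (ev * (1 - 1 / ((j : ℝ) + 1))) := by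
  induction j with
  | zero => simp [PP]
  | succ j ih =>
    have h1 : ev / aa n (s + 2 * j) ≤ ev / (((j : ℝ) + 1) * ((j : ℝ) + 2)) :=
      div_le_div_of_nonneg_left hev (by positivity) (aa_ge hs j)
    have h2 := Real.add_one_le_exp (ev / (((j : ℝ) + 1) * ((j : ℝ) + 2)))
    have h3 : ev * (1 - 1 / (((j + 1 : ℕ) : ℝ) + 1)) =
        ev * (1 - 1 / ((j : ℝ) + 1)) + ev / (((j : ℝ) + 1) * ((j : ℝ) + 2)) := by
      push_cast; field_simp; ring
    rw [PP, Finset.prod_range_succ, h3, Real.exp_add]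
    exact mul_le_mul ih (by linarith) (by linarith [one_le_factor hs hev j]) (Real.exp_pos _).le

theorem PP_tendsto {s : ℕ} (hs : n + 1 ≤ s) {ev : ℝ} (hev : 0 ≤ ev) :
    Tendsto (PP n s ev) atTop (𝓝 (⨆ j, PP n s ev j)) := by
  refine tendsto_atTop_ciSup (PP_mono hs hev) ⟨Real.exp ev, ?_⟩
  rintro _ ⟨j, rfl⟩
  refine (PP_le hs hev j).trans (Real.exp_le_exp.2 ?_)
  have : (0 : ℝ) ≤ 1 / ((j : ℝ) + 1) := by positivity
  nlinarith

theorem one_le_sup {s : ℕ} (hs : n + 1 ≤ s) {ev : ℝ} (hev : 0 ≤ ev) : 1 ≤ ⨆ j, PP n s ev j :=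
  ge_of_tendsto' (PP_tendsto hs hev) (one_le_PP hs hev)

theorem sup_lt {s : ℕ} (hs : n + 1 ≤ s) {ev ev' : ℝ} (hev : 0 ≤ ev) (h : ev < ev') :
    ⨆ j, PP n s ev j < ⨆ j, PP n s ev' j := by
  have hev' : 0 ≤ ev' := hev.trans h.le
  have a0 := aa_pos hs
  set ρ : ℝ := (1 + ev' / aa n s) / (1 + ev / aa n s) with hρ
  have hp : 0 < 1 + ev / aa n s := by positivity
  have hρ1 : 1 < ρ := (one_lt_div hp).2 (by
    have := div_lt_div_of_pos_right h a0
    linarith)
  have h1 : ∀ j, ρ * PP n s ev (j + 1) ≤ PP n s ev' (j + 1) := by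
    intro j
    rw [PP, PP, Finset.prod_range_succ', Finset.prod_range_succ', mul_zero, add_zero,
      mul_left_comm, hρ, div_mul_cancel₀ _ hp.ne']
    refine mul_le_mul_of_nonneg_right (Finset.prod_le_prod (fun i _ => ?_) fun i _ => ?_)
      (by positivity)
    · linarith [one_le_factor hs hev (i + 1)]
    · have := div_le_div_of_nonneg_right h.le (aa_pos (show n + 1 ≤ s + 2 * (i + 1) by omega)).le
      linarith
  have h2 : ρ * ⨆ j, PP n s ev j ≤ ⨆ j, PP n s ev' j :=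
    le_of_tendsto_of_tendsto' (((PP_tendsto hs hev).comp (tendsto_add_atTop_nat 1)).const_mul ρ)
      ((PP_tendsto hs hev').comp (tendsto_add_atTop_nat 1)) h1
  have h3 := one_le_sup hs hev
  nlinarith

end EigTAux

open EigTAux Filter Topology

theorem exists_sel {s : ℕ} (hs : n + 1 ≤ s) : ∃ h : ℝ → ℝ, IsSel n s h := by
  have c0 := cs_pos hs (orig n)
  refine ⟨fun ev => cs s (orig n) / ⨆ j, PP n s ev j, ?_, ?_, ?_⟩
  · intro a ha b _ hab
    exact div_lt_div_of_pos_left c0 (lt_of_lt_of_le one_pos (one_le_sup hs ha)) (sup_lt hs ha hab)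
  · intro ev hev
    exact div_pos c0 (lt_of_lt_of_le one_pos (one_le_sup hs hev))
  · intro ev f hev hf hb he x
    have h1 := tendsto_nhds_unique ((PP_tendsto hs hev).mul_const (TT s f x / cs s x))
      (iter hs hf hb he x)
    have h2 := lt_of_lt_of_le one_pos (one_le_sup hs hev)
    rw [← h1, cs_eq s x]
    field_simp

theorem eq_zero_of_neg {ev : ℝ} (hev : ev < 0) {f : Hyp n → ℝ} (hf : C2 f)
    (hb : ∃ C, ∀ x, |f x| ≤ C) (he : ∀ x, lap f x = -ev * f x) : f = 0 := by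
  obtain ⟨s0, hs0⟩ := exists_nat_ge (-ev)
  set s := s0 + (n + 1) with hsd
  have hs : n + 1 ≤ s := by omega
  have hfac : ∀ i, 0 ≤ 1 + ev / aa n (s + 2 * i) ∧ 1 + ev / aa n (s + 2 * i) < 1 := by
    intro i
    have h1 : n + 1 ≤ s + 2 * i := by omega
    have a0 := aa_pos h1
    have a1 := le_aa h1
    have a2 : (s0 : ℝ) ≤ ((s + 2 * i : ℕ) : ℝ) := by exact_mod_cast (show s0 ≤ s + 2 * i by omega)
    have a3 : -1 ≤ ev / aa n (s + 2 * i) := by rw [le_div_iff₀ a0]; linarith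
    have a4 := div_neg_of_neg_of_pos hev a0
    constructor <;> linarith
  set θ : ℝ := 1 + ev / aa n (s + 2 * 0) with hθ
  have hP : ∀ j, |PP n s ev (j + 1)| ≤ θ := by
    intro j
    rw [PP, abs_of_nonneg (Finset.prod_nonneg fun i _ => (hfac i).1), Finset.prod_range_succ']
    exact mul_le_of_le_one_left (hfac 0).1
      (Finset.prod_le_one (fun i _ => (hfac _).1) fun i _ => (hfac _).2.le)
  have key : ∀ C, (∀ x, |f x| ≤ C) → ∀ x, |f x| ≤ θ * C := by
    intro C hC x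
    refine le_of_tendsto' (((iter hs hf hb he x).comp (tendsto_add_atTop_nat 1)).abs) fun j => ?_
    have c0 := cs_pos hs x
    rw [Function.comp_apply, abs_mul]
    refine mul_le_mul (hP j) ?_ (abs_nonneg _) (hfac 0).1
    rw [abs_div, abs_of_pos c0, div_le_iff₀ c0]
    exact abs_TT_le hs x hC
  obtain ⟨C, hC⟩ := hb
  have h2 : ∀ k : ℕ, ∀ x, |f x| ≤ θ ^ k * C := by
    intro k
    induction k with
    | zero => simpa using hC
    | succ k ih => intro x; rw [pow_succ', mul_assoc]; exact key _ ih x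
  funext x
  have h3 : Tendsto (fun k : ℕ => θ ^ k * C) atTop (𝓝 0) := by
    have := (tendsto_pow_atTop_nhds_zero_of_lt_one (hfac 0).1 (hfac 0).2).mul_const C
    rwa [zero_mul] at this
  exact abs_nonpos_iff.1 (ge_of_tendsto' h3 fun k => h2 k x)

theorem const_of_max {f : Hyp n → ℝ} (hf : C2 f) (hb : ∃ C, ∀ x, |f x| ≤ C)
    (he : ∀ x, lap f x = 0) {x₀ : Hyp n} (hx : ∀ y, f y ≤ f x₀) (y : Hyp n) : f y = f x₀ := by
  have := hm_openPos (n := n)
  have hs : n + 1 ≤ n + 1 := le_rfl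
  have h1 := iter (ev := 0) hs hf hb (fun x => by rw [he]; simp) x₀
  simp only [PP, zero_div, add_zero, Finset.prod_const_one, one_mul, tendsto_const_nhds_iff] at h1
  obtain ⟨C, hC⟩ := hb
  have c0 := cs_pos hs x₀
  have h2 := TT_sub hs x₀ hf.continuous hC (f x₀)
  rw [← h1, div_mul_cancel₀ _ c0.ne', sub_self, h1] at h2
  have h3 : ∫ y, (uu x₀ y)⁻¹ ^ (n + 1) * (f x₀ - f y) ∂hm n = 0 := by
    rw [← neg_eq_zero, ← integral_neg]
    exact (integral_congr_ae (Eventually.of_forall fun y => by ring)).trans h2.symm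
  have hc : Continuous fun y => f x₀ - f y := continuous_const.sub hf.continuous
  rw [integral_eq_zero_iff_of_nonneg (fun y => mul_nonneg (ker_pos _ _ _).le (sub_nonneg.2 (hx y)))
    (integrable_mul hs x₀ hc (C := 2 * C) fun y =>
      (abs_sub _ _).trans (by linarith [hC y, hC x₀]))] at h3
  have h4 := congrFun ((Continuous.ae_eq_iff_eq _ ((cont_ker _ x₀).mul hc) continuous_zero).1 h3) y
  have h5 := (mul_eq_zero.1 h4).resolve_left (ker_pos _ _ _).ne'
  linarith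

end Pool.Agent.P.MP_3c2f8c_gt
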