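import Pool.Agent.P.MP_3c2f8c_gt.An.FD
import Pool.Agent.P.MP_3c2f8c_gt.An.EigT

/-! AN-18: connected components. -/

namespace Pool.Agent.P.MP_3c2f8c_gt

open Matrix MeasureTheory
open scoped ENNReal

variable {n : ℕ}

variable {G Z : Type} [Group G] [MulAction G (Hyp n)] [MulAction G Z] {ρ : G →* Oplus n}

theorem Nice.cocompact (N : Nice G Z ρ) (z : Z) :
    ∃ R : ℝ, ∀ x : Hyp n, ∃ g ∈ MulAction.stabilizer G z, uu (orig n) (g • x) ≤ R := by
  obtain ⟨R, s, hs⟩ := N.cocpt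
  have hc : ∀ y : Z, ∃ c : G, (∃ g : G, g • y = z) → c • y = z := by
    intro y
    by_cases h : ∃ g : G, g • y = z
    · obtain ⟨g, hg⟩ := h
      exact ⟨g, fun _ => hg⟩
    · exact ⟨1, fun h' => absurd h' h⟩
  choose c hc using hc
  refine ⟨2 * (∑ y ∈ s, uu (orig n) (c y • orig n)) * R, fun x => ?_⟩
  obtain ⟨g, hg, hgs⟩ := hs x z
  have h1 : c (g • z) • g • z = z := hc _ ⟨g⁻¹, inv_smul_smul g z⟩
  refine ⟨c (g • z) * g, by rw [MulAction.mem_stabilizer_iff, mul_smul, h1], ?_⟩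
  have h2 := uu_le_two_mul (orig n) (c (g • z) • orig n) ((c (g • z) * g) • x)
  have h3 : uu (c (g • z) • orig n) ((c (g • z) * g) • x) = uu (orig n) (g • x) := by
    rw [mul_smul, N.act (c (g • z)), N.act (c (g • z)), uu_smul]
  have h4 : uu (orig n) (c (g • z) • orig n) ≤ ∑ y ∈ s, uu (orig n) (c y • orig n) :=
    Finset.single_le_sum (f := fun y => uu (orig n) (c y • orig n))
      (fun y _ => zero_le_one.trans (one_le_uu _ _)) hgs
  rw [h3] at h2
  have h5 := one_le_uu (orig n) (g • x)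
  have h6 := one_le_uu (orig n) (c (g • z) • orig n)
  refine h2.trans (mul_le_mul (by linarith) hg (by linarith) (by linarith))

theorem Nice.isClosedMfd (N : Nice G Z ρ) (z : Z)
    (htf : ∀ g ∈ MulAction.stabilizer G z, IsOfFinOrder g → g = 1)
    (hdet : ∀ g : G, (ρ g).1.1.det = 1) :
    IsClosedMfd ((MulAction.stabilizer G z).map ρ) := by
  refine ⟨fun R => ?_, ?_, ?_, ?_⟩
  · refine ((N.proper z z R).image ρ).subset ?_
    rintro _ ⟨⟨g, hg, rfl⟩, h⟩
    refine ⟨g, ⟨hg, ?_⟩, rfl⟩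
    rw [N.act, uu_orig_smul_orig]
    exact (le_abs_self _).trans (h 0 0)
  · rintro _ ⟨g, hg, rfl⟩ h
    obtain ⟨k, hk, hk'⟩ := isOfFinOrder_iff_pow_eq_one.1 h
    have h1 : g ^ k = 1 := by
      refine N.free _ (orig n) z ?_ ((MulAction.stabilizer G z).pow_mem hg k)
      rw [N.act, map_pow, hk', one_smul]
    rw [htf g hg (isOfFinOrder_iff_pow_eq_one.2 ⟨k, hk, h1⟩), map_one]
  · obtain ⟨R, hR⟩ := N.cocompact z
    refine ⟨_, isCompact_ball (orig n) R, fun x => ?_⟩
    obtain ⟨g, hg, h⟩ := hR x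
    refine ⟨ρ g, ⟨g, hg, rfl⟩, ?_⟩
    rw [← N.act]
    exact h
  · rintro _ ⟨g, -, rfl⟩
    exact hdet g

theorem finrank_eig_zero (Γ : Subgroup (Oplus n))
    (hc : ∃ R : ℝ, ∀ x : Hyp n, ∃ g ∈ Γ, uu (orig n) (g • x) ≤ R) :
    Module.finrank ℝ (Eig Γ 0) = 1 := by
  obtain ⟨R, hR⟩ := hc
  have h1 : (fun _ : Hyp n => (1 : ℝ)) ∈ Eig Γ 0 :=
    ⟨smooth_const 1, fun _ _ _ => rfl, fun x => by rw [lap_const]; simp⟩
  refine finrank_eq_one (⟨_, h1⟩ : Eig Γ 0) ?_ ?_
  · intro h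
    have := congrFun (congrArg Subtype.val h) (orig n)
    simp at this
  · rintro ⟨f, hf, hi, he⟩
    have hcont := hf.c2.continuous
    have hK := isCompact_ball (orig n) R
    have hne : {y | uu (orig n) y ≤ R}.Nonempty := by
      obtain ⟨g, -, h⟩ := hR (orig n)
      exact ⟨_, h⟩
    obtain ⟨x₀, -, hx₀⟩ := hK.exists_isMaxOn hne hcont.continuousOn
    obtain ⟨x₁, -, hx₁⟩ := hK.exists_isMaxOn hne hcont.abs.continuousOn
    have hmax : ∀ y, f y ≤ f x₀ := by
      intro y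
      obtain ⟨g, hg, h⟩ := hR y
      rw [← hi g hg y]
      exact hx₀ h
    have hb : ∀ y, |f y| ≤ |f x₁| := by
      intro y
      obtain ⟨g, hg, h⟩ := hR y
      rw [← hi g hg y]
      exact hx₁ h
    refine ⟨f x₀, Subtype.ext (funext fun y => ?_)⟩
    have := const_of_max hf.c2 ⟨_, hb⟩ (fun x => by rw [he]; simp) hmax y
    simp [this]

namespace CompAux

theorem comp_mem {Γ : Subgroup (Oplus n)} {ev : ℝ} {f : Hyp n → ℝ} (hf : f ∈ Eig Γ ev)
    (g : Oplus n) : Smooth (fun x => f (g • x)) ∧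
      ∀ x, lap (fun x => f (g • x)) x = -ev * f (g • x) :=
  ⟨hf.1.comp_smul g, fun x => by rw [lap_comp_smul hf.1.c2, hf.2.2]⟩

theorem conj_mem {z₀ z : Z} {a b : G}
    (h : MulAction.stabilizer G z = MulAction.stabilizer G (a • z₀)) :
    b ∈ MulAction.stabilizer G z ↔ a⁻¹ * b * a ∈ MulAction.stabilizer G z₀ := by
  rw [h, MulAction.mem_stabilizer_iff, MulAction.mem_stabilizer_iff, mul_smul, mul_smul,
    inv_smul_eq_iff]

end CompAux

theorem finrank_eigX (N : Nice G Z ρ) (z₀ : Z)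
    (hconj : ∀ z : Z, ∃ g : G, MulAction.stabilizer G z = MulAction.stabilizer G (g • z₀)) :
    ∃ r : ℕ, 0 < r ∧ ∀ ev, Module.Finite ℝ (EigX (n := n) G Z ev) →
      Module.Finite ℝ (Eig ((MulAction.stabilizer G z₀).map ρ) ev) ∧
      Module.finrank ℝ (EigX (n := n) G Z ev) =
        r * Module.finrank ℝ (Eig ((MulAction.stabilizer G z₀).map ρ) ev) := by
  classical
  obtain ⟨Q, hQ, π, rep, hπ, hrep, hk⟩ : ∃ (Q : Type) (_ : Finite Q) (π : Z → Q) (rep : Q → Z),
      (∀ (g : G) z, π (g • z) = π z) ∧ (∀ q, π (rep q) = q) ∧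
        ∀ z, ∃ k : G, k • z = rep (π z) := by
    refine ⟨MulAction.orbitRel.Quotient G Z, ?_, Quotient.mk _, Quotient.out, ?_, ?_, ?_⟩
    · obtain ⟨R, s, hs⟩ := N.cocpt
      refine Finite.of_surjective
        (fun y : s => (Quotient.mk _ y.1 : MulAction.orbitRel.Quotient G Z)) ?_
      intro q
      obtain ⟨z, rfl⟩ := Quotient.exists_rep q
      obtain ⟨g, -, hg⟩ := hs (orig n) z
      exact ⟨⟨_, hg⟩, Quotient.sound ⟨g, rfl⟩⟩
    · intro g z
      exact Quotient.sound ⟨g, rfl⟩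
    · exact Quotient.out_eq
    · intro z
      exact Quotient.mk_out (s := MulAction.orbitRel G Z) z
  choose k hk using hk
  choose a ha using hconj
  have hF := Fintype.ofFinite Q
  refine ⟨Fintype.card Q, Fintype.card_pos_iff.2 ⟨π z₀⟩, fun ev hfin => ?_⟩
  let Φ : EigX (n := n) G Z ev →ₗ[ℝ] (Q → Eig ((MulAction.stabilizer G z₀).map ρ) ev) :=
    { toFun := fun f q => ⟨fun x => f.1 (ρ (a (rep q)) • x, rep q), by
        have h1 := CompAux.comp_mem (f.2.1 (rep q)) (ρ (a (rep q)))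
        refine ⟨h1.1, ?_, h1.2⟩
        rintro _ ⟨b, hb, rfl⟩ x
        have h2 : a (rep q) * b * (a (rep q))⁻¹ ∈ MulAction.stabilizer G (rep q) := by
          rw [CompAux.conj_mem (ha (rep q))]
          have e : (a (rep q))⁻¹ * (a (rep q) * b * (a (rep q))⁻¹) * a (rep q) = b := by group
          rw [e]
          exact hb
        have h3 := f.2.2 (a (rep q) * b * (a (rep q))⁻¹) (ρ (a (rep q)) • x, rep q)
        rw [Prod.smul_mk, MulAction.mem_stabilizer_iff.1 h2, ← N.act, mul_smul, inv_smul_smul,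
          mul_smul] at h3
        show f.1 (ρ (a (rep q)) • ρ b • x, rep q) = f.1 (ρ (a (rep q)) • x, rep q)
        rw [← N.act, ← N.act, ← N.act]
        exact h3⟩
      map_add' := fun _ _ => rfl
      map_smul' := fun _ _ => rfl }
  have hΦ : ∀ f q x, (Φ f q).1 x = f.1 (a (rep q) • x, rep q) := by
    intro f q x
    rw [N.act]
    rfl
  have hinj : Function.Injective Φ := by
    rw [injective_iff_map_eq_zero]
    intro f hf
    refine Subtype.ext (funext fun w => ?_)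
    have h1 := hΦ f (π w.2) ((a (rep (π w.2)))⁻¹ • k w.2 • w.1)
    rw [hf, smul_inv_smul, ← hk] at h1
    have h2 := f.2.2 (k w.2) w
    exact h2.symm.trans h1.symm
  have hsurj : Function.Surjective Φ := by
    intro F
    have key : ∀ (q : Q) (b : G) (x : Hyp n), b ∈ MulAction.stabilizer G (rep q) →
        (F q).1 ((a (rep q))⁻¹ • b • x) = (F q).1 ((a (rep q))⁻¹ • x) := by
      intro q b x hb
      have h1 := (CompAux.conj_mem (ha (rep q))).1 hb
      have h2 := (F q).2.2.1 _ ⟨_, h1, rfl⟩ ((a (rep q))⁻¹ • x)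
      rw [← N.act, mul_smul, smul_inv_smul, mul_smul] at h2
      exact h2
    refine ⟨⟨fun w => (F (π w.2)).1 ((a (rep (π w.2)))⁻¹ • k w.2 • w.1), fun z => ?_, ?_⟩, ?_⟩
    · have h1 := CompAux.comp_mem (F (π z)).2 (ρ ((a (rep (π z)))⁻¹ * k z))
      simp only [← N.act, mul_smul] at h1
      refine ⟨h1.1, ?_, h1.2⟩
      intro g hg x
      rw [Subgroup.mem_bot.1 hg, one_smul]
    · intro g w
      show (F (π (g • w.2))).1 ((a (rep (π (g • w.2))))⁻¹ • k (g • w.2) • g • w.1) =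
        (F (π w.2)).1 ((a (rep (π w.2)))⁻¹ • k w.2 • w.1)
      have h1 := hk (g • w.2)
      rw [hπ] at h1 ⊢
      have h2 : k (g • w.2) * g * (k w.2)⁻¹ ∈ MulAction.stabilizer G (rep (π w.2)) := by
        rw [MulAction.mem_stabilizer_iff, mul_smul, mul_smul]
        conv_lhs => rw [← hk w.2, inv_smul_smul]
        exact h1
      have h3 := key _ _ (k w.2 • w.1) h2
      rw [mul_smul, inv_smul_smul, mul_smul] at h3
      exact h3
    · funext q
      refine Subtype.ext (funext fun x => ?_)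
      rw [hΦ]
      show (F (π (rep q))).1 ((a (rep (π (rep q))))⁻¹ • k (rep q) • a (rep q) • x) = _
      have h1 := hk (rep q)
      rw [hrep] at h1 ⊢
      rw [key q _ _ h1, inv_smul_smul]
  have e := LinearEquiv.ofBijective Φ ⟨hinj, hsurj⟩
  have h1 : Module.Finite ℝ (Q → Eig ((MulAction.stabilizer G z₀).map ρ) ev) :=
    Module.Finite.equiv e
  have h2 : Module.Finite ℝ (Eig ((MulAction.stabilizer G z₀).map ρ) ev) :=
    Module.Finite.of_surjective
      (LinearMap.proj (R := ℝ) (φ := fun _ : Q => Eig ((MulAction.stabilizer G z₀).map ρ) ev)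
        (π z₀)) (fun y => ⟨fun _ => y, rfl⟩)
  refine ⟨h2, ?_⟩
  rw [e.finrank_eq, Module.finrank_pi_fintype, Finset.sum_const, Finset.card_univ, smul_eq_mul]

end Pool.Agent.P.MP_3c2f8c_gt
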