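import Pool.Agent.P.MP_3c2f8c_gt.An.Defs

/-! AN-11: comparison of the geometric sides. -/

namespace Pool.Agent.P.MP_3c2f8c_gt

open Matrix MeasureTheory
open scoped ENNReal

variable {n : ℕ}

namespace UnfoldAux

open scoped Pointwise

variable {X G : Type} [MeasurableSpace X] [Group G] [MulAction G X]

/-- The union of the translates of `D` by representatives of the cosets of `C`. -/
def dom (C : Subgroup G) (D : Set X) : Set X := ⋃ q : G ⧸ C, (q.out)⁻¹ • D

omit [MeasurableSpace X] in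
theorem mem_tr {D : Set X} {g : G} {w : X} : w ∈ g⁻¹ • D ↔ g • w ∈ D := by
  rw [Set.mem_smul_set_iff_inv_smul_mem, inv_inv]

theorem meas_tr [MeasurableConstSMul G X] {D : Set X} (hD : MeasurableSet D) (g : G) :
    MeasurableSet (g • D) := hD.const_smul g

theorem isFD [Countable G] [MeasurableConstSMul G X] (ν : Measure X) (C : Subgroup G) {D : Set X}
    (hD : MeasurableSet D) (sD : StrictFD G D) : IsFundamentalDomain C (dom C D) ν := by
  have : Countable (G ⧸ C) := QuotientGroup.mk_surjective.countable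
  refine IsFundamentalDomain.mk'
    (MeasurableSet.iUnion fun q => meas_tr hD _).nullMeasurableSet fun w => ?_
  obtain ⟨g, hg, hu⟩ := sD w
  have key : ∀ c : C, c • w ∈ dom C D ↔ (c : G) = ((g : G ⧸ C).out)⁻¹ * g := by
    intro c
    simp only [dom, Set.mem_iUnion, mem_tr, Subgroup.smul_def, smul_smul]
    constructor
    · rintro ⟨q, hq⟩
      have h1 : q.out * c = g := hu _ hq
      have h2 : (g : G ⧸ C) = q := by
        rw [← h1, QuotientGroup.mk_mul_of_mem _ c.2, QuotientGroup.out_eq']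
      rw [h2, ← h1, inv_mul_cancel_left]
    · intro h
      exact ⟨g, by rw [h, mul_inv_cancel_left]; exact hg⟩
  have hm : ((g : G ⧸ C).out)⁻¹ * g ∈ C := QuotientGroup.eq.1 (QuotientGroup.out_eq' _)
  exact ⟨⟨_, hm⟩, (key _).2 rfl, fun c hc => Subtype.ext ((key c).1 hc)⟩

theorem unfold [Countable G] [MeasurableConstSMul G X] (ν : Measure X)
    [SMulInvariantMeasure G X ν] {D : Set X} (hD : MeasurableSet D) (sD : StrictFD G D)
    (F : G → X → ℝ≥0∞) (cF : ∀ g γ w, F (g * γ * g⁻¹) (g • w) = F γ w) (γ : G) :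
    ∑' δ : {δ // ConjClasses.mk δ = ConjClasses.mk γ}, ∫⁻ w in D, F δ w ∂ν =
      ∫⁻ w in dom (Subgroup.centralizer {γ}) D, F γ w ∂ν := by
  set C := Subgroup.centralizer ({γ} : Set G) with hC
  have : Countable (G ⧸ C) := QuotientGroup.mk_surjective.countable
  let e : G ⧸ C → {δ // ConjClasses.mk δ = ConjClasses.mk γ} := fun q =>
    ⟨q.out * γ * (q.out)⁻¹, ConjClasses.mk_eq_mk_iff_isConj.2 (isConj_iff.2 ⟨_, rfl⟩).symm⟩
  have hmem : ∀ g h : G, g * γ * g⁻¹ = h * γ * h⁻¹ ↔ g⁻¹ * h ∈ C := by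
    intro g h
    rw [hC, Subgroup.mem_centralizer_singleton_iff]
    constructor
    · intro h1
      calc g⁻¹ * h * γ = g⁻¹ * (h * γ * h⁻¹) * h := by group
        _ = γ * (g⁻¹ * h) := by rw [← h1]; group
    · intro h1
      calc g * γ * g⁻¹ = g * (γ * (g⁻¹ * h)) * h⁻¹ := by group
        _ = h * γ * h⁻¹ := by rw [← h1]; group
  have he : Function.Bijective e := by
    constructor
    · intro q q' h
      have h1 := (hmem _ _).1 (congrArg Subtype.val h)
      rw [← QuotientGroup.out_eq' q, ← QuotientGroup.out_eq' q']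
      exact QuotientGroup.eq.2 h1
    · rintro ⟨δ, hδ⟩
      obtain ⟨g, rfl⟩ := isConj_iff.1 (ConjClasses.mk_eq_mk_iff_isConj.1 hδ).symm
      exact ⟨g, Subtype.ext ((hmem _ _).2 (QuotientGroup.eq.1 (QuotientGroup.out_eq' _)))⟩
  rw [← (Equiv.ofBijective e he).tsum_eq, dom, lintegral_iUnion (fun q => meas_tr hD _)]
  · refine tsum_congr fun q => ?_
    have := (measurePreserving_smul (q.out)⁻¹ ν).setLIntegral_comp_emb
      (measurableEmbedding_const_smul _) (F γ) D
    rw [Set.image_smul] at this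
    rw [← this]
    refine lintegral_congr fun w => ?_
    rw [← cF q.out γ, smul_inv_smul]
    rfl
  · intro q q' hne
    refine Set.disjoint_left.2 fun w h1 h2 => hne ?_
    have h3 := (sD w).unique (mem_tr.1 h1) (mem_tr.1 h2)
    rw [← QuotientGroup.out_eq' q, h3, QuotientGroup.out_eq']

omit [MulAction G X] in
theorem split [Countable G] (ν : Measure X) (D : Set X) (F : G → X → ℝ≥0∞)
    (mF : ∀ γ, Measurable (F γ)) :
    ∫⁻ w in D, ∑' γ, F γ w ∂ν = ∑' c : ConjClasses G,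
      ∑' δ : {δ // ConjClasses.mk δ = c}, ∫⁻ w in D, F δ w ∂ν := by
  rw [lintegral_tsum fun γ => (mF γ).aemeasurable,
    ← (Equiv.sigmaFiberEquiv (ConjClasses.mk : G → ConjClasses G)).tsum_eq, ENNReal.tsum_sigma']
  rfl

end UnfoldAux

theorem geom_le {X G G' : Type} [MeasurableSpace X] (ν : Measure X) [Group G] [Group G']
    [Countable G] [Countable G'] [MulAction G X] [MulAction G' X] [MeasurableConstSMul G X]
    [MeasurableConstSMul G' X] [SMulInvariantMeasure G X ν] [SMulInvariantMeasure G' X ν]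
    {D D' : Set X} (hD : MeasurableSet D) (hD' : MeasurableSet D') (sD : StrictFD G D)
    (sD' : StrictFD G' D') (F : G → X → ℝ≥0∞) (F' : G' → X → ℝ≥0∞)
    (mF : ∀ γ, Measurable (F γ)) (mF' : ∀ γ, Measurable (F' γ))
    (cF : ∀ g γ w, F (g * γ * g⁻¹) (g • w) = F γ w)
    (cF' : ∀ g γ w, F' (g * γ * g⁻¹) (g • w) = F' γ w)
    (Reg : G → Prop) (φ : G → G') (hsupp : ∀ γ w, F γ w ≠ 0 → Reg γ)
    (hmatch : ∀ γ, Reg γ → ∃ (τ : Subgroup.centralizer {γ} ≃* Subgroup.centralizer {φ γ})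
      (Ψ : X ≃ᵐ X), MeasurePreserving Ψ ν ν ∧
      (∀ (t : Subgroup.centralizer {γ}) (w : X), Ψ ((t : G) • w) = (τ t : G') • Ψ w) ∧
      ∀ w, F' (φ γ) (Ψ w) = F γ w)
    (hinj : ∀ γ₁ γ₂, Reg γ₁ → Reg γ₂ → IsConj (φ γ₁) (φ γ₂) → IsConj γ₁ γ₂) :
    ∫⁻ w in D, ∑' γ, F γ w ∂ν ≤ ∫⁻ w in D', ∑' γ, F' γ w ∂ν := by
  rw [UnfoldAux.split ν D F mF, UnfoldAux.split ν D' F' mF']
  set A : ConjClasses G → ℝ≥0∞ := fun c =>
    ∑' δ : {δ // ConjClasses.mk δ = c}, ∫⁻ w in D, F δ w ∂ν with hA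
  set A' : ConjClasses G' → ℝ≥0∞ := fun c =>
    ∑' δ : {δ // ConjClasses.mk δ = c}, ∫⁻ w in D', F' δ w ∂ν with hA'
  have hex : ∀ c : Function.support A, ∃ γ, ConjClasses.mk γ = c ∧ Reg γ := by
    rintro ⟨c, hc⟩
    by_contra hne
    apply hc
    refine ENNReal.tsum_eq_zero.2 fun δ => ?_
    have h0 : ∀ w, F δ w = 0 := fun w => by
      by_contra h
      exact hne ⟨δ, δ.2, hsupp _ w h⟩
    simp [h0]
  choose r hr hreg using hex
  have heq : ∀ γ, Reg γ → A (ConjClasses.mk γ) = A' (ConjClasses.mk (φ γ)) := by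
    intro γ hγ
    obtain ⟨τ, Ψ, hΨ, hτ, hF⟩ := hmatch γ hγ
    simp only [hA, hA']
    rw [UnfoldAux.unfold ν hD sD F cF, UnfoldAux.unfold ν hD' sD' F' cF']
    have h1 := (UnfoldAux.isFD ν (Subgroup.centralizer {γ}) hD sD).image_of_equiv
      (H := Subgroup.centralizer {φ γ}) Ψ.toEquiv
      (hΨ.symm Ψ).quasiMeasurePreserving τ.symm.toEquiv (fun t w => by
        have := hτ (τ.symm t) w
        rw [τ.apply_symm_apply] at this
        exact this)
    have h2 := h1.setLIntegral_eq (UnfoldAux.isFD ν (Subgroup.centralizer {φ γ}) hD' sD')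
      (F' (φ γ)) (fun t w => by
        have h3 : (t : G') * φ γ * (t : G')⁻¹ = φ γ := by
          rw [Subgroup.mem_centralizer_singleton_iff.1 t.2, mul_inv_cancel_right]
        have h4 := cF' t (φ γ) w
        rw [h3] at h4
        exact h4)
    rw [← h2]
    have h5 := hΨ.setLIntegral_comp_emb Ψ.measurableEmbedding (F' (φ γ))
      (UnfoldAux.dom (Subgroup.centralizer {γ}) D)
    simp only [hF] at h5
    exact h5
  have hj : Function.Injective fun c : Function.support A => ConjClasses.mk (φ (r c)) := by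
    intro c c' h
    have h1 := hinj _ _ (hreg c) (hreg c') (ConjClasses.mk_eq_mk_iff_isConj.1 h)
    exact Subtype.ext (by rw [← hr c, ← hr c', ConjClasses.mk_eq_mk_iff_isConj.2 h1])
  calc ∑' c, A c = ∑' c : Function.support A, A c := (tsum_subtype_support A).symm
    _ = ∑' c : Function.support A, A' (ConjClasses.mk (φ (r c))) :=
        tsum_congr fun c => by rw [← heq _ (hreg c), hr c]
    _ ≤ ∑' c, A' c := ENNReal.tsum_comp_le_tsum_of_injective hj A'

end Pool.Agent.P.MP_3c2f8c_gt
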