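import Pool.Agent.P.MP_3c2f8c_gt.An.Defs

/-! AN-14: three abstract lemmas. -/

namespace Pool.Agent.P.MP_3c2f8c_gt

open Matrix MeasureTheory
open scoped ENNReal

variable {n : ℕ}

theorem eq_zero_of_moments {ι : Type} (h : ι → ℝ) (M : ℝ) (hM : ∀ i, |h i| ≤ M)
    (hinj : Function.Injective h) (d : ι → ℝ) (hd : Summable d)
    (h0 : ∀ a : ℕ, ∑' i, h i ^ a * d i = 0) : d = 0 := by
  have hP : ∀ P : Polynomial ℝ, HasSum (fun i => P.eval (h i) * d i) 0 := by
    intro P
    induction P using Polynomial.induction_on' with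
    | add p q hp hq => simpa only [Polynomial.eval_add, add_mul, add_zero] using hp.add hq
    | monomial a c =>
      have hs : Summable fun i => h i ^ a * d i := by
        refine Summable.of_norm_bounded (hd.abs.mul_left (M ^ a)) fun i => ?_
        rw [Real.norm_eq_abs, abs_mul, abs_pow]
        exact mul_le_mul_of_nonneg_right (pow_le_pow_left₀ (abs_nonneg _) (hM i) a) (abs_nonneg _)
      have h1 := hs.hasSum.mul_left c
      rw [h0, mul_zero] at h1
      simpa only [Polynomial.eval_monomial, mul_assoc] using h1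
  funext i0
  have hM0 : 0 ≤ M := (abs_nonneg _).trans (hM i0)
  set q : ι → ℝ := fun i => 1 - ((h i - h i0) / (2 * M + 1)) ^ 2 with hq
  have hq0 : ∀ i, 0 ≤ q i := by
    intro i
    have h1 := abs_le.1 (hM i)
    have h2 := abs_le.1 (hM i0)
    have h3 : |(h i - h i0) / (2 * M + 1)| ≤ 1 := by
      rw [abs_div, abs_of_pos (by positivity : 0 < 2 * M + 1), div_le_one (by positivity), abs_le]
      constructor <;> linarith
    exact sub_nonneg.2 ((sq_le_one_iff_abs_le_one _).2 h3)
  have hq1 : ∀ i, q i ≤ 1 := fun i => sub_le_self _ (sq_nonneg _)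
  have hsum : ∀ k : ℕ, ∑' i, q i ^ k * d i = 0 := by
    intro k
    have h1 := hP ((1 - ((Polynomial.X - Polynomial.C (h i0)) * Polynomial.C (2 * M + 1)⁻¹) ^ 2) ^ k)
    simp only [Polynomial.eval_pow, Polynomial.eval_sub, Polynomial.eval_one, Polynomial.eval_mul,
      Polynomial.eval_X, Polynomial.eval_C, ← div_eq_mul_inv] at h1
    exact h1.tsum_eq
  classical
  have hlim := tendsto_tsum_of_dominated_convergence (𝓕 := Filter.atTop)
    (f := fun (k : ℕ) i => q i ^ k * d i) (g := fun i => if i = i0 then d i0 else 0)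
    (bound := fun i => |d i|) hd.abs ?_ (Filter.Eventually.of_forall fun k i => ?_)
  · simp only [hsum, tsum_ite_eq] at hlim
    exact (tendsto_const_nhds_iff.1 hlim).symm
  · intro i
    by_cases hi : i = i0
    · subst hi
      simp [hq]
    · rw [if_neg hi]
      have h1 : q i < 1 := by
        have h2 : (h i - h i0) / (2 * M + 1) ≠ 0 :=
          div_ne_zero (sub_ne_zero.2 fun h3 => hi (hinj h3)) (by positivity)
        exact sub_lt_self _ (by positivity)
      simpa using (tendsto_pow_atTop_nhds_zero_of_lt_one (hq0 i) h1).mul_const (d i)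
  · rw [Real.norm_eq_abs, abs_mul, abs_of_nonneg (pow_nonneg (hq0 i) k)]
    exact mul_le_of_le_one_left (abs_nonneg _) (pow_le_one₀ (hq0 i) (hq1 i))

theorem MomentAux.trace_aeval {V : Type} [AddCommGroup V] [Module ℝ V] [Module.Finite ℝ V]
    (A : V →ₗ[ℝ] V) (c : Polynomial ℝ) :
    LinearMap.trace ℝ V (Polynomial.aeval A c) = c.coeff 0 * Module.finrank ℝ V +
      ∑ i ∈ Finset.range c.natDegree, c.coeff (i + 1) * LinearMap.trace ℝ V (A ^ (i + 1)) := by
  rw [Polynomial.aeval_eq_sum_range, Finset.sum_range_succ', map_add, map_sum, pow_zero, map_smul,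
    LinearMap.trace_one, add_comm]
  simp only [map_smul, smul_eq_mul]

theorem MomentAux.coeff_ne {V : Type} [AddCommGroup V] [Module ℝ V] [Module.Finite ℝ V]
    (A : V →ₗ[ℝ] V) (hA : Function.Injective A) : A.charpoly.coeff 0 ≠ 0 := by
  intro h0
  have h1 := LinearMap.det_eq_sign_charpoly_coeff A
  rw [h0, mul_zero, LinearMap.det_eq_zero_iff_ker_ne_bot] at h1
  exact h1 (LinearMap.ker_eq_bot.2 hA)

theorem finrank_eq_of_trace_pow {V W : Type} [AddCommGroup V] [Module ℝ V] [AddCommGroup W]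
    [Module ℝ W] [Module.Finite ℝ V] [Module.Finite ℝ W] (A : V →ₗ[ℝ] V) (B : W →ₗ[ℝ] W)
    (hA : Function.Injective A) (hB : Function.Injective B)
    (h : ∀ m : ℕ, LinearMap.trace ℝ V (A ^ (m + 1)) = LinearMap.trace ℝ W (B ^ (m + 1))) :
    Module.finrank ℝ V = Module.finrank ℝ W := by
  have h1 := MomentAux.trace_aeval A (A.charpoly * B.charpoly)
  have h2 := MomentAux.trace_aeval B (A.charpoly * B.charpoly)
  rw [map_mul, LinearMap.aeval_self_charpoly, zero_mul, map_zero] at h1
  rw [map_mul, LinearMap.aeval_self_charpoly, mul_zero, map_zero] at h2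
  simp only [h] at h1
  have h3 : (A.charpoly * B.charpoly).coeff 0 ≠ 0 := by
    rw [Polynomial.mul_coeff_zero]
    exact mul_ne_zero (MomentAux.coeff_ne A hA) (MomentAux.coeff_ne B hB)
  exact_mod_cast mul_left_cancel₀ h3 (add_right_cancel (h1.symm.trans h2))

theorem exists_inv_equiv {A Y : Type} [Group A] [MulAction A Y] (hc : ∀ a b : A, a * b = b * a) :
    ∃ ι : Y ≃ Y, ∀ (a : A) (y : Y), ι (a • y) = a⁻¹ • ι y := by
  let o : Y → Y := fun y => (Quotient.mk (MulAction.orbitRel A Y) y).out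
  have ho : ∀ y, ∃ a : A, a • o y = y := fun y =>
    (MulAction.orbitRel A Y).symm (Quotient.mk_out (s := MulAction.orbitRel A Y) y)
  have ho' : ∀ (a : A) y, o (a • y) = o y := fun a y =>
    congrArg Quotient.out (Quotient.sound (MulAction.mem_orbit y a))
  choose c hcy using ho
  let j : Y → Y := fun y => (c y)⁻¹ • o y
  have hj : ∀ (a : A) y, a • o y = y → j y = a⁻¹ • o y := by
    intro a y ha
    have h1 : ((c y)⁻¹ * a) • o y = o y := by rw [mul_smul, ha, inv_smul_eq_iff, hcy]
    change (c y)⁻¹ • o y = a⁻¹ • o y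
    rw [eq_inv_smul_iff, ← mul_smul, hc, h1]
  have hjs : ∀ (a : A) y, j (a • y) = a⁻¹ • j y := by
    intro a y
    rw [hj (a * c y) (a • y) (by rw [ho', mul_smul, hcy]), ho', hc, _root_.mul_inv_rev, mul_smul]
  have hoo : ∀ y, j (o y) = o y := by
    intro y
    have h1 : o (o y) = o y := by rw [← ho' (c y) (o y), hcy]
    rw [hj 1 (o y) (by rw [one_smul, h1]), inv_one, one_smul, h1]
  have hjj : Function.Involutive j := by
    intro y
    change j ((c y)⁻¹ • o y) = y
    rw [hjs, inv_inv, hoo, hcy]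
  exact ⟨hjj.toPerm, hjs⟩

theorem UL_injective {X Z : Type} {κ : Z → Z → ℕ} (hκ : HK κ) :
    Function.Injective (UL X κ hκ.fin) := by
  refine (injective_iff_map_eq_zero _).2 fun f hf => funext fun w => ?_
  exact congrFun (hκ.inj (fun z => f (w.1, z)) fun z => congrFun hf (w.1, z)) w.2

end Pool.Agent.P.MP_3c2f8c_gt
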