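import Pool.Agent.P.MP_3c2f8c_gt.Defs

/-!
Definitions for the analytic part: the invariant `uu = cosh dist`, the invariant measure, the
integral operators with kernel `uu ^ (-s)`, Hecke kernels and the total eigenspace.
-/

namespace Pool.Agent.P.MP_3c2f8c_gt

open Matrix MeasureTheory
open scoped ENNReal

variable {n : ℕ}

/-- The hyperbolic cosine of the distance. -/
def uu (x y : Hyp n) : ℝ := -lor x.1 y.1

/-- The base point. -/
def orig (n : ℕ) : Hyp n := ⟨Pi.single 0 1, by simp [lor], by simp⟩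

/-- The full orthogonal group of the Lorentz form. -/
def LorO (n : ℕ) : Subgroup (GL (Fin (n + 1)) ℝ) where
  carrier := {g | ∀ x y, lor (g.1 *ᵥ x) (g.1 *ᵥ y) = lor x y}
  one_mem' := fun x y => by simp
  mul_mem' := by
    intro g h hg hh x y
    rw [Units.val_mul, ← mulVec_mulVec, ← mulVec_mulVec, hg, hh]
  inv_mem' := by
    intro g hg x y
    have e : ∀ x, g.1 *ᵥ ((g⁻¹).1 *ᵥ x) = x := fun x => by
      rw [mulVec_mulVec, ← Units.val_mul, mul_inv_cancel, Units.val_one, one_mulVec]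
    rw [← hg, e, e]

/-- Twice continuously differentiable functions on hyperbolic space. -/
def C2 (f : Hyp n → ℝ) : Prop := ContDiffOn ℝ 2 (ext f) (cone n)

/-- A smooth bump supported in `[1, 2]`. -/
noncomputable def bump (r : ℝ) : ℝ := expNegInvGlue (r - 1) * expNegInvGlue (2 - r)

/-- The weight on the ambient space that defines the invariant measure. -/
noncomputable def wt (x : Fin (n + 1) → ℝ) : ℝ := if 0 < x 0 then bump (-lor x x) else 0

open Classical in
/-- The radial projection as a total function. -/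
noncomputable def projT (x : Fin (n + 1) → ℝ) : Hyp n :=
  if hx : x ∈ cone n then proj x hx else orig n

/-- The invariant measure on hyperbolic space (up to a constant). -/
noncomputable def hm (n : ℕ) : Measure (Hyp n) :=
  Measure.map projT (volume.withDensity fun x => ENNReal.ofReal (wt x))

/-- The integral operator with kernel `uu ^ (-s)`. -/
noncomputable def TT (s : ℕ) (f : Hyp n → ℝ) (x : Hyp n) : ℝ :=
  ∫ y, (uu x y)⁻¹ ^ s * f y ∂hm n

/-- The kernel `uu ^ (-s)` with values in `ℝ≥0∞`. -/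
noncomputable def ker1 (s : ℕ) (x y : Hyp n) : ℝ≥0∞ := ENNReal.ofReal ((uu x y)⁻¹ ^ s)

/-- `kc s a` is the convolution of `a + 1` copies of `ker1 s`. -/
noncomputable def kc (s : ℕ) : ℕ → Hyp n → Hyp n → ℝ≥0∞
  | 0 => ker1 s
  | a + 1 => fun x y => ∫⁻ w, ker1 s x w * kc s a w y ∂hm n

/-- Admissible point-pair invariants. -/
structure Adm (k : Hyp n → Hyp n → ℝ≥0∞) : Prop where
  meas : Measurable (Function.uncurry k)
  inv : ∀ (g : Oplus n) x y, k (g • x) (g • y) = k x y
  symm : ∀ x y, k x y = k y x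
  harnack : ∀ R : ℝ, ∃ C : ℝ≥0∞, C ≠ ∞ ∧ ∀ x y y', uu y y' ≤ R → k x y ≤ C * k x y'
  int : ∀ x, ∫⁻ y, k x y ∂hm n ≠ ∞

section Hecke

variable {Z : Type}

/-- `Chain κ m z z'`: there is a path of length `m` from `z` to `z'` in the support of `κ`. -/
def Chain (κ : Z → Z → ℕ) : ℕ → Z → Z → Prop
  | 0 => fun z z' => z = z'
  | m + 1 => fun z z' => ∃ y, κ z y ≠ 0 ∧ Chain κ m y z'

open Classical in
/-- Powers of the kernel `κ`. -/
noncomputable def kpow (κ : Z → Z → ℕ) : ℕ → Z → Z → ℝ≥0∞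
  | 0 => fun z z' => if z = z' then 1 else 0
  | m + 1 => fun z z' => ∑' y, (κ z y : ℝ≥0∞) * kpow κ m y z'

/-- A kernel with finite rows whose operator is injective on all real functions. -/
structure HK (κ : Z → Z → ℕ) : Prop where
  fin : ∀ z, {z' | κ z z' ≠ 0}.Finite
  inj : ∀ f : Z → ℝ, (∀ z, ∑ᶠ z', (κ z z' : ℝ) * f z' = 0) → f = 0

/-- The operator of `κ` on functions on `X × Z`. -/
noncomputable def UU {X : Type} (κ : Z → Z → ℕ) (f : X × Z → ℝ) (w : X × Z) : ℝ :=
  ∑ᶠ z', (κ w.2 z' : ℝ) * f (w.1, z')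

/-- The operator of `κ` as a linear map. -/
noncomputable def UL (X : Type) (κ : Z → Z → ℕ) (hκ : ∀ z, {z' | κ z z' ≠ 0}.Finite) :
    (X × Z → ℝ) →ₗ[ℝ] (X × Z → ℝ) where
  toFun := UU κ
  map_add' f g := by
    funext w
    have h : ∀ f : X × Z → ℝ, (Function.support fun z' => (κ w.2 z' : ℝ) * f (w.1, z')).Finite :=
      fun f => (hκ w.2).subset fun z' hz' h0 => hz' (by simp [h0])
    simp only [UU, Pi.add_apply, mul_add]
    exact finsum_add_distrib (h f) (h g)
  map_smul' c f := by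
    funext w
    simp only [UU, Pi.smul_apply, smul_eq_mul, RingHom.id_apply, mul_finsum]
    exact finsum_congr fun z' => by ring

end Hecke

open Classical in
/-- The trace of `S` on the invariant subspace `E`. -/
noncomputable def trOn {V : Type} [AddCommGroup V] [Module ℝ V] (E : Submodule ℝ V)
    (S : V →ₗ[ℝ] V) : ℝ :=
  if h : ∀ x ∈ E, S x ∈ E then LinearMap.trace ℝ E (S.restrict h) else 0

section Op

variable {Y : Type} [MeasurableSpace Y]

/-- Bounded measurable kernels. -/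
structure BK (K : Y → Y → ℝ) : Prop where
  meas : Measurable (Function.uncurry K)
  bdd : ∃ C : ℝ, ∀ y v, |K y v| ≤ C

/-- `T` is the integral operator with kernel `K`. -/
def IsOp (ν : Measure Y) (K : Y → Y → ℝ) (T : Lp ℝ 2 ν →L[ℝ] Lp ℝ 2 ν) : Prop :=
  ∀ φ : Lp ℝ 2 ν, (T φ : Y → ℝ) =ᵐ[ν] fun y => ∫ v, K y v * φ v ∂ν

/-- The functions `K y` form a totally bounded family, measurably in `y`. -/
def Equi (ν : Measure Y) (K : Y → Y → ℝ) : Prop :=
  ∀ ε : ℝ, 0 < ε → ∃ (r : ℕ) (C : Fin r → Set Y), (∀ i, MeasurableSet (C i)) ∧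
    (∀ᵐ y ∂ν, ∃ i, y ∈ C i) ∧ ∀ i, ∀ y ∈ C i, ∀ y' ∈ C i, ∀ v, |K y v - K y' v| ≤ ε

end Op

/-- `h` is the Selberg transform of the kernel `uu ^ (-s)`. -/
structure IsSel (n s : ℕ) (h : ℝ → ℝ) : Prop where
  anti : StrictAntiOn h (Set.Ici 0)
  pos : ∀ ev, 0 ≤ ev → 0 < h ev
  eq : ∀ (ev : ℝ) (f : Hyp n → ℝ), 0 ≤ ev → C2 f → (∃ C, ∀ x, |f x| ≤ C) →
    (∀ x, lap f x = -ev * f x) → ∀ x, TT s f x = h ev * f x

/-- `G` acts on hyperbolic space through `ρ` and on `Z`; the action on the product is free,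
proper and cocompact. -/
structure Nice (G : Type) [Group G] [MulAction G (Hyp n)] (Z : Type) [MulAction G Z]
    (ρ : G →* Oplus n) : Prop where
  act : ∀ (g : G) (x : Hyp n), g • x = ρ g • x
  free : ∀ (g : G) (x : Hyp n) (z : Z), g • x = x → g • z = z → g = 1
  proper : ∀ (z z' : Z) (R : ℝ), {g : G | g • z = z' ∧ uu (orig n) (g • orig n) ≤ R}.Finite
  cocpt : ∃ (R : ℝ) (s : Finset Z), ∀ (x : Hyp n) (z : Z), ∃ g : G,
    uu (orig n) (g • x) ≤ R ∧ g • z ∈ s

/-- The total eigenspace: invariant functions on `Hyp n × Z`, eigenfunctions in the first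
variable. -/
def EigX (G : Type) [Group G] [MulAction G (Hyp n)] (Z : Type) [MulAction G Z] (ev : ℝ) :
    Submodule ℝ (Hyp n × Z → ℝ) where
  carrier := {f | (∀ z, (fun x => f (x, z)) ∈ Eig (⊥ : Subgroup (Oplus n)) ev) ∧
    ∀ (g : G) w, f (g • w) = f w}
  zero_mem' := ⟨fun _ => Submodule.zero_mem _, fun _ _ => rfl⟩
  add_mem' := fun hf hg => ⟨fun z => Submodule.add_mem _ (hf.1 z) (hg.1 z),
    fun g w => by simp [hf.2 g w, hg.2 g w]⟩
  smul_mem' := fun c _ hf => ⟨fun z => Submodule.smul_mem _ c (hf.1 z),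
    fun g w => by simp [hf.2 g w]⟩

/-- A strict fundamental domain: every point has exactly one group element moving it into `D`. -/
def StrictFD (G : Type) {X : Type} [Group G] [MulAction G X] (D : Set X) : Prop :=
  ∀ w : X, ∃! g : G, g • w ∈ D

/-- A bounded measurable strict fundamental domain in `Hyp n × Z`. -/
structure GoodFD (G : Type) [Group G] [MulAction G (Hyp n)] {Z : Type} [MulAction G Z]
    [MeasurableSpace Z] (D : Set (Hyp n × Z)) : Prop where
  meas : MeasurableSet D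
  strict : StrictFD G D
  bdd : ∃ (R : ℝ) (s : Finset Z), ∀ w ∈ D, uu (orig n) w.1 ≤ R ∧ w.2 ∈ s

/-- The measure on `Hyp n × Z`. -/
noncomputable def xm (n : ℕ) (Z : Type) [MeasurableSpace Z] : Measure (Hyp n × Z) :=
  (hm n).prod Measure.count

/-- The periodisation of the product kernel `k ⊗ κ^m`. -/
noncomputable def per (G : Type) [Group G] [MulAction G (Hyp n)] {Z : Type} [MulAction G Z]
    (k : Hyp n → Hyp n → ℝ≥0∞) (κ : Z → Z → ℕ) (m : ℕ) (w v : Hyp n × Z) : ℝ≥0∞ :=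
  ∑' g : G, k w.1 (g • v.1) * kpow κ m w.2 (g • v.2)

/-- `γ` and `γ'` are matched: their centralisers are isomorphic, compatibly with an isometry of
hyperbolic space and an automorphism of `(Z, κ)`. -/
def Matched {G G' : Type} [Group G] [Group G'] [MulAction G (Hyp n)] [MulAction G' (Hyp n)]
    {Z : Type} [MulAction G Z] [MulAction G' Z] (κ : Z → Z → ℕ) (γ : G) (γ' : G') : Prop :=
  ∃ (τ : Subgroup.centralizer {γ} ≃* Subgroup.centralizer {γ'}) (g : Oplus n) (Ψ : Z ≃ Z),
    (∀ t : Subgroup.centralizer {γ}, (t : G) = γ → (τ t : G') = γ') ∧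
    (∀ (t : Subgroup.centralizer {γ}) (x : Hyp n), g • ((t : G) • x) = (τ t : G') • (g • x)) ∧
    (∀ (t : Subgroup.centralizer {γ}) (z : Z), Ψ ((t : G) • z) = (τ t : G') • Ψ z) ∧
    ∀ z z', κ (Ψ z) (Ψ z') = κ z z'

/-- The elements of `G` that contribute to the traces inject into the classes of `G'`. -/
def Transfer (n : ℕ) (G G' : Type) [Group G] [Group G'] [MulAction G (Hyp n)]
    [MulAction G' (Hyp n)] {Z : Type} [MulAction G Z] [MulAction G' Z] (κ : Z → Z → ℕ) : Prop :=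
  ∃ (Reg : G → Prop) (φ : G → G'),
    (∀ (m : ℕ) (γ : G) (z : Z), Chain κ (m + 1) z (γ • z) → Reg γ) ∧
    (∀ γ, Reg γ → Matched (n := n) κ γ (φ γ)) ∧
    ∀ γ₁ γ₂, Reg γ₁ → Reg γ₂ → IsConj (φ γ₁) (φ γ₂) → IsConj γ₁ γ₂

end Pool.Agent.P.MP_3c2f8c_gt
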