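import Pool.Agent.P.MP_3c2f8c_gt.An.Meas

/-! AN-9: admissible kernels, powers of the Hecke kernel, bounded periodisation. -/

namespace Pool.Agent.P.MP_3c2f8c_gt

open Matrix MeasureTheory
open scoped ENNReal

variable {n : ℕ}

variable {G Z : Type} [Group G] [MulAction G (Hyp n)] [MulAction G Z] {ρ : G →* Oplus n}

namespace AdmAux

theorem lintegral_smul (g : Oplus n) (f : Hyp n → ℝ≥0∞) :
    ∫⁻ y, f (g • y) ∂hm n = ∫⁻ y, f y ∂hm n := by
  have := hyp_continuousConstSMul (n := n)
  have := hm_invariant (n := n)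
  exact (measurePreserving_smul g (hm n)).lintegral_comp_emb (measurableEmbedding_const_smul g) f

theorem meas2 {α : Type} [MeasurableSpace α] {k : Hyp n → Hyp n → ℝ≥0∞}
    (hk : Measurable (Function.uncurry k)) {f g : α → Hyp n} (hf : Measurable f)
    (hg : Measurable g) : Measurable fun a => k (f a) (g a) := hk.comp (hf.prodMk hg)

theorem meas_ker1 (s : ℕ) : Measurable (Function.uncurry (ker1 (n := n) s)) :=
  ENNReal.measurable_ofReal.comp ((continuous_uu.measurable.inv).pow_const s)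

theorem meas_kc (s a : ℕ) : Measurable (Function.uncurry (kc (n := n) s a)) := by
  have := hm_sigmaFinite (n := n)
  induction a with
  | zero => exact meas_ker1 s
  | succ a ih =>
    have h1 : Measurable fun q : (Hyp n × Hyp n) × Hyp n => ker1 s q.1.1 q.2 :=
      meas2 (meas_ker1 s) measurable_fst.fst measurable_snd
    have h2 : Measurable fun q : (Hyp n × Hyp n) × Hyp n => kc s a q.2 q.1.2 :=
      meas2 ih measurable_snd measurable_fst.snd
    exact (h1.mul h2).lintegral_prod_right'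

theorem int_eq {k : Hyp n → Hyp n → ℝ≥0∞} (hk : Adm k) (x : Hyp n) :
    ∫⁻ y, k x y ∂hm n = ∫⁻ y, k (orig n) y ∂hm n := by
  obtain ⟨g, rfl⟩ := exists_smul_orig x
  rw [← lintegral_smul g]
  simp only [hk.inv]

theorem measure_ball (x : Hyp n) :
    hm n {t | uu x t < 2} = hm n {t | uu (orig n) t < 2} := by
  have := hyp_continuousConstSMul (n := n)
  have := hm_invariant (n := n)
  obtain ⟨g, rfl⟩ := exists_smul_orig x
  rw [← measure_preimage_smul (hm n) g]
  congr 1
  ext t
  simp [uu_smul]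

theorem isOpen_ball (x : Hyp n) : IsOpen {t | uu x t < 2} :=
  isOpen_lt (continuous_uu.comp (continuous_const.prodMk continuous_id)) continuous_const

theorem measure_ball_ne_zero : hm n {t | uu (orig n) t < 2} ≠ 0 := by
  have := hm_openPos (n := n)
  exact (isOpen_ball (orig n)).measure_ne_zero _ ⟨orig n, by simp [uu_self]⟩

end AdmAux

open AdmAux

theorem adm_ker1 {s : ℕ} (hs : n + 1 ≤ s) : Adm (ker1 (n := n) s) := by
  refine ⟨meas_ker1 s, fun g x y => by simp only [ker1, uu_smul],
    fun x y => by simp only [ker1, uu_comm x y], fun R => ?_, lintegral_ker1 hs⟩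
  refine ⟨ENNReal.ofReal ((2 * R) ^ s), ENNReal.ofReal_ne_top, fun x y y' h => ?_⟩
  have h1 := one_le_uu y y'
  have h2 := one_le_uu x y
  have h3 := one_le_uu x y'
  have h4 := uu_le_two_mul x y y'
  have hR : 0 ≤ 2 * R := by linarith
  unfold ker1
  rw [← ENNReal.ofReal_mul (pow_nonneg hR s), ← mul_pow]
  refine ENNReal.ofReal_le_ofReal (pow_le_pow_left₀ (by positivity) ?_ s)
  rw [← div_eq_mul_inv, inv_eq_one_div, div_le_div_iff₀ (by linarith) (by linarith)]
  nlinarith

theorem kc_succ' (s a : ℕ) (x y : Hyp n) :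
    ∫⁻ w, kc s a x w * ker1 s w y ∂hm n = kc s (a + 1) x y := by
  have := hm_sigmaFinite (n := n)
  induction a generalizing x with
  | zero => rfl
  | succ a ih =>
    have h1 : Measurable fun q : Hyp n × Hyp n => ker1 s x q.2 :=
      meas2 (meas_ker1 s) measurable_const measurable_snd
    have h2 : Measurable fun q : Hyp n × Hyp n => kc s a q.2 q.1 :=
      meas2 (meas_kc s a) measurable_snd measurable_fst
    have h3 : Measurable fun q : Hyp n × Hyp n => ker1 s q.1 y :=
      meas2 (meas_ker1 s) measurable_fst measurable_const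
    calc ∫⁻ w, kc s (a + 1) x w * ker1 s w y ∂hm n
        = ∫⁻ w, ∫⁻ v, ker1 s x v * kc s a v w * ker1 s w y ∂hm n ∂hm n := by
          refine lintegral_congr fun w => ?_
          rw [lintegral_mul_const' (ker1 s w y) _ ENNReal.ofReal_ne_top]
          rfl
      _ = ∫⁻ v, ∫⁻ w, ker1 s x v * kc s a v w * ker1 s w y ∂hm n ∂hm n :=
          lintegral_lintegral_swap ((h1.mul h2).mul h3).aemeasurable
      _ = ∫⁻ v, ker1 s x v * kc s (a + 1) v y ∂hm n := by
          refine lintegral_congr fun v => ?_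
          rw [← ih v, ← lintegral_const_mul' (ker1 s x v) _ ENNReal.ofReal_ne_top]
          simp only [mul_assoc]
      _ = kc s (a + 1 + 1) x y := rfl

theorem adm_kc {s : ℕ} (hs : n + 1 ≤ s) (a : ℕ) : Adm (kc (n := n) s a) := by
  have := hm_sigmaFinite (n := n)
  have h0 := adm_ker1 hs
  induction a with
  | zero => exact h0
  | succ a ih =>
    have e : ∀ x y : Hyp n, kc s (a + 1) x y = ∫⁻ w, ker1 s x w * kc s a w y ∂hm n :=
      fun _ _ => rfl
    refine ⟨meas_kc s (a + 1), fun g x y => ?_, fun x y => ?_, fun R => ?_, fun x => ?_⟩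
    · rw [e, e, ← lintegral_smul g]
      simp only [h0.inv, ih.inv]
    · rw [← kc_succ' s a y x, e]
      exact lintegral_congr fun w => by rw [h0.symm x w, ih.symm w y, mul_comm]
    · obtain ⟨C, hC, h⟩ := ih.harnack R
      refine ⟨C, hC, fun x y y' hy => ?_⟩
      rw [e, e, ← lintegral_const_mul' _ _ hC]
      refine lintegral_mono fun w => ?_
      calc ker1 s x w * kc s a w y ≤ ker1 s x w * (C * kc s a w y') := by
            gcongr
            exact h w y y' hy
        _ = C * (ker1 s x w * kc s a w y') := by ring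
    · have h1 : Measurable fun q : Hyp n × Hyp n => ker1 s x q.2 :=
        meas2 (meas_ker1 s) measurable_const measurable_snd
      have h2 : Measurable fun q : Hyp n × Hyp n => kc s a q.2 q.1 :=
        meas2 (meas_kc s a) measurable_snd measurable_fst
      have h3 : ∫⁻ y, kc s (a + 1) x y ∂hm n =
          (∫⁻ w, ker1 s x w ∂hm n) * ∫⁻ y, kc s a (orig n) y ∂hm n := by
        calc ∫⁻ y, kc s (a + 1) x y ∂hm n
            = ∫⁻ w, ∫⁻ y, ker1 s x w * kc s a w y ∂hm n ∂hm n :=
              lintegral_lintegral_swap (h1.mul h2).aemeasurable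
          _ = ∫⁻ w, ker1 s x w * ∫⁻ y, kc s a (orig n) y ∂hm n ∂hm n := by
              refine lintegral_congr fun w => ?_
              rw [← int_eq ih w]
              exact lintegral_const_mul' _ _ ENNReal.ofReal_ne_top
          _ = _ := lintegral_mul_const' _ _ (ih.int _)
      rw [h3]
      exact ENNReal.mul_ne_top (h0.int x) (ih.int _)

theorem AdmAux.kpow_equiv' {κ : Z → Z → ℕ} (Ψ : Z ≃ Z) (h : ∀ z z', κ (Ψ z) (Ψ z') = κ z z')
    (m : ℕ) (z z' : Z) : kpow κ m (Ψ z) (Ψ z') = kpow κ m z z' := by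
  induction m generalizing z with
  | zero => by_cases hz : z = z' <;> simp [kpow, hz]
  | succ m ih =>
    simp only [kpow]
    rw [← Ψ.tsum_eq]
    simp only [h, ih]

theorem kpow_smul {κ : Z → Z → ℕ} (hinv : ∀ (g : G) z z', κ (g • z) (g • z') = κ z z') (m : ℕ)
    (g : G) (z z' : Z) : kpow κ m (g • z) (g • z') = kpow κ m z z' :=
  kpow_equiv' (MulAction.toPerm g) (hinv g) m z z'

theorem kpow_add (κ : Z → Z → ℕ) (m m' : ℕ) (z z' : Z) :
    kpow κ (m + m') z z' = ∑' y, kpow κ m z y * kpow κ m' y z' := by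
  induction m generalizing z with
  | zero =>
    rw [zero_add, tsum_eq_single z fun y hy => by simp [kpow, hy.symm]]
    simp [kpow]
  | succ m ih =>
    rw [show m + 1 + m' = m + m' + 1 by omega]
    simp only [kpow, ih, ← ENNReal.tsum_mul_left, ← ENNReal.tsum_mul_right, mul_assoc]
    exact ENNReal.tsum_comm

theorem chain_of_kpow {κ : Z → Z → ℕ} {m : ℕ} {z z' : Z} (h : kpow κ m z z' ≠ 0) :
    Chain κ m z z' := by
  induction m generalizing z with
  | zero =>
    by_contra hc
    exact h (by simp only [kpow]; exact if_neg hc)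
  | succ m ih =>
    simp only [kpow, ne_eq, ENNReal.tsum_eq_zero, not_forall, mul_eq_zero, not_or] at h
    obtain ⟨y, h1, h2⟩ := h
    exact ⟨y, fun h0 => h1 (by simp [h0]), ih h2⟩

theorem kpow_equiv {κ : Z → Z → ℕ} (Ψ : Z ≃ Z) (h : ∀ z z', κ (Ψ z) (Ψ z') = κ z z') (m : ℕ)
    (z z' : Z) : kpow κ m (Ψ z) (Ψ z') = kpow κ m z z' := kpow_equiv' Ψ h m z z'

namespace AdmAux

theorem uu_act (N : Nice G Z ρ) (g : G) (x y : Hyp n) : uu (g • x) (g • y) = uu x y := by
  rw [N.act, N.act, uu_smul]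

theorem row_le (N : Nice G Z ρ) {κ : Z → Z → ℕ} (hfin : ∀ z, {z' | κ z z' ≠ 0}.Finite)
    (hinv : ∀ (g : G) z z', κ (g • z) (g • z') = κ z z') (m : ℕ) :
    ∃ A : ℝ≥0∞, A ≠ ∞ ∧ ∀ z, ∑' z', kpow κ m z z' ≤ A := by
  obtain ⟨R, s, hs⟩ := N.cocpt
  have h1 : ∀ z, ∑' z', (κ z z' : ℝ≥0∞) ≠ ∞ := fun z => by
    rw [tsum_eq_sum (s := (hfin z).toFinset) fun z' hz' => by simpa using hz']
    exact ENNReal.sum_ne_top.2 fun _ _ => ENNReal.natCast_ne_top _
  have h2 : ∀ z, ∑' z', (κ z z' : ℝ≥0∞) ≤ ∑ z ∈ s, ∑' z', (κ z z' : ℝ≥0∞) := fun z => by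
    obtain ⟨g, _, hg⟩ := hs (orig n) z
    refine le_trans (le_of_eq ?_)
      (Finset.single_le_sum (f := fun z => ∑' z', (κ z z' : ℝ≥0∞)) (fun _ _ => zero_le) hg)
    rw [← (MulAction.toPerm g).tsum_eq fun z' => (κ (g • z) z' : ℝ≥0∞)]
    simp only [MulAction.toPerm_apply, hinv]
  have h3 : ∑ z ∈ s, ∑' z', (κ z z' : ℝ≥0∞) ≠ ∞ := ENNReal.sum_ne_top.2 fun z _ => h1 z
  induction m with
  | zero =>
    refine ⟨1, ENNReal.one_ne_top, fun z => ?_⟩
    rw [tsum_eq_single z fun y hy => by simp [kpow, hy.symm]]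
    simp [kpow]
  | succ m ih =>
    obtain ⟨A, hA, h⟩ := ih
    refine ⟨_, ENNReal.mul_ne_top h3 hA, fun z => ?_⟩
    simp only [kpow]
    rw [ENNReal.tsum_comm]
    simp only [ENNReal.tsum_mul_left]
    calc ∑' y, (κ z y : ℝ≥0∞) * ∑' z', kpow κ m y z' ≤ ∑' y, (κ z y : ℝ≥0∞) * A :=
          ENNReal.tsum_le_tsum fun y => by
            gcongr
            exact h y
      _ = (∑' y, (κ z y : ℝ≥0∞)) * A := ENNReal.tsum_mul_right
      _ ≤ _ := by
          gcongr
          exact h2 z

open Classical in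
theorem count_le (N : Nice G Z ρ) (z' z'' : Z) (t : Hyp n) :
    ∑' g : G, (if g • z' = z'' ∧ uu (g • orig n) t < 2 then (1 : ℝ≥0∞) else 0) ≤
      (N.proper z' z' 8).toFinset.card := by
  by_cases hex : ∃ g₁ : G, g₁ • z' = z'' ∧ uu (g₁ • orig n) t < 2
  · obtain ⟨g₁, h1, h2⟩ := hex
    rw [← (Equiv.mulLeft g₁).tsum_eq]
    calc ∑' h : G, (if (Equiv.mulLeft g₁ h) • z' = z'' ∧ uu ((Equiv.mulLeft g₁ h) • orig n) t < 2
            then (1 : ℝ≥0∞) else 0)
        ≤ ∑' h : G, (if h ∈ (N.proper z' z' 8).toFinset then (1 : ℝ≥0∞) else 0) := by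
          refine ENNReal.tsum_le_tsum fun h => ?_
          split_ifs with h3 h4
          · exact le_rfl
          · exfalso
            apply h4
            simp only [Equiv.coe_mulLeft, mul_smul] at h3
            simp only [Set.Finite.mem_toFinset, Set.mem_ofPred_eq]
            refine ⟨MulAction.injective g₁ (h3.1.trans h1.symm), ?_⟩
            rw [← uu_act N g₁]
            have h5 := uu_le_two_mul (g₁ • orig n) t (g₁ • h • orig n)
            rw [uu_comm t] at h5
            have h6 := one_le_uu (g₁ • orig n) t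
            have h7 := one_le_uu (g₁ • h • orig n) t
            nlinarith [h3.2]
          · exact zero_le
          · exact le_rfl
      _ = _ := by
          rw [tsum_eq_sum (s := (N.proper z' z' 8).toFinset) fun h hh => if_neg hh,
            Finset.sum_congr rfl fun h hh => if_pos hh]
          simp
  · rw [ENNReal.tsum_eq_zero.2 fun g => if_neg fun h => hex ⟨g, h⟩]
    exact zero_le

open Classical in
theorem fiber_le [Countable G] (N : Nice G Z ρ) {k : Hyp n → Hyp n → ℝ≥0∞} (hk : Adm k) (R : ℝ)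
    (z' : Z) : ∃ C : ℝ≥0∞, C ≠ ∞ ∧ ∀ (x y : Hyp n) (z'' : Z), uu (orig n) y ≤ R →
      ∑' g : G, (if g • z' = z'' then k x (g • y) else 0) ≤ C := by
  obtain ⟨C, hC, h⟩ := hk.harnack (4 * R)
  have hb : C * (((N.proper z' z' 8).toFinset.card : ℝ≥0∞) * ∫⁻ t, k (orig n) t ∂hm n) ≠ ∞ :=
    ENNReal.mul_ne_top hC (ENNReal.mul_ne_top (ENNReal.natCast_ne_top _) (hk.int _))
  refine ⟨_, ENNReal.div_ne_top hb (measure_ball_ne_zero (n := n)), fun x y z'' hy => ?_⟩
  rw [ENNReal.le_div_iff_mul_le (Or.inl measure_ball_ne_zero) (Or.inr hb),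
    ← ENNReal.tsum_mul_right]
  have hkx : Measurable (k x) := meas2 hk.meas measurable_const measurable_id
  have hm1 : ∀ g : G, Measurable fun t : Hyp n =>
      (if g • z' = z'' ∧ uu (g • orig n) t < 2 then (1 : ℝ≥0∞) else 0) * k x t := fun g => by
    refine Measurable.mul (Measurable.ite ?_ measurable_const measurable_const) hkx
    exact (MeasurableSet.const _).inter (isOpen_ball (g • orig n)).measurableSet
  calc ∑' g : G, (if g • z' = z'' then k x (g • y) else 0) * hm n {t | uu (orig n) t < 2}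
      ≤ ∑' g : G, C * ∫⁻ t, (if g • z' = z'' ∧ uu (g • orig n) t < 2 then (1 : ℝ≥0∞) else 0) *
          k x t ∂hm n := by
        refine ENNReal.tsum_le_tsum fun g => ?_
        split_ifs with hg
        · rw [← measure_ball (g • orig n), ← lintegral_const_mul' _ _ hC,
            ← setLIntegral_const, ← lintegral_indicator (isOpen_ball _).measurableSet]
          refine lintegral_mono fun t => ?_
          by_cases ht : uu (g • orig n) t < 2
          · rw [Set.indicator_of_mem (by exact ht), if_pos ⟨hg, ht⟩, one_mul]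
            refine h x _ _ ?_
            have h5 := uu_le_two_mul (g • y) (g • orig n) t
            rw [uu_act N, uu_comm y] at h5
            have h6 := one_le_uu (orig n) y
            have h7 := one_le_uu (g • orig n) t
            nlinarith
          · rw [Set.indicator_of_notMem (by exact ht)]
            exact zero_le
        · rw [zero_mul]
          exact zero_le
    _ = C * ∫⁻ t, (∑' g : G,
          (if g • z' = z'' ∧ uu (g • orig n) t < 2 then (1 : ℝ≥0∞) else 0)) * k x t ∂hm n := by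
        rw [ENNReal.tsum_mul_left, ← lintegral_tsum fun g => (hm1 g).aemeasurable]
        simp only [ENNReal.tsum_mul_right]
    _ ≤ C * ∫⁻ t, ((N.proper z' z' 8).toFinset.card : ℝ≥0∞) * k x t ∂hm n := by
        gcongr with t
        exact count_le N z' z'' t
    _ = _ := by rw [lintegral_const_mul' _ _ (ENNReal.natCast_ne_top _), int_eq hk x]

end AdmAux

theorem per_le [Countable G] (N : Nice G Z ρ) {k : Hyp n → Hyp n → ℝ≥0∞} (hk : Adm k) {κ : Z → Z → ℕ}
    (hfin : ∀ z, {z' | κ z z' ≠ 0}.Finite)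
    (hinv : ∀ (g : G) z z', κ (g • z) (g • z') = κ z z') (m : ℕ) :
    ∃ C : ℝ≥0∞, C ≠ ∞ ∧ ∀ w v, per G k κ m w v ≤ C := by
  classical
  obtain ⟨A, hA, hrow⟩ := row_le N hfin hinv m
  obtain ⟨R, s, hs⟩ := N.cocpt
  choose C hC hfib using fiber_le N hk R
  refine ⟨A * ∑ z ∈ s, C z, ENNReal.mul_ne_top hA (ENNReal.sum_ne_top.2 fun z _ => hC z), ?_⟩
  rintro ⟨x, z⟩ ⟨y, z'⟩
  obtain ⟨g₀, h1, h2⟩ := hs y z'
  unfold per
  rw [← (Equiv.mulRight g₀).tsum_eq]
  simp only [Equiv.coe_mulRight, mul_smul]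
  calc ∑' g : G, k x (g • g₀ • y) * kpow κ m z (g • g₀ • z')
      = ∑' g : G, ∑' z'', kpow κ m z z'' * (if g • g₀ • z' = z'' then k x (g • g₀ • y) else 0) := by
        refine tsum_congr fun g => ?_
        rw [tsum_eq_single (g • g₀ • z') fun y hy => by rw [if_neg (Ne.symm hy), mul_zero],
          if_pos rfl, mul_comm]
    _ = ∑' z'', kpow κ m z z'' *
          ∑' g : G, (if g • g₀ • z' = z'' then k x (g • g₀ • y) else 0) := by
        rw [ENNReal.tsum_comm]
        simp only [ENNReal.tsum_mul_left]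
    _ ≤ ∑' z'', kpow κ m z z'' * ∑ z ∈ s, C z := by
        refine ENNReal.tsum_le_tsum fun z'' => ?_
        gcongr
        exact (hfib (g₀ • z') x (g₀ • y) z'' h1).trans
          (Finset.single_le_sum (f := C) (fun _ _ => zero_le) h2)
    _ ≤ _ := by
        rw [ENNReal.tsum_mul_right]
        gcongr
        exact hrow z

end Pool.Agent.P.MP_3c2f8c_gt
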