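import Pool.Agent.P.MP_3c2f8c_gt.An.Geom

/-! AN-19: cocompact groups have scalar centraliser. -/

namespace Pool.Agent.P.MP_3c2f8c_gt

open Matrix MeasureTheory
open scoped ENNReal

variable {n : ℕ}

namespace CentrAux

theorem form_zero (Γ : Subgroup (Oplus n))
    (hc : ∃ R : ℝ, ∀ x : Hyp n, ∃ g ∈ Γ, uu (orig n) (g • x) ≤ R)
    (Y Z : Matrix (Fin (n + 1)) (Fin (n + 1)) ℝ) (hY : ∀ g ∈ Γ, Y * g.1.1 = g.1.1 * Y)
    (hZ : ∀ g ∈ Γ, Z * g.1.1 = g.1.1 * Z) {ξ : Fin (n + 1) → ℝ} (h0 : ξ 0 = 1)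
    (hξ : lor ξ ξ = 0) : lor (Y *ᵥ ξ) (Z *ᵥ ξ) = 0 := by
  obtain ⟨R, hR⟩ := hc
  have hf : Continuous fun v : Fin (n + 1) → ℝ => lor (Y *ᵥ v) (Z *ᵥ v) := by
    unfold lor
    fun_prop
  obtain ⟨C, hC⟩ := (isCompact_ball (orig n) R).exists_bound_of_continuousOn
    (hf.comp continuous_subtype_val).continuousOn
  have hall : ∀ x : Hyp n, ‖lor (Y *ᵥ x.1) (Z *ᵥ x.1)‖ ≤ C := by
    intro x
    obtain ⟨g, hg, hx⟩ := hR x
    have h1 := hC (g • x) hx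
    rwa [Function.comp_apply, smul_coe, mulVec_mulVec, mulVec_mulVec, hY g hg, hZ g hg,
      ← mulVec_mulVec, ← mulVec_mulVec, g.2.1] at h1
  let v : ℝ → Fin (n + 1) → ℝ := fun s => ξ + s • Pi.single 0 1
  have hv : ∀ s, lor (v s) (v s) = -(2 * s + s ^ 2) := by
    intro s
    simp only [lor, v, Pi.add_apply, Pi.smul_apply, Pi.single_eq_same,
      Pi.single_eq_of_ne (Fin.succ_ne_zero _), smul_eq_mul, mul_zero, add_zero, h0] at hξ ⊢
    linear_combination hξ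
  have hb : ∀ s : ℝ, 0 < s → ‖lor (Y *ᵥ v s) (Z *ᵥ v s)‖ ≤ (2 * s + s ^ 2) * C := by
    intro s hs
    have hρ : 0 < 2 * s + s ^ 2 := by positivity
    have hm : v s ∈ cone n := by
      refine ⟨by rw [hv]; linarith, ?_⟩
      simp only [v, Pi.add_apply, Pi.smul_apply, Pi.single_eq_same, smul_eq_mul, h0]
      linarith
    have h1 := hall (proj (v s) hm)
    change ‖lor (Y *ᵥ ((√(-lor (v s) (v s)))⁻¹ • v s)) (Z *ᵥ ((√(-lor (v s) (v s)))⁻¹ • v s))‖ ≤ C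
      at h1
    rwa [mulVec_smul, mulVec_smul, lor_smul_smul, hv, neg_neg, inv_pow, Real.sq_sqrt hρ.le,
      norm_mul, Real.norm_of_nonneg (inv_nonneg.2 hρ.le), inv_mul_le_iff₀ hρ] at h1
  have hvc : Continuous v := by fun_prop
  have h1 : Filter.Tendsto (fun s => ‖lor (Y *ᵥ v s) (Z *ᵥ v s)‖) (nhdsWithin 0 (Set.Ioi 0))
      (nhds ‖lor (Y *ᵥ ξ) (Z *ᵥ ξ)‖) := by
    have := ((hf.comp hvc).norm.tendsto 0).mono_left (nhdsWithin_le_nhds (s := Set.Ioi 0))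
    simpa [v] using this
  have h2 : Filter.Tendsto (fun s : ℝ => (2 * s + s ^ 2) * C) (nhdsWithin 0 (Set.Ioi 0))
      (nhds 0) := by
    have h3 : Continuous fun s : ℝ => (2 * s + s ^ 2) * C := by fun_prop
    simpa using (h3.tendsto 0).mono_left (nhdsWithin_le_nhds (s := Set.Ioi 0))
  exact norm_le_zero_iff.1 (le_of_tendsto_of_tendsto h1 h2
    (Filter.eventually_of_mem self_mem_nhdsWithin hb))

theorem eq_smul_of_iso {ξ η : Fin (n + 1) → ℝ} (h0 : ξ 0 = 1) (hξ : lor ξ ξ = 0)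
    (hη : lor η η = 0) (h : lor η ξ = 0) (k : Fin (n + 1)) : η k = η 0 * ξ k := by
  refine Fin.cases (by rw [h0, mul_one]) (fun j => ?_) k
  have h1 : ∑ i : Fin n, (η i.succ - η 0 * ξ i.succ) ^ 2 = 0 := by
    have h2 : ∑ i : Fin n, (η i.succ - η 0 * ξ i.succ) ^ 2 = ∑ i : Fin n, η i.succ * η i.succ -
        2 * η 0 * ∑ i : Fin n, η i.succ * ξ i.succ + η 0 ^ 2 * ∑ i : Fin n, ξ i.succ * ξ i.succ := by
      simp only [Finset.mul_sum, ← Finset.sum_sub_distrib, ← Finset.sum_add_distrib]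
      exact Finset.sum_congr rfl fun i _ => by ring
    simp only [lor, h0] at hξ hη h
    rw [h2]
    linear_combination hη - 2 * η 0 * h + η 0 ^ 2 * hξ
  have h3 := (Finset.sum_eq_zero_iff_of_nonneg fun i _ => sq_nonneg _).1 h1 j (Finset.mem_univ j)
  exact sub_eq_zero.1 (pow_eq_zero_iff two_ne_zero |>.1 h3)

end CentrAux

open CentrAux

theorem scalar_of_comm (hn : 2 ≤ n) (Γ : Subgroup (Oplus n))
    (hc : ∃ R : ℝ, ∀ x : Hyp n, ∃ g ∈ Γ, uu (orig n) (g • x) ≤ R)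
    (X : Matrix (Fin (n + 1)) (Fin (n + 1)) ℝ) (hX : ∀ g ∈ Γ, X * g.1.1 = g.1.1 * X) :
    ∃ t : ℝ, X = t • (1 : Matrix (Fin (n + 1)) (Fin (n + 1)) ℝ) := by
  have key : ∀ (i : Fin n) (c : ℝ), c * c = 1 → ∀ k, X k 0 + c * X k i.succ =
      (X 0 0 + c * X 0 i.succ) * ((if k = 0 then 1 else 0) + c * if k = i.succ then 1 else 0) := by
    intro i c hcc k
    let ξ : Fin (n + 1) → ℝ := Pi.single 0 1 + c • Pi.single i.succ 1
    have h0 : ξ 0 = 1 := by simp [ξ]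
    have hξ : lor ξ ξ = 0 := by
      rw [lor, h0, Finset.sum_eq_single i (fun j _ hj => by simp [ξ, hj])
        (fun h => absurd (Finset.mem_univ i) h)]
      simp [ξ, hcc]
    have h1 := form_zero Γ hc X X hX hX h0 hξ
    have h2 := form_zero Γ hc X 1 hX (fun g _ => by rw [Matrix.one_mul, Matrix.mul_one]) h0 hξ
    rw [one_mulVec] at h2
    have h3 := eq_smul_of_iso h0 hξ h1 h2 k
    simpa [ξ, mulVec_add, mulVec_smul, Pi.single_apply] using h3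
  have hcol : ∀ i : Fin n, X i.succ 0 = 0 := by
    intro i
    have : Nontrivial (Fin n) := Fin.nontrivial_iff_two_le.2 hn
    obtain ⟨j, hj⟩ := exists_ne i
    have h1 := key j 1 (by norm_num) i.succ
    have h2 := key j (-1) (by norm_num) i.succ
    simp only [Fin.succ_ne_zero, Fin.succ_inj, hj.symm, if_false] at h1 h2
    linear_combination (h1 + h2) / 2
  have hrow : ∀ i : Fin n, X 0 i.succ = 0 := by
    intro i
    have h1 := key i 1 (by norm_num) i.succ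
    have h2 := key i (-1) (by norm_num) i.succ
    simp only [Fin.succ_ne_zero, if_false, if_true, hcol] at h1 h2
    linear_combination -(h1 + h2) / 2
  refine ⟨X 0 0, ?_⟩
  ext k l
  refine Fin.cases ?_ (fun i => ?_) l
  · refine Fin.cases ?_ (fun j => ?_) k
    · simp
    · simp [hcol]
  · refine Fin.cases ?_ (fun j => ?_) k
    · simp [hrow, (Fin.succ_ne_zero i).symm]
    · have h1 := key i 1 (by norm_num) j.succ
      simp only [Fin.succ_ne_zero, if_false, hcol, hrow] at h1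
      rw [Matrix.smul_apply, one_apply, smul_eq_mul]
      linear_combination h1

theorem cocompact_of_relIndex {Γ Γ' : Subgroup (Oplus n)} (h : Γ'.relIndex Γ ≠ 0)
    (hc : ∃ R : ℝ, ∀ x : Hyp n, ∃ g ∈ Γ, uu (orig n) (g • x) ≤ R) :
    ∃ R : ℝ, ∀ x : Hyp n, ∃ g ∈ Γ' ⊓ Γ, uu (orig n) (g • x) ≤ R := by
  obtain ⟨R, hR⟩ := hc
  have : Finite (Γ ⧸ Γ'.subgroupOf Γ) := Nat.finite_of_card_ne_zero h
  obtain ⟨M, hM⟩ := (Set.finite_range fun q : Γ ⧸ Γ'.subgroupOf Γ =>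
    uu (orig n) ((q.out : Oplus n)⁻¹ • orig n)).bddAbove
  refine ⟨2 * M * R, fun x => ?_⟩
  obtain ⟨g, hg, hx⟩ := hR x
  obtain ⟨k, hk⟩ := QuotientGroup.mk_out_eq_mul (Γ'.subgroupOf Γ) ⟨g, hg⟩
  set t : Oplus n := ((QuotientGroup.mk ⟨g, hg⟩ : Γ ⧸ Γ'.subgroupOf Γ).out : Oplus n) with ht
  have h1 : uu (orig n) (t⁻¹ • orig n) ≤ M := hM ⟨_, rfl⟩
  have h2 : t⁻¹ * g = ((k : Γ) : Oplus n)⁻¹ := by
    rw [ht, hk]
    simp
  refine ⟨t⁻¹ * g, ?_, ?_⟩
  · rw [h2]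
    exact inv_mem ⟨k.2, (k : Γ).2⟩
  · rw [mul_smul]
    refine (uu_le_two_mul _ (t⁻¹ • orig n) _).trans ?_
    rw [uu_smul]
    have h3 := one_le_uu (orig n) (t⁻¹ • orig n)
    have h4 := one_le_uu (orig n) (g • x)
    exact mul_le_mul (by linarith) hx (by linarith) (by linarith)

theorem infinite_of_cocompact (hn : 1 ≤ n) {G : Type} [Group G] (ρ : G →* Oplus n)
    (Γ : Subgroup G) (hc : ∃ R : ℝ, ∀ x : Hyp n, ∃ g ∈ Γ, uu (orig n) (ρ g • x) ≤ R) :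
    Infinite Γ := by
  by_contra hfin
  rw [not_infinite_iff_finite] at hfin
  obtain ⟨R, hR⟩ := hc
  obtain ⟨M, hM⟩ := (Set.finite_range fun g : Γ => uu (ρ g • orig n) (orig n)).bddAbove
  obtain ⟨x, hx⟩ := exists_uu_gt hn (2 * M * R)
  obtain ⟨g, hg, hgx⟩ := hR x
  have h1 : uu (ρ g • orig n) (orig n) ≤ M := hM ⟨⟨g, hg⟩, rfl⟩
  have h2 := uu_le_two_mul (ρ g • orig n) (orig n) (ρ g • x)
  rw [uu_smul] at h2
  have h3 := one_le_uu (ρ g • orig n) (orig n)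
  have h4 := one_le_uu (orig n) (ρ g • x)
  exact absurd (h2.trans (mul_le_mul (by linarith) hgx (by linarith) (by linarith))) hx.not_ge

end Pool.Agent.P.MP_3c2f8c_gt
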