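import Pool.Agent.P.MP_3c2f8c_gt.An.Meas

/-! AN-10: fundamental domains. -/

namespace Pool.Agent.P.MP_3c2f8c_gt

open Matrix MeasureTheory
open scoped ENNReal

variable {n : ℕ}

namespace FDAux

theorem count_equiv {Z : Type} [MeasurableSpace Z] [DiscreteMeasurableSpace Z] (Ψ : Z ≃ Z) :
    MeasurePreserving Ψ (Measure.count : Measure Z) Measure.count := by
  refine ⟨Measurable.of_discrete, Measure.ext fun s hs => ?_⟩
  rw [Measure.map_apply Measurable.of_discrete hs,
    ← Measure.count_injective_image Ψ.injective (Ψ ⁻¹' s), Ψ.image_preimage]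

theorem smul_preserving (g : Oplus n) :
    MeasurePreserving (fun x : Hyp n => g • x) (hm n) (hm n) := by
  have := hyp_continuousConstSMul (n := n)
  have := hm_invariant (n := n)
  exact measurePreserving_smul g (hm n)

/-- A strict fundamental domain out of countably many wandering sets that meet every orbit. -/
theorem exists_strict {G X ι : Type} [Group G] [Countable G] [MeasurableSpace X] [MulAction G X]
    [MeasurableConstSMul G X] [Countable ι] (U : ι → Set X) (hm : ∀ i, MeasurableSet (U i))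
    (hw : ∀ i (g : G), ∀ w ∈ U i, g • w ∈ U i → g = 1) (hc : ∀ w, ∃ (i : ι) (g : G), g • w ∈ U i) :
    ∃ D : Set X, MeasurableSet D ∧ StrictFD G D ∧ ∀ w ∈ D, ∃ i, w ∈ U i := by
  obtain ⟨e, he⟩ := exists_injective_nat ι
  refine ⟨⋃ i, (U i ∩ ⋂ j, ⋂ (_ : e j < e i), ⋂ g : G, ((fun w => g • w) ⁻¹' U j)ᶜ), ?_, ?_, ?_⟩
  · refine MeasurableSet.iUnion fun i => (hm i).inter ?_
    exact MeasurableSet.iInter fun j => MeasurableSet.iInter fun _ =>
      MeasurableSet.iInter fun g => (measurable_const_smul g (hm j)).compl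
  · intro w
    simp only [Set.mem_iUnion, Set.mem_inter_iff, Set.mem_iInter, Set.mem_compl_iff,
      Set.mem_preimage]
    obtain ⟨i, ⟨g, hg⟩, hmin⟩ := (measure e).wf.has_min {i | ∃ g : G, g • w ∈ U i} (hc w)
    refine ⟨g, ⟨i, hg, fun j hj g' hg' => hmin j ⟨g' * g, by rwa [mul_smul]⟩ hj⟩, ?_⟩
    rintro g' ⟨i', hi', hmin'⟩
    have h1 : ¬ e i' < e i := hmin i' ⟨g', hi'⟩
    have h2 : ¬ e i < e i' := fun h => hmin' i h (g * g'⁻¹) (by
      rwa [← mul_smul, inv_mul_cancel_right])
    obtain rfl : i' = i := he (by omega)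
    have := hw i' (g' * g⁻¹) _ hg (by rwa [← mul_smul, inv_mul_cancel_right])
    exact mul_inv_eq_one.1 this
  · intro w hw
    obtain ⟨i, hi⟩ := Set.mem_iUnion.1 hw
    exact ⟨i, hi.1⟩

end FDAux

variable {G Z : Type} [Group G] [MulAction G (Hyp n)] [MulAction G Z] {ρ : G →* Oplus n}

theorem Nice.countable [Countable G] (N : Nice G Z ρ) : Countable Z := by
  obtain ⟨R, s, h⟩ := N.cocpt
  have hs : Function.Surjective fun p : G × s => p.1 • (p.2 : Z) := by
    intro z
    obtain ⟨g, -, hg⟩ := h (orig n) z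
    exact ⟨(g⁻¹, ⟨g • z, hg⟩), inv_smul_smul g z⟩
  exact hs.countable

theorem FDAux.nice_cont (N : Nice G Z ρ) (g : G) : Continuous fun x : Hyp n => g • x := by
  have := hyp_continuousConstSMul (n := n)
  simp only [N.act]
  exact continuous_const_smul (ρ g)

/-- Small neighbourhoods are wandering. -/
theorem FDAux.exists_wandering (N : Nice G Z ρ) (R : ℝ) (z : Z) (x : Hyp n) :
    ∃ V : Set (Hyp n), IsOpen V ∧ x ∈ V ∧ ∀ g : G, ∀ y ∈ V, uu (orig n) y ≤ R → g • y ∈ V →
      uu (orig n) (g • y) ≤ R → g • z = z → g = 1 := by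
  have hfin := (N.proper z z (2 * R * R)).subset
    (Set.sdiff_subset (t := ({1} : Set G)))
  have hloc : ∀ g : G, ∃ V ∈ nhds x, g • z = z → g ≠ 1 → ∀ y ∈ V, g • y ∉ V := by
    intro g
    by_cases h : g • x = x
    · exact ⟨Set.univ, Filter.univ_mem, fun h1 h2 => absurd (N.free g x z h h1) h2⟩
    · obtain ⟨u, v, hu, hv, huv⟩ := t2_separation_nhds h
      refine ⟨v ∩ (fun y => g • y) ⁻¹' u,
        Filter.inter_mem hv ((FDAux.nice_cont N g).continuousAt.preimage_mem_nhds hu), ?_⟩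
      intro _ _ y hy hgy
      exact Set.disjoint_left.1 huv hy.2 hgy.1
  choose V hV hV' using hloc
  have hmem := (Filter.biInter_mem hfin).2 fun g _ => hV g
  refine ⟨_, isOpen_interior, mem_interior_iff_mem_nhds.2 hmem, ?_⟩
  intro g y hy h1 hgy h2 hz
  by_contra hg
  have hR : uu (orig n) (g • orig n) ≤ 2 * R * R := by
    have a1 := uu_le_two_mul (orig n) (g • y) (g • orig n)
    have a2 : uu (g • y) (g • orig n) = uu (orig n) y := by
      rw [N.act, N.act, uu_smul, uu_comm]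
    rw [a2] at a1
    have a3 := one_le_uu (orig n) y
    have a4 := one_le_uu (orig n) (g • y)
    refine a1.trans ?_
    exact mul_le_mul (by linarith) h1 (by linarith) (by linarith)
  have b1 := Set.mem_iInter₂.1 (interior_subset hy) g ⟨⟨hz, hR⟩, hg⟩
  have b2 := Set.mem_iInter₂.1 (interior_subset hgy) g ⟨⟨hz, hR⟩, hg⟩
  exact hV' g hz hg y b1 b2

variable [Countable G] [Countable Z] [MeasurableSpace Z] [DiscreteMeasurableSpace Z]

theorem Nice.measurableConstSMul (N : Nice G Z ρ) : MeasurableConstSMul G (Hyp n × Z) :=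
  ⟨fun g => ((FDAux.nice_cont N g).measurable.comp measurable_fst).prodMk
    ((Measurable.of_discrete (f := fun z : Z => g • z)).comp measurable_snd)⟩

theorem Nice.invariant (N : Nice G Z ρ) : SMulInvariantMeasure G (Hyp n × Z) (xm n Z) := by
  refine ⟨fun g s hs => ?_⟩
  have := hm_sigmaFinite (n := n)
  have h := (FDAux.smul_preserving (ρ g)).prod (FDAux.count_equiv (MulAction.toPerm g : Z ≃ Z))
  have e : (fun w : Hyp n × Z => g • w) =
      Prod.map (fun x : Hyp n => ρ g • x) (MulAction.toPerm g : Z ≃ Z) := by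
    funext w
    exact Prod.ext (N.act g w.1) rfl
  rw [e]
  exact h.measure_preimage hs.nullMeasurableSet

theorem Nice.exists_FD (N : Nice G Z ρ) : ∃ D : Set (Hyp n × Z), GoodFD G D := by
  have := N.measurableConstSMul
  obtain ⟨R, s, h⟩ := N.cocpt
  choose V hVo hVx hV using FDAux.exists_wandering N R
  have hcov : ∀ z, ∃ T : Set (Hyp n), T.Countable ∧ ⋃ x ∈ T, V z x = Set.univ := fun z =>
    TopologicalSpace.countable_cover_nhds fun x => (hVo z x).mem_nhds (hVx z x)
  choose T hT hT' using hcov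
  have : ∀ z, Countable (T z) := fun z => (hT z).to_subtype
  have hball : MeasurableSet {y : Hyp n | uu (orig n) y ≤ R} :=
    (isCompact_ball (orig n) R).isClosed.measurableSet
  obtain ⟨D, h1, h2, h3⟩ := FDAux.exists_strict (G := G)
    (fun i : Σ z : s, T z => (V i.1 i.2 ∩ {y : Hyp n | uu (orig n) y ≤ R}) ×ˢ ({(i.1 : Z)} : Set Z))
    (fun i => ((hVo _ _).measurableSet.inter hball).prod (MeasurableSet.of_discrete))
    (by
      rintro ⟨z, x⟩ g ⟨y, z'⟩ ⟨⟨a1, a2⟩, a3⟩ ⟨⟨b1, b2⟩, b3⟩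
      obtain rfl : z' = z := a3
      exact hV _ _ g y a1 a2 b1 b2 b3)
    (by
      rintro ⟨x, z⟩
      obtain ⟨g, a1, a2⟩ := h x z
      obtain ⟨y, hy, hy'⟩ := Set.mem_iUnion₂.1 (Set.eq_univ_iff_forall.1 (hT' (g • z)) (g • x))
      exact ⟨⟨⟨g • z, a2⟩, ⟨y, hy⟩⟩, g, ⟨hy', a1⟩, rfl⟩)
  refine ⟨D, h1, h2, R, s, fun w hw => ?_⟩
  obtain ⟨i, a1, a2⟩ := h3 w hw
  exact ⟨a1.2, by rw [Set.mem_singleton_iff.1 a2]; exact i.1.2⟩

theorem GoodFD.finite {D : Set (Hyp n × Z)} (hD : GoodFD G D) :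
    IsFiniteMeasure ((xm n Z).restrict D) := by
  obtain ⟨R, s, h⟩ := hD.bdd
  have := hm_finCompact (n := n)
  refine isFiniteMeasure_restrict.2 (ne_of_lt (lt_of_le_of_lt
    (measure_mono (t := {y : Hyp n | uu (orig n) y ≤ R} ×ˢ (s : Set Z)) h) ?_))
  rw [xm, Measure.prod_prod]
  exact ENNReal.mul_lt_top (isCompact_ball _ _).measure_lt_top
    (Measure.count_apply_lt_top.2 s.finite_toSet)

theorem StrictFD.isFundamentalDomain {X : Type} [MeasurableSpace X] [MulAction G X]
    {D : Set X} (h : StrictFD G D) (hD : MeasurableSet D) (ν : Measure X) :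
    IsFundamentalDomain G D ν :=
  IsFundamentalDomain.mk' hD.nullMeasurableSet h

/-- An invariant function, continuous in the first variable, that vanishes almost everywhere on
the fundamental domain vanishes. -/
theorem Nice.eq_zero_of_ae (N : Nice G Z ρ) {D : Set (Hyp n × Z)} (hD : GoodFD G D)
    {f : Hyp n × Z → ℝ} (hc : ∀ z, Continuous fun x => f (x, z))
    (hi : ∀ (g : G) w, f (g • w) = f w) (h0 : f =ᵐ[(xm n Z).restrict D] 0) : f = 0 := by
  have := N.measurableConstSMul
  have := N.invariant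
  have := hm_openPos (n := n)
  have hF := hD.strict.isFundamentalDomain hD.meas (xm n Z)
  have h1 : xm n Z {w | f w ≠ 0} = 0 := by
    refine hF.measure_zero_of_invariant _ (fun g => ?_) ?_
    · ext w
      rw [Set.mem_smul_set_iff_inv_smul_mem, Set.mem_ofPred_eq, Set.mem_ofPred_eq, hi]
    · rw [← Measure.restrict_apply' hD.meas]
      exact h0
  have h2 : ∀ᵐ w ∂(hm n).prod Measure.count, f w = 0 := h1
  have h3 := Measure.ae_ae_of_ae_prod h2
  funext w
  have h4 : (fun x => f (x, w.2)) =ᵐ[hm n] fun _ => 0 :=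
    h3.mono fun x hx => Measure.ae_count_iff.1 hx w.2
  exact congrFun (((hc w.2).ae_eq_iff_eq (hm n) continuous_const).1 h4) w.1

/-- An invariant function, continuous in the first variable, is bounded and measurable. -/
theorem Nice.bdd (N : Nice G Z ρ) {f : Hyp n × Z → ℝ} (hc : ∀ z, Continuous fun x => f (x, z))
    (hi : ∀ (g : G) w, f (g • w) = f w) : Measurable f ∧ ∃ C, ∀ w, |f w| ≤ C := by
  refine ⟨measurable_from_prod_countable_left fun z => (hc z).measurable, ?_⟩
  obtain ⟨R, s, h⟩ := N.cocpt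
  choose C hC using fun z =>
    (isCompact_ball (orig n) R).exists_bound_of_continuousOn (hc z).continuousOn
  refine ⟨∑ z ∈ s, |C z|, fun w => ?_⟩
  obtain ⟨g, a1, a2⟩ := h w.1 w.2
  rw [← hi g w]
  exact ((hC (g • w.2) (g • w.1) a1).trans (le_abs_self _)).trans
    (Finset.single_le_sum (f := fun z => |C z|) (fun _ _ => abs_nonneg _) a2)

theorem measurePreserving_prod (g : Oplus n) (Ψ : Z ≃ Z) :
    ∃ Θ : Hyp n × Z ≃ᵐ Hyp n × Z, (∀ w, Θ w = (g • w.1, Ψ w.2)) ∧
      MeasurePreserving Θ (xm n Z) (xm n Z) := by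
  have := hyp_continuousConstSMul (n := n)
  have := hm_sigmaFinite (n := n)
  refine ⟨(MeasurableEquiv.smul g).prodCongr
    ⟨Ψ, Measurable.of_discrete, Measurable.of_discrete⟩, fun _ => rfl, ?_⟩
  exact (FDAux.smul_preserving g).prod (FDAux.count_equiv Ψ)

end Pool.Agent.P.MP_3c2f8c_gt
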