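import Pool.Agent.P.MP_3c2f8c_gt.An.Defs

/-! AN-1: elementary geometry of the hyperboloid. -/

namespace Pool.Agent.P.MP_3c2f8c_gt

open Matrix MeasureTheory
open scoped ENNReal

variable {n : ℕ}

theorem lor_comm (x y : Fin (n + 1) → ℝ) : lor x y = lor y x := by
  simp only [lor, mul_comm]

namespace GeomAux

theorem lor_add_left (x x' y : Fin (n + 1) → ℝ) : lor (x + x') y = lor x y + lor x' y := by
  simp only [lor, Pi.add_apply, add_mul, Finset.sum_add_distrib]
  ring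

theorem lor_smul_left (c : ℝ) (x y : Fin (n + 1) → ℝ) : lor (c • x) y = c * lor x y := by
  simp only [lor, Pi.smul_apply, smul_eq_mul, mul_sub, Finset.mul_sum, mul_assoc]

theorem lor_add_right (x y y' : Fin (n + 1) → ℝ) : lor x (y + y') = lor x y + lor x y' := by
  rw [lor_comm, lor_add_left, lor_comm y, lor_comm y']

theorem lor_smul_right (c : ℝ) (x y : Fin (n + 1) → ℝ) : lor x (c • y) = c * lor x y := by
  rw [lor_comm, lor_smul_left, lor_comm y]

theorem lor_zero_right (x : Fin (n + 1) → ℝ) : lor x (Pi.single 0 1) = -x 0 := by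
  simp [lor]

theorem lor_succ_right (x : Fin (n + 1) → ℝ) (j : Fin n) : lor x (Pi.single j.succ 1) = x j.succ := by
  simp [lor, Pi.single_apply, (Fin.succ_ne_zero j).symm]

/-- The spatial part of the form. -/
def sp (x y : Fin (n + 1) → ℝ) : ℝ := ∑ i : Fin n, x i.succ * y i.succ

theorem lor_eq (x y : Fin (n + 1) → ℝ) : lor x y = sp x y - x 0 * y 0 := rfl

theorem sp_nonneg (x : Fin (n + 1) → ℝ) : 0 ≤ sp x x :=
  Finset.sum_nonneg fun _ _ => mul_self_nonneg _

theorem sp_sq_le (x y : Fin (n + 1) → ℝ) : sp x y ^ 2 ≤ sp x x * sp y y := by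
  simpa only [sp, sq] using
    Finset.sum_mul_sq_le_sq_mul_sq Finset.univ (fun i : Fin n => x i.succ) fun i => y i.succ

theorem sq_le_sp (x : Fin (n + 1) → ℝ) (i : Fin n) : x i.succ ^ 2 ≤ sp x x := by
  rw [sq]
  exact Finset.single_le_sum (f := fun i : Fin n => x i.succ * x i.succ)
    (fun _ _ => mul_self_nonneg _) (Finset.mem_univ i)

theorem sp_hyp (x : Hyp n) : sp x.1 x.1 = x.1 0 ^ 2 - 1 := by
  have := x.2.1
  rw [lor_eq] at this
  linarith

theorem one_le_zero (x : Hyp n) : 1 ≤ x.1 0 := by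
  have h1 := sp_hyp x
  have h2 := sp_nonneg x.1
  have h3 := x.2.2
  nlinarith

theorem same_sheet {x y : Fin (n + 1) → ℝ} (hx : lor x x < 0) (hy : lor y y < 0)
    (hxy : lor x y < 0) (h0 : 0 < y 0) : 0 < x 0 := by
  rw [lor_eq] at hx hy hxy
  by_contra h
  have h1 : x 0 * y 0 ≤ 0 := mul_nonpos_of_nonpos_of_nonneg (not_lt.1 h) h0.le
  have h2 := sp_sq_le x y
  have h3 : sp x x * sp y y ≤ x 0 * x 0 * (y 0 * y 0) :=
    mul_le_mul (by linarith) (by linarith) (sp_nonneg y) (mul_self_nonneg _)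
  nlinarith

theorem mulVec_orig (g : Matrix (Fin (n + 1)) (Fin (n + 1)) ℝ) (i j : Fin (n + 1)) :
    (g *ᵥ Pi.single j 1) i = g i j := by
  simp

theorem pos_of_lor {g : Matrix (Fin (n + 1)) (Fin (n + 1)) ℝ}
    (hg : ∀ x y, lor (g *ᵥ x) (g *ᵥ y) = lor x y) (h0 : 0 < g 0 0) {x : Fin (n + 1) → ℝ}
    (hx : x ∈ cone n) : 0 < (g *ᵥ x) 0 := by
  refine same_sheet (y := g *ᵥ Pi.single 0 1) ?_ ?_ ?_ (by rwa [mulVec_orig])
  · rw [hg]; exact hx.1
  · rw [hg, lor_zero_right]; simp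
  · rw [hg, lor_zero_right]; exact neg_neg_of_pos hx.2

theorem mem_Oplus {g : GL (Fin (n + 1)) ℝ} (hg : g ∈ LorO n) (h0 : 0 < g.1 0 0) : g ∈ Oplus n :=
  ⟨hg, fun x => pos_of_lor hg h0 (mem_cone x)⟩

theorem entry_pos (g : Oplus n) : 0 < g.1.1 0 0 := by
  have := g.2.2 (orig n)
  rwa [show (orig n).1 = Pi.single 0 1 from rfl, mulVec_orig] at this

theorem continuous_lor : Continuous fun p : (Fin (n + 1) → ℝ) × (Fin (n + 1) → ℝ) =>
    lor p.1 p.2 := by
  unfold lor
  fun_prop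

theorem closedEmb : Topology.IsClosedEmbedding (Subtype.val : Hyp n → Fin (n + 1) → ℝ) := by
  refine IsClosed.isClosedEmbedding_subtypeVal
    (s := {x : Fin (n + 1) → ℝ | lor x x = -1 ∧ 0 < x 0}) ?_
  have e : {x : Fin (n + 1) → ℝ | lor x x = -1 ∧ 0 < x 0} =
      {x | lor x x = -1} ∩ {x | 0 ≤ x 0} := by
    ext x
    refine ⟨fun h => ⟨h.1, h.2.le⟩, fun h => ⟨h.1, lt_of_le_of_ne h.2 fun h0 => ?_⟩⟩
    have h1 : lor x x = -1 := h.1
    rw [lor_eq, ← h0] at h1
    linarith [sp_nonneg x]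
  rw [e]
  exact (isClosed_eq (continuous_lor.comp (continuous_id.prodMk continuous_id))
    continuous_const).inter (isClosed_le continuous_const (continuous_apply 0))

end GeomAux

open GeomAux

theorem uu_comm (x y : Hyp n) : uu x y = uu y x := by rw [uu, uu, lor_comm]

theorem one_le_uu (x y : Hyp n) : 1 ≤ uu x y := by
  have h := sp_sq_le x.1 y.1
  rw [sp_hyp, sp_hyp] at h
  have hx := one_le_zero x
  have hy := one_le_zero y
  have h1 : sp x.1 y.1 ^ 2 ≤ (x.1 0 * y.1 0 - 1) ^ 2 := by nlinarith [sq_nonneg (x.1 0 - y.1 0)]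
  have h2 := (abs_le_of_sq_le_sq' h1 (by nlinarith)).2
  rw [uu, lor_eq]
  linarith

theorem uu_self (x : Hyp n) : uu x x = 1 := by rw [uu, x.2.1, neg_neg]

theorem smul_coe (g : Oplus n) (x : Hyp n) : (g • x).1 = g.1.1 *ᵥ x.1 := rfl

theorem uu_smul (g : Oplus n) (x y : Hyp n) : uu (g • x) (g • y) = uu x y := by
  rw [uu, uu, smul_coe, smul_coe, g.2.1]

theorem uu_orig (x : Hyp n) : uu (orig n) x = x.1 0 := by
  rw [uu, lor_comm, show (orig n).1 = Pi.single 0 1 from rfl, lor_zero_right, neg_neg]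

theorem exists_smul_orig (x : Hyp n) : ∃ g : Oplus n, g • orig n = x := by
  set o : Fin (n + 1) → ℝ := Pi.single 0 1 with ho
  set w := x.1 + o with hw
  set c : ℝ := -(1 + x.1 0)⁻¹ with hc
  have h0 : 1 + x.1 0 ≠ 0 := by linarith [x.2.2]
  have hoo : lor o o = -1 := (orig n).2.1
  have hxo : lor x.1 o = -x.1 0 := lor_zero_right _
  have how : lor o w = -(1 + x.1 0) := by rw [hw, lor_add_right, lor_comm o x.1, hxo, hoo]; ring
  have hww : c * lor w w = 2 := by
    have : lor w w = -2 * (1 + x.1 0) := by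
      nth_rewrite 1 [hw]
      rw [lor_add_left, how, hw, lor_add_right, x.2.1, hxo]
      ring
    rw [this, hc]
    field_simp
  let r : (Fin (n + 1) → ℝ) →ₗ[ℝ] Fin (n + 1) → ℝ :=
    { toFun := fun v => (-1 : ℝ) • v + (c * lor v w) • w
      map_add' := fun u v => by rw [lor_add_left]; module
      map_smul' := fun a v => by rw [lor_smul_left, RingHom.id_apply]; module }
  have hr : ∀ v, r v = (-1 : ℝ) • v + (c * lor v w) • w := fun _ => rfl
  have hM : ∀ v, LinearMap.toMatrix' r *ᵥ v = r v := fun v => by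
    rw [← Matrix.toLin'_apply, Matrix.toLin'_toMatrix']
  have hrr : r ∘ₗ r = LinearMap.id := LinearMap.ext fun v => by
    rw [LinearMap.comp_apply, hr (r v), hr v, lor_add_left, lor_smul_left, lor_smul_left,
      LinearMap.id_apply]
    match_scalars
    · ring
    all_goals linear_combination (c * lor v w) * hww
  have hMM : LinearMap.toMatrix' r * LinearMap.toMatrix' r = 1 := by
    rw [← LinearMap.toMatrix'_comp, hrr, LinearMap.toMatrix'_id]
  have hro : r o = x.1 := by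
    rw [hr, how, hc, hw, neg_mul_neg, inv_mul_cancel₀ h0]
    module
  refine ⟨⟨⟨_, _, hMM, hMM⟩, mem_Oplus (fun u v => ?_) ?_⟩, Subtype.ext ((hM o).trans hro)⟩
  · change lor (LinearMap.toMatrix' r *ᵥ u) (LinearMap.toMatrix' r *ᵥ v) = _
    rw [hM, hM, hr, hr]
    simp only [lor_add_left, lor_add_right, lor_smul_left, lor_smul_right, lor_comm w v]
    linear_combination (c * lor u w * lor v w) * hww
  · change 0 < LinearMap.toMatrix' r 0 0
    rw [← mulVec_orig (LinearMap.toMatrix' r), hM, hro]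
    exact x.2.2

theorem uu_le_mul (x x' y : Hyp n) :
    uu x' y ≤ (uu x x' + √(uu x x' ^ 2 - 1)) * uu x y := by
  obtain ⟨g, rfl⟩ := exists_smul_orig x
  obtain ⟨x', rfl⟩ := MulAction.surjective g x'
  obtain ⟨y, rfl⟩ := MulAction.surjective g y
  simp only [uu_smul, uu_orig]
  have h := sp_sq_le x'.1 y.1
  have h0 := sp_nonneg x'.1
  rw [sp_hyp, sp_hyp] at h
  rw [sp_hyp] at h0
  have h1 : sp x'.1 y.1 ^ 2 ≤ (√(x'.1 0 ^ 2 - 1) * y.1 0) ^ 2 := by
    rw [mul_pow, Real.sq_sqrt h0]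
    nlinarith
  have h2 := (abs_le_of_sq_le_sq' h1 (mul_nonneg (Real.sqrt_nonneg _) y.2.2.le)).1
  rw [uu, lor_eq]
  linarith

theorem uu_le_two_mul (x y z : Hyp n) : uu x z ≤ 2 * uu x y * uu y z := by
  refine (uu_le_mul y x z).trans (mul_le_mul_of_nonneg_right ?_ (by linarith [one_le_uu y z]))
  have h : √(uu y x ^ 2 - 1) ≤ uu y x :=
    Real.sqrt_le_iff.2 ⟨by linarith [one_le_uu y x], by linarith⟩
  rw [uu_comm x y]
  linarith

theorem abs_coord_le (x : Hyp n) (i : Fin (n + 1)) : |x.1 i| ≤ uu (orig n) x := by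
  rw [uu_orig]
  refine Fin.cases (abs_of_pos x.2.2).le (fun i => ?_) i
  refine abs_le_of_sq_le_sq ?_ x.2.2.le
  linarith [sq_le_sp x.1 i, sp_hyp x]

theorem uu_orig_smul_orig (g : Oplus n) : uu (orig n) (g • orig n) = g.1.1 0 0 := by
  rw [uu_orig, smul_coe]
  exact mulVec_orig _ _ _

theorem abs_entry_le (g : Oplus n) (i j : Fin (n + 1)) :
    |g.1.1 i j| ≤ uu (orig n) (g • orig n) := by
  refine Fin.cases ?_ (fun j => ?_) j
  · rw [← mulVec_orig g.1.1]
    exact abs_coord_le (g • orig n) i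
  have key : ∀ v, lor (g⁻¹ • orig n).1 v = -(g.1.1 *ᵥ v) 0 := fun v => by
    rw [← g.2.1, ← smul_coe, smul_inv_smul, lor_comm]
    exact lor_zero_right _
  have h0 := key (Pi.single 0 1)
  have hj := key (Pi.single j.succ 1)
  rw [lor_zero_right, mulVec_orig, neg_inj] at h0
  rw [lor_succ_right, mulVec_orig] at hj
  have h1 := sq_le_sp (g⁻¹ • orig n).1 j
  rw [sp_hyp, h0, hj, neg_sq] at h1
  rw [uu_orig_smul_orig]
  refine abs_le_of_sq_le_sq ?_ (entry_pos g).le
  refine Fin.cases (by linarith) (fun i => ?_) i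
  have h2 := g.2.1 (Pi.single j.succ 1) (Pi.single j.succ 1)
  have h3 := sq_le_sp (g.1.1 *ᵥ Pi.single j.succ 1) i
  rw [lor_succ_right, lor_eq, mulVec_orig, Pi.single_eq_same] at h2
  rw [mulVec_orig] at h3
  nlinarith

theorem continuous_uu : Continuous fun p : Hyp n × Hyp n => uu p.1 p.2 :=
  (continuous_lor.comp ((continuous_subtype_val.comp continuous_fst).prodMk
    (continuous_subtype_val.comp continuous_snd))).neg

theorem hyp_continuousConstSMul : ContinuousConstSMul (Oplus n) (Hyp n) :=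
  ⟨fun _ => (continuous_const.matrix_mulVec continuous_subtype_val).subtype_mk _⟩

theorem isCompact_ball (x : Hyp n) (R : ℝ) : IsCompact {y | uu x y ≤ R} := by
  refine (closedEmb.isCompact_preimage (isCompact_closedBall (0 : Fin (n + 1) → ℝ)
    (2 * uu (orig n) x * R))).of_isClosed_subset
    (isClosed_le (continuous_uu.comp (continuous_const.prodMk continuous_id)) continuous_const)
    fun y hy => ?_
  have h1 : uu (orig n) y ≤ 2 * uu (orig n) x * R :=
    (uu_le_two_mul _ x y).trans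
      (mul_le_mul_of_nonneg_left hy (by linarith [one_le_uu (orig n) x]))
  rw [Set.mem_preimage, mem_closedBall_zero_iff,
    pi_norm_le_iff_of_nonneg (by linarith [one_le_uu (orig n) y])]
  exact fun i => (abs_coord_le y i).trans h1

theorem hyp_locallyCompact : LocallyCompactSpace (Hyp n) := closedEmb.locallyCompactSpace

theorem GeomAux.eq_of_uu {x y : Hyp n} (h : uu x y = 1) : x = y := by
  obtain ⟨g, rfl⟩ := exists_smul_orig x
  obtain ⟨y, rfl⟩ := MulAction.surjective g y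
  simp only [uu_smul, uu_orig] at h
  refine congrArg (g • ·) (Subtype.ext (funext fun i => Fin.cases ?_ (fun i => ?_) i))
  · rw [h]; simp [orig]
  · have h1 := sq_le_sp y.1 i
    rw [sp_hyp, h] at h1
    have h2 : y.1 i.succ = 0 := by nlinarith
    rw [h2]; simp [orig]

theorem ball_subset (x : Hyp n) {U : Set (Hyp n)} (hU : U ∈ nhds x) :
    ∃ ε : ℝ, 0 < ε ∧ {y | uu x y < 1 + ε} ⊆ U := by
  obtain ⟨a, ha, h⟩ := ((isCompact_ball x 2).diff (isOpen_interior (s := U))).exists_forall_le'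
    (f := fun y => uu x y) (a := 1)
    (continuous_uu.comp (continuous_const.prodMk continuous_id)).continuousOn
    fun y hy => lt_of_le_of_ne (one_le_uu x y) fun e =>
      hy.2 (eq_of_uu e.symm ▸ mem_interior_iff_mem_nhds.2 hU)
  refine ⟨min 1 (a - 1), lt_min one_pos (by linarith), fun y hy => interior_subset ?_⟩
  by_contra hn
  have h1 : uu x y < 1 + min 1 (a - 1) := hy
  have h2 := h y ⟨show uu x y ≤ 2 by linarith [min_le_left 1 (a - 1)], hn⟩
  linarith [min_le_right 1 (a - 1)]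

theorem exists_uu_gt (hn : 1 ≤ n) (R : ℝ) : ∃ x : Hyp n, R < uu (orig n) x := by
  have h0 : 0 ≤ (|R| + 1) ^ 2 - 1 := by nlinarith [abs_nonneg R]
  refine ⟨⟨Fin.cons (|R| + 1) (Pi.single ⟨0, hn⟩ √((|R| + 1) ^ 2 - 1)), ?_, ?_⟩, ?_⟩
  · simp only [lor, Fin.cons_succ, Fin.cons_zero]
    rw [Finset.sum_eq_single ⟨0, hn⟩ (fun i _ hi => by simp [hi]) (by simp), Pi.single_eq_same,
      Real.mul_self_sqrt h0]
    ring
  · rw [Fin.cons_zero]
    positivity
  · rw [uu_orig]
    exact (le_abs_self R).trans_lt (lt_add_one _)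

theorem proj_coe (x : Hyp n) : proj x.1 (mem_cone x) = x :=
  Subtype.ext (by simp [proj, x.2.1])

theorem ext_coe (f : Hyp n → ℝ) (x : Hyp n) : ext f x.1 = f x := by
  rw [ext, dif_pos (mem_cone x), proj_coe]

theorem smul_mem_cone (g : Oplus n) {x : Fin (n + 1) → ℝ} :
    g.1.1 *ᵥ x ∈ cone n ↔ x ∈ cone n := by
  have key : ∀ (g : Oplus n) (x : Fin (n + 1) → ℝ), x ∈ cone n → g.1.1 *ᵥ x ∈ cone n :=
    fun g x hx => ⟨by rw [g.2.1]; exact hx.1, pos_of_lor g.2.1 (entry_pos g) hx⟩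
  refine ⟨fun h => ?_, key g x⟩
  have := key g⁻¹ _ h
  rwa [mulVec_mulVec, ← Units.val_mul, ← Subgroup.coe_mul, inv_mul_cancel, Subgroup.coe_one,
    Units.val_one, one_mulVec] at this

theorem proj_smul (g : Oplus n) {x : Fin (n + 1) → ℝ} (hx : x ∈ cone n) :
    proj (g.1.1 *ᵥ x) ((smul_mem_cone g).2 hx) = g • proj x hx :=
  Subtype.ext (by
    rw [smul_coe]
    simp only [proj, mulVec_smul, g.2.1])

theorem abs_det_eq_one (g : LorO n) : |g.1.1.det| = 1 := by
  let J : Matrix (Fin (n + 1)) (Fin (n + 1)) ℝ := diagonal (Fin.cons (-1) fun _ => 1)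
  have hJ : ∀ x y, lor x y = x ⬝ᵥ J *ᵥ y := fun x y => by
    simp [J, lor, dotProduct, mulVec_diagonal, Fin.sum_univ_succ]
    ring
  have h : g.1.1ᵀ * J * g.1.1 = J := by
    ext i j
    have h1 := g.2 (Pi.single i 1) (Pi.single j 1)
    rw [hJ, hJ, mulVec_mulVec, ← vecMul_transpose, ← dotProduct_mulVec, mulVec_mulVec,
      ← Matrix.mul_assoc] at h1
    simpa using h1
  have hd : J.det = -1 := by simp [J, Fin.prod_univ_succ]
  have h2 := congrArg det h
  rw [det_mul, det_mul, det_transpose, hd] at h2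
  have h3 : g.1.1.det ^ 2 = 1 := by linarith
  rw [← sq_eq_sq₀ (abs_nonneg _) zero_le_one, sq_abs, h3, one_pow]

theorem neg_notMem_Oplus (g : Oplus n) : -g.1 ∉ Oplus n := fun h => by
  have h1 := entry_pos ⟨_, h⟩
  have h2 := entry_pos g
  simp only [Units.val_neg, Matrix.neg_apply] at h1
  linarith

theorem exists_toPlus : ∃ tp : LorO n →* Oplus n, ∀ g : LorO n,
    (tp g).1 = g.1 ∨ (tp g).1 = -g.1 := by
  have hex : ∀ g : LorO n, ∃ h : Oplus n, h.1 = g.1 ∨ h.1 = -g.1 := fun g => by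
    rcases lt_trichotomy 0 (g.1.1 0 0) with h | h | h
    · exact ⟨⟨_, mem_Oplus g.2 h⟩, Or.inl rfl⟩
    · have h1 := g.2 (Pi.single 0 1) (Pi.single 0 1)
      rw [lor_zero_right, lor_eq, mulVec_orig, ← h, Pi.single_eq_same] at h1
      linarith [sp_nonneg (g.1.1 *ᵥ Pi.single 0 1)]
    · refine ⟨⟨-g.1, mem_Oplus (fun x y => ?_) ?_⟩, Or.inr rfl⟩
      · rw [Units.val_neg, neg_mulVec, neg_mulVec, lor_neg_neg, g.2]
      · simpa using h
  have huniq : ∀ h h' : Oplus n, (h.1 = h'.1 ∨ h.1 = -h'.1) → h = h' := fun h h' e =>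
    Subtype.ext (e.resolve_right fun e' => neg_notMem_Oplus h' (e' ▸ h.2))
  choose tp htp using hex
  refine ⟨MonoidHom.mk' tp fun g h => huniq _ _ ?_, htp⟩
  rcases htp (g * h) with e | e <;> rcases htp g with e1 | e1 <;> rcases htp h with e2 | e2 <;>
    simp [e, e1, e2]

end Pool.Agent.P.MP_3c2f8c_gt
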