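import Pool.Agent.P.MP_3c2f8c_gt.An.Meas
import Pool.Agent.P.MP_3c2f8c_gt.An.Lap

/-! AN-5: Green's identity. -/

namespace Pool.Agent.P.MP_3c2f8c_gt

open Matrix MeasureTheory
open scoped ENNReal

variable {n : ℕ}

namespace GreenAux

/-- The weight multiplied by the square of the radius. -/
noncomputable def WW (x : Fin (n + 1) → ℝ) : ℝ := wt x * (-lor x x)

/-- The compact set that carries all integrands. -/
def KK (ψ : Hyp n → ℝ) : Set (Fin (n + 1) → ℝ) :=
  (fun p : ℝ × Hyp n => p.1 • p.2.1) '' (Set.Icc 1 2 ×ˢ tsupport ψ)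

theorem isCompact_KK {ψ : Hyp n → ℝ} (hc : HasCompactSupport ψ) : IsCompact (KK ψ) :=
  (isCompact_Icc.prod hc).image (by fun_prop)

theorem KK_subset (ψ : Hyp n → ℝ) : KK ψ ⊆ cone n := by
  rintro _ ⟨⟨t, y⟩, ⟨ht, -⟩, rfl⟩
  have h1 : 0 < t := lt_of_lt_of_le one_pos ht.1
  refine ⟨?_, ?_⟩
  · rw [lor_smul_smul, y.2.1]
    nlinarith
  · exact mul_pos h1 y.2.2

theorem continuous_lor : Continuous fun x : Fin (n + 1) → ℝ => lor x x := by
  unfold lor; fun_prop

theorem continuous_proj : Continuous fun x : cone n => proj x.1 x.2 := by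
  refine Continuous.subtype_mk ?_ _
  have h : Continuous fun x : cone n => (√(-lor x.1 x.1))⁻¹ :=
    (continuous_lor.comp continuous_subtype_val).neg.sqrt.inv₀
      fun x => (Real.sqrt_pos.2 (neg_pos.2 x.2.1)).ne'
  exact h.smul continuous_subtype_val

theorem bump_ne {r : ℝ} (h : bump r ≠ 0) : 1 < r ∧ r < 2 := by
  rw [bump, mul_ne_zero_iff] at h
  have h1 := mt expNegInvGlue.zero_iff_nonpos.2 h.1
  have h2 := mt expNegInvGlue.zero_iff_nonpos.2 h.2
  constructor <;> linarith [not_le.1 h1, not_le.1 h2]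

theorem wt_ne {x : Fin (n + 1) → ℝ} (h : wt x ≠ 0) :
    x ∈ cone n ∧ 1 < -lor x x ∧ -lor x x < 2 := by
  unfold wt at h
  split_ifs at h with h0
  · have := bump_ne h
    exact ⟨⟨by linarith [this.1], h0⟩, this⟩
  · exact absurd rfl h

theorem ext_eventually {ψ : Hyp n → ℝ} {x : Fin (n + 1) → ℝ} (hx : x ∈ cone n)
    (h : proj x hx ∉ tsupport ψ) : ext ψ =ᶠ[nhds x] fun _ => 0 := by
  have h1 : IsOpen ((fun y : cone n => proj y.1 y.2) ⁻¹' (tsupport ψ)ᶜ) :=
    (isClosed_tsupport ψ).isOpen_compl.preimage continuous_proj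
  have h2 := isOpen_cone.isOpenMap_subtype_val _ h1
  filter_upwards [h2.mem_nhds ⟨⟨x, hx⟩, h, rfl⟩]
  rintro _ ⟨y, hy, rfl⟩
  rw [ext, dif_pos y.2]
  exact image_eq_zero_of_notMem_tsupport hy

theorem dichotomy (ψ : Hyp n → ℝ) {x : Fin (n + 1) → ℝ} (hx : x ∉ KK ψ) :
    WW x = 0 ∨ ext ψ =ᶠ[nhds x] fun _ => 0 := by
  by_cases h : wt x = 0
  · left; rw [WW, h, zero_mul]
  · right
    obtain ⟨hc, h1, h2⟩ := wt_ne h
    refine ext_eventually hc fun hm => hx ⟨(√(-lor x x), proj x hc), ⟨⟨?_, ?_⟩, hm⟩, ?_⟩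
    · exact Real.one_le_sqrt.2 h1.le
    · exact Real.sqrt_le_iff.2 ⟨by norm_num, by linarith⟩
    · have : √(-lor x x) ≠ 0 := (Real.sqrt_pos.2 (by linarith)).ne'
      simp only [proj, smul_smul, mul_inv_cancel₀ this, one_smul]

theorem pd_eventually {G : (Fin (n + 1) → ℝ) → ℝ} {x : Fin (n + 1) → ℝ}
    (h : G =ᶠ[nhds x] fun _ => 0) (i : Fin (n + 1)) : pd i G =ᶠ[nhds x] fun _ => 0 := by
  filter_upwards [h.eventuallyEq_nhds] with y hy
  rw [pd, hy.fderiv_eq]
  simp

theorem box_eq_zero {G : (Fin (n + 1) → ℝ) → ℝ} {x : Fin (n + 1) → ℝ}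
    (h : G =ᶠ[nhds x] fun _ => 0) : box G x = 0 := by
  have : ∀ i, pd i (pd i G) x = 0 := fun i => (pd_eventually (pd_eventually h i) i).eq_of_nhds
  simp [box, this]

theorem contDiff_of {G : (Fin (n + 1) → ℝ) → ℝ} {K : Set (Fin (n + 1) → ℝ)} {m : WithTop ℕ∞}
    (hK : IsCompact K) (hs : K ⊆ cone n) (hG : ContDiffOn ℝ m G (cone n))
    (h0 : ∀ x, x ∉ K → G x = 0) : ContDiff ℝ m G ∧ HasCompactSupport G := by
  refine ⟨contDiff_iff_contDiffAt.2 fun x => ?_, HasCompactSupport.intro hK h0⟩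
  by_cases hx : x ∈ K
  · exact hG.contDiffAt (isOpen_cone.mem_nhds (hs hx))
  · refine (contDiffAt_const (c := (0 : ℝ))).congr_of_eventuallyEq ?_
    filter_upwards [hK.isClosed.isOpen_compl.mem_nhds hx] with y hy using h0 y hy

theorem integral_pd {G : (Fin (n + 1) → ℝ) → ℝ} (hG : ContDiff ℝ 1 G)
    (hc : HasCompactSupport G) (i : Fin (n + 1)) :
    Integrable (pd i G) ∧ ∫ x, pd i G x = 0 := by
  have h1 : Integrable (pd i G) :=
    ((hG.continuous_fderiv one_ne_zero).clm_apply continuous_const).integrable_of_hasCompactSupport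
      (hc.fderiv_apply ℝ _)
  refine ⟨h1, ?_⟩
  have := integral_mul_fderiv_eq_neg_fderiv_mul_of_integrable (μ := volume)
    (f := fun _ : Fin (n + 1) → ℝ => (1 : ℝ)) (g := G) (v := Pi.single i 1)
    (by simp) (h1.congr (Filter.Eventually.of_forall fun x => (one_mul _).symm))
    (by simpa using hG.continuous.integrable_of_hasCompactSupport hc)
    (fun _ _ => differentiableAt_const _) (fun x _ => hG.differentiable one_ne_zero x)
  simpa [pd] using this

theorem contDiff_lor {m : WithTop ℕ∞} : ContDiff ℝ m fun x : Fin (n + 1) → ℝ => lor x x := by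
  unfold lor; fun_prop

theorem contDiff_w : ContDiff ℝ 2 fun r => bump r * r := by
  have h : ContDiff ℝ 2 expNegInvGlue := expNegInvGlue.contDiff (n := 2)
  unfold bump
  exact ((h.comp (contDiff_id.sub contDiff_const)).mul
    (h.comp (contDiff_const.sub contDiff_id))).mul contDiff_id

theorem WW_eq {x : Fin (n + 1) → ℝ} (hx : x ∈ cone n) :
    WW x = ((fun r => bump r * r) ∘ fun y => -lor y y) x := by
  simp [WW, wt, hx.2]

theorem contDiffOn_WW : ContDiffOn ℝ 2 (WW (n := n)) (cone n) :=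
  (contDiff_w.comp contDiff_lor.neg).contDiffOn.congr fun _ hx => WW_eq hx

theorem contDiffOn_pd {G : (Fin (n + 1) → ℝ) → ℝ} (hG : ContDiffOn ℝ 2 G (cone n))
    (i : Fin (n + 1)) : ContDiffOn ℝ 1 (pd i G) (cone n) :=
  (hG.fderiv_of_isOpen isOpen_cone (by norm_num)).clm_apply contDiffOn_const

theorem contDiffOn_pd_pd {G : (Fin (n + 1) → ℝ) → ℝ} (hG : ContDiffOn ℝ 2 G (cone n))
    (i : Fin (n + 1)) : ContDiffOn ℝ 0 (pd i (pd i G)) (cone n) :=
  ((contDiffOn_pd hG i).fderiv_of_isOpen isOpen_cone (by norm_num)).clm_apply contDiffOn_const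

theorem contDiffOn_box {G : (Fin (n + 1) → ℝ) → ℝ} (hG : ContDiffOn ℝ 2 G (cone n)) :
    ContDiffOn ℝ 0 (box G) (cone n) :=
  (ContDiffOn.sum fun _ _ => contDiffOn_pd_pd hG _).sub (contDiffOn_pd_pd hG 0)

theorem fderiv_lor (x v : Fin (n + 1) → ℝ) :
    fderiv ℝ (fun y => lor y y) x v = 2 * lor x v := by
  have h : HasFDerivAt (fun y : Fin (n + 1) → ℝ => lor y y) _ x :=
    (HasFDerivAt.fun_sum fun (i : Fin n) (_ : i ∈ Finset.univ) =>
      (hasFDerivAt_apply (𝕜 := ℝ) i.succ x).mul (hasFDerivAt_apply (𝕜 := ℝ) i.succ x)).sub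
      ((hasFDerivAt_apply (𝕜 := ℝ) 0 x).mul (hasFDerivAt_apply (𝕜 := ℝ) 0 x))
  rw [h.fderiv]
  simp only [_root_.sub_apply, _root_.sum_apply,
    _root_.add_apply, _root_.smul_apply, ContinuousLinearMap.proj_apply,
    smul_eq_mul, lor, mul_sub, Finset.mul_sum, two_mul]

theorem pd_WW {x : Fin (n + 1) → ℝ} (hx : x ∈ cone n) :
    ∃ c : ℝ, (∀ i : Fin n, pd i.succ WW x = c * x i.succ) ∧ pd 0 WW x = -(c * x 0) := by
  have he : WW =ᶠ[nhds x] (fun r => bump r * r) ∘ fun y => -lor y y := by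
    filter_upwards [isOpen_cone.mem_nhds hx] with y hy using WW_eq hy
  have h1 := (contDiff_w.differentiable two_ne_zero (-lor x x)).hasDerivAt
  have h2 := ((contDiff_lor (n := n) (m := 1)).differentiable one_ne_zero x).hasFDerivAt.fun_neg
  have h3 := (h1.comp_hasFDerivAt x h2).fderiv
  refine ⟨-2 * deriv (fun r => bump r * r) (-lor x x), fun i => ?_, ?_⟩
  · rw [pd, he.fderiv_eq, h3]
    simp only [_root_.smul_apply, _root_.neg_apply, fderiv_lor,
      smul_eq_mul]
    simp [lor, Pi.single_apply]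
    ring
  · rw [pd, he.fderiv_eq, h3]
    simp only [_root_.smul_apply, _root_.neg_apply, fderiv_lor,
      smul_eq_mul]
    simp [lor]
    ring

theorem fderiv_self (G : (Fin (n + 1) → ℝ) → ℝ) (x : Fin (n + 1) → ℝ) :
    fderiv ℝ G x x = ∑ i : Fin n, x i.succ * pd i.succ G x + x 0 * pd 0 G x := by
  have h : fderiv ℝ G x x = fderiv ℝ G x (∑ i, x i • Pi.single i (1 : ℝ)) := by
    congr 1
    funext j
    simp [Finset.sum_apply, Pi.single_apply]
  rw [h, map_sum, Fin.sum_univ_succ, add_comm]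
  simp [pd]

/-- The components of the vector field. -/
noncomputable def VV (F P : (Fin (n + 1) → ℝ) → ℝ) (i : Fin (n + 1)) (x : Fin (n + 1) → ℝ) : ℝ :=
  WW x * (P x * pd i F x - F x * pd i P x)

theorem pd_VV {F P : (Fin (n + 1) → ℝ) → ℝ} (hF : ContDiffOn ℝ 2 F (cone n))
    (hP : ContDiffOn ℝ 2 P (cone n)) (i : Fin (n + 1)) {x : Fin (n + 1) → ℝ} (hx : x ∈ cone n) :
    pd i (VV F P i) x = pd i WW x * (P x * pd i F x - F x * pd i P x) +
      WW x * (P x * pd i (pd i F) x - F x * pd i (pd i P) x) := by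
  have hn := isOpen_cone.mem_nhds hx
  have d : ∀ {G : (Fin (n + 1) → ℝ) → ℝ} {m : WithTop ℕ∞}, m ≠ 0 → ContDiffOn ℝ m G (cone n) →
      HasFDerivAt G (fderiv ℝ G x) x := fun hm hG =>
    ((hG.contDiffAt hn).differentiableAt hm).hasFDerivAt
  have h : HasFDerivAt (VV F P i) _ x :=
    (d two_ne_zero contDiffOn_WW).mul
      (((d two_ne_zero hP).mul (d one_ne_zero (contDiffOn_pd hF i))).sub
        ((d two_ne_zero hF).mul (d one_ne_zero (contDiffOn_pd hP i))))
  rw [pd, h.fderiv]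
  simp only [_root_.sub_apply, _root_.add_apply,
    _root_.smul_apply, smul_eq_mul]
  simp only [pd]
  ring

theorem div_VV {F P : (Fin (n + 1) → ℝ) → ℝ} (hF : ContDiffOn ℝ 2 F (cone n))
    (hP : ContDiffOn ℝ 2 P (cone n)) {x : Fin (n + 1) → ℝ} (hx : x ∈ cone n)
    (eF : fderiv ℝ F x x = 0) (eP : fderiv ℝ P x x = 0) :
    ∑ i : Fin n, pd i.succ (VV F P i.succ) x - pd 0 (VV F P 0) x =
      WW x * (P x * box F x) - WW x * (F x * box P x) := by
  obtain ⟨c, h1, h2⟩ := pd_WW hx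
  rw [fderiv_self] at eF eP
  simp only [pd_VV hF hP _ hx, h1, h2, box]
  have e : ∑ i : Fin n, (c * x i.succ * (P x * pd i.succ F x - F x * pd i.succ P x) +
      WW x * (P x * pd i.succ (pd i.succ F) x - F x * pd i.succ (pd i.succ P) x)) =
      c * P x * ∑ i : Fin n, x i.succ * pd i.succ F x -
        c * F x * ∑ i : Fin n, x i.succ * pd i.succ P x +
        (WW x * P x * ∑ i : Fin n, pd i.succ (pd i.succ F) x -
          WW x * F x * ∑ i : Fin n, pd i.succ (pd i.succ P) x) := by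
    simp only [Finset.mul_sum, ← Finset.sum_sub_distrib, ← Finset.sum_add_distrib]
    exact Finset.sum_congr rfl fun i _ => by ring
  rw [e]
  linear_combination c * P x * eF - c * F x * eP

theorem integral_side {f g : Hyp n → ℝ} (hf : C2 f) (hg : C2 g) :
    ∫ y, g y * lap f y ∂hm n = ∫ x, WW x * (ext g x * box (ext f) x) := by
  rw [integral_hm (f := fun y => g y * lap f y) (hg.continuous.mul hf.continuous_lap).measurable]
  refine integral_congr_ae (Filter.Eventually.of_forall fun x => ?_)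
  by_cases h : wt x = 0
  · simp [WW, h]
  · obtain ⟨hc, -, -⟩ := wt_ne h
    have h2 : lor x x ≠ 0 := hc.1.ne
    simp only [WW, box_ext hf hc, projT, ext, dif_pos hc]
    field_simp

end GreenAux

open GreenAux in
theorem green {f ψ : Hyp n → ℝ} (hf : C2 f) (hψ : C2 ψ) (hc : HasCompactSupport ψ) :
    ∫ y, ψ y * lap f y ∂hm n = ∫ y, f y * lap ψ y ∂hm n := by
  have hK := isCompact_KK hc
  have hs := KK_subset ψ
  have hW0 : ContDiffOn ℝ 0 (WW (n := n)) (cone n) := contDiffOn_WW.of_le (by norm_num)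
  have hW1 : ContDiffOn ℝ 1 (WW (n := n)) (cone n) := contDiffOn_WW.of_le (by norm_num)
  have hf0 : ContDiffOn ℝ 0 (ext f) (cone n) := ContDiffOn.of_le hf (by norm_num)
  have hf1 : ContDiffOn ℝ 1 (ext f) (cone n) := ContDiffOn.of_le hf (by norm_num)
  have hψ0 : ContDiffOn ℝ 0 (ext ψ) (cone n) := ContDiffOn.of_le hψ (by norm_num)
  have hψ1 : ContDiffOn ℝ 1 (ext ψ) (cone n) := ContDiffOn.of_le hψ (by norm_num)
  have hA := contDiff_of (G := fun x => WW x * (ext ψ x * box (ext f) x)) hK hs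
    (hW0.mul (hψ0.mul (contDiffOn_box hf))) fun x hx => by
      rcases dichotomy ψ hx with h | h
      · rw [h, zero_mul]
      · rw [h.eq_of_nhds, zero_mul, mul_zero]
  have hB := contDiff_of (G := fun x => WW x * (ext f x * box (ext ψ) x)) hK hs
    (hW0.mul (hf0.mul (contDiffOn_box hψ))) fun x hx => by
      rcases dichotomy ψ hx with h | h
      · rw [h, zero_mul]
      · rw [box_eq_zero h, mul_zero, mul_zero]
  have hV0 : ∀ i x, x ∉ KK ψ → VV (ext f) (ext ψ) i x = 0 := fun i x hx => by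
    rcases dichotomy ψ hx with h | h
    · rw [VV, h, zero_mul]
    · rw [VV, h.eq_of_nhds, (pd_eventually h i).eq_of_nhds]
      ring
  have hV : ∀ i, Integrable (pd i (VV (ext f) (ext ψ) i)) ∧
      ∫ x, pd i (VV (ext f) (ext ψ) i) x = 0 := fun i => by
    have h := contDiff_of (G := VV (ext f) (ext ψ) i) hK hs
      (hW1.mul ((hψ1.mul (contDiffOn_pd hf i)).sub (hf1.mul (contDiffOn_pd hψ i)))) (hV0 i)
    exact integral_pd h.1 h.2 i
  have hd : ∀ x, WW x * (ext ψ x * box (ext f) x) - WW x * (ext f x * box (ext ψ) x) =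
      ∑ i : Fin n, pd i.succ (VV (ext f) (ext ψ) i.succ) x - pd 0 (VV (ext f) (ext ψ) 0) x := by
    intro x
    by_cases hx : x ∈ cone n
    · exact (div_VV hf hψ hx (euler hf hx) (euler hψ hx)).symm
    · have h1 : WW x = 0 := by
        rw [WW, of_not_not (mt (fun h => (wt_ne h).1) hx), zero_mul]
      have h2 : ∀ i, pd i (VV (ext f) (ext ψ) i) x = 0 := fun i => by
        refine (pd_eventually ?_ i).eq_of_nhds
        filter_upwards [hK.isClosed.isOpen_compl.mem_nhds fun h => hx (hs h)] with y hy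
          using hV0 i y hy
      simp [h1, h2]
  rw [integral_side hf hψ, integral_side hψ hf, ← sub_eq_zero,
    ← integral_sub (hA.1.continuous.integrable_of_hasCompactSupport hA.2)
      (hB.1.continuous.integrable_of_hasCompactSupport hB.2)]
  simp only [hd]
  rw [integral_sub (integrable_finsetSum _ fun i _ => (hV _).1) (hV 0).1,
    integral_finsetSum _ fun i _ => (hV _).1]
  simp [fun i => (hV i).2]

end Pool.Agent.P.MP_3c2f8c_gt
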