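import Pool.Agent.P.MP_3c2f8c_gt.An.Defs

/-! AN-12: integral operators with bounded kernels. -/

namespace Pool.Agent.P.MP_3c2f8c_gt

open Matrix MeasureTheory
open scoped ENNReal

variable {n : ℕ}

variable {Y : Type} [MeasurableSpace Y] {ν : Measure Y} [IsFiniteMeasure ν]

namespace OpAux

theorem int1 (φ : Lp ℝ 2 ν) : Integrable φ ν := (Lp.memLp φ).integrable one_le_two

theorem int2 {k : Y → ℝ} (hk : Measurable k) {C : ℝ} (hC : ∀ v, |k v| ≤ C) (φ : Lp ℝ 2 ν) :
    Integrable (fun v => k v * φ v) ν :=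
  (int1 φ).bdd_mul hk.aestronglyMeasurable (Filter.Eventually.of_forall hC)

variable (ν) in
theorem exists_A : ∃ A : ℝ, 0 ≤ A ∧ ∀ (k : Y → ℝ) (C : ℝ), 0 ≤ C → (∀ v, |k v| ≤ C) →
    ∀ φ : Lp ℝ 2 ν, ‖∫ v, k v * φ v ∂ν‖ ≤ C * A * ‖φ‖ := by
  refine ⟨‖indicatorConstLp 2 MeasurableSet.univ (measure_ne_top ν _) (1 : ℝ)‖, norm_nonneg _,
    fun k C hC hk φ => ?_⟩
  have h1 := L2.inner_indicatorConstLp_one MeasurableSet.univ (measure_ne_top ν _) |φ|
  have h2 := real_inner_le_norm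
    (indicatorConstLp 2 MeasurableSet.univ (measure_ne_top ν _) (1 : ℝ)) |φ|
  rw [h1, Measure.restrict_univ, norm_abs_eq_norm, integral_congr_ae (Lp.coeFn_abs φ)] at h2
  refine (norm_integral_le_of_norm_le ((int1 φ).abs.const_mul C)
    (Filter.Eventually.of_forall fun v => ?_)).trans ?_
  · rw [norm_mul]
    exact mul_le_mul_of_nonneg_right (hk v) (norm_nonneg _)
  · rw [integral_const_mul, mul_assoc]
    exact mul_le_mul_of_nonneg_left h2 hC

theorem row {K : Y → Y → ℝ} (hK : BK K) (y : Y) : Measurable (K y) := hK.meas.of_uncurry_left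

theorem bdd {K : Y → Y → ℝ} (hK : BK K) : ∃ C : ℝ, 0 ≤ C ∧ ∀ y v, |K y v| ≤ C := by
  obtain ⟨C, hC⟩ := hK.bdd
  exact ⟨max C 0, le_max_right _ _, fun y v => (hC y v).trans (le_max_left _ _)⟩

omit [IsFiniteMeasure ν] in
theorem inner_eq (φ ψ : Lp ℝ 2 ν) : inner ℝ φ ψ = ∫ y, φ y * ψ y ∂ν := by
  rw [L2.inner_def]
  exact integral_congr_ae (Filter.Eventually.of_forall fun y => by simp [mul_comm])

theorem rank_one {k : Y → ℝ} (hk : Measurable k) {C : ℝ} (hC : ∀ v, |k v| ≤ C) {D : Set Y}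
    (hD : MeasurableSet D) : ∃ T : Lp ℝ 2 ν →L[ℝ] Lp ℝ 2 ν, IsCompactOperator T ∧
      ∀ φ : Lp ℝ 2 ν, (T φ : Y → ℝ) =ᵐ[ν] D.indicator fun _ => ∫ v, k v * φ v ∂ν := by
  have hm : MemLp k 2 ν := MemLp.of_bound hk.aestronglyMeasurable C (Filter.Eventually.of_forall hC)
  refine ⟨(ContinuousLinearMap.toSpanSingleton ℝ
    (indicatorConstLp 2 hD (measure_ne_top ν _) (1 : ℝ))).comp (innerSL ℝ (hm.toLp k)),
    (isCompactOperator_of_locallyCompactSpace_dom (innerSL ℝ (hm.toLp k))).clm_comp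
      (ContinuousLinearMap.toSpanSingleton ℝ (indicatorConstLp 2 hD (measure_ne_top ν _) (1 : ℝ))),
    fun φ => ?_⟩
  have e : inner ℝ (hm.toLp k) φ = ∫ v, k v * φ v ∂ν := by
    rw [inner_eq]
    refine integral_congr_ae ?_
    filter_upwards [hm.coeFn_toLp] with v hv
    rw [hv]
  rw [ContinuousLinearMap.comp_apply, ContinuousLinearMap.toSpanSingleton_apply, innerSL_apply_apply,
    e]
  filter_upwards [Lp.coeFn_smul (∫ v, k v * φ v ∂ν)
    (indicatorConstLp 2 hD (measure_ne_top ν _) (1 : ℝ)),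
    indicatorConstLp_coeFn (p := 2) (hs := hD) (hμs := measure_ne_top ν _) (c := (1 : ℝ))]
    with y h1 h2
  rw [h1, Pi.smul_apply, h2]
  by_cases hy : y ∈ D <;> simp [hy]

end OpAux

open OpAux

theorem exists_op (ν : Measure Y) [IsFiniteMeasure ν] {K : Y → Y → ℝ} (hK : BK K) :
    ∃ T : Lp ℝ 2 ν →L[ℝ] Lp ℝ 2 ν, IsOp ν K T := by
  obtain ⟨A, A0, hA⟩ := exists_A ν
  obtain ⟨C, C0, hC⟩ := bdd hK
  have hm : ∀ φ : Lp ℝ 2 ν, MemLp (fun y => ∫ v, K y v * φ v ∂ν) 2 ν := fun φ =>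
    MemLp.of_bound (StronglyMeasurable.integral_prod_right (f := fun y v => K y v * φ v)
      (hK.meas.stronglyMeasurable.mul
        ((Lp.stronglyMeasurable φ).comp_measurable measurable_snd))).aestronglyMeasurable _
      (Filter.Eventually.of_forall fun y => hA (K y) C C0 (hC y) φ)
  let T : Lp ℝ 2 ν →ₗ[ℝ] Lp ℝ 2 ν :=
    { toFun := fun φ => (hm φ).toLp _
      map_add' := fun φ ψ => by
        rw [← MemLp.toLp_add]
        refine MemLp.toLp_congr _ _ (Filter.Eventually.of_forall fun y => ?_)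
        rw [Pi.add_apply, ← integral_add (int2 (row hK y) (hC y) φ) (int2 (row hK y) (hC y) ψ)]
        refine integral_congr_ae ?_
        filter_upwards [Lp.coeFn_add φ ψ] with v hv
        rw [hv, Pi.add_apply, mul_add]
      map_smul' := fun c φ => by
        rw [RingHom.id_apply, ← MemLp.toLp_const_smul]
        refine MemLp.toLp_congr _ _ (Filter.Eventually.of_forall fun y => ?_)
        rw [Pi.smul_apply, smul_eq_mul, ← integral_const_mul]
        refine integral_congr_ae ?_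
        filter_upwards [Lp.coeFn_smul c φ] with v hv
        rw [hv, Pi.smul_apply, smul_eq_mul, mul_left_comm] }
  refine ⟨T.mkContinuous (measureUnivNNReal ν ^ (2 : ℝ≥0∞).toReal⁻¹ * (C * A)) fun φ => ?_,
    fun φ => (hm φ).coeFn_toLp⟩
  rw [mul_assoc]
  refine Lp.norm_le_of_ae_bound (by positivity) ?_
  filter_upwards [(hm φ).coeFn_toLp] with y hy
  exact (congrArg norm hy).trans_le (hA (K y) C C0 (hC y) φ)

theorem IsOp.isSymmetric {K : Y → Y → ℝ} (hK : BK K) (hs : ∀ y v, K y v = K v y)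
    {T : Lp ℝ 2 ν →L[ℝ] Lp ℝ 2 ν} (hT : IsOp ν K T) :
    T.toLinearMap.IsSymmetric := by
  intro φ ψ
  obtain ⟨C, -, hC⟩ := bdd hK
  have hi : Integrable (Function.uncurry fun y v => K y v * (ψ y * φ v)) (ν.prod ν) :=
    ((int1 ψ).mul_prod (int1 φ)).bdd_mul hK.meas.aestronglyMeasurable
      (Filter.Eventually.of_forall fun z => hC z.1 z.2)
  change inner ℝ (T φ) ψ = inner ℝ φ (T ψ)
  rw [inner_eq, inner_eq]
  calc ∫ y, T φ y * ψ y ∂ν = ∫ y, ∫ v, K y v * (ψ y * φ v) ∂ν ∂ν := by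
        refine integral_congr_ae ?_
        filter_upwards [hT φ] with y hy
        rw [hy, ← integral_mul_const]
        exact integral_congr_ae (Filter.Eventually.of_forall fun v => by ring)
    _ = ∫ v, ∫ y, K y v * (ψ y * φ v) ∂ν ∂ν := integral_integral_swap hi
    _ = _ := by
        refine integral_congr_ae ?_
        filter_upwards [hT ψ] with v hv
        rw [hv, ← integral_const_mul]
        exact integral_congr_ae (Filter.Eventually.of_forall fun y => by
          beta_reduce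
          rw [hs y v]
          ring)

theorem IsOp.isCompact {K : Y → Y → ℝ} (hK : BK K) (hE : Equi ν K)
    {T : Lp ℝ 2 ν →L[ℝ] Lp ℝ 2 ν} (hT : IsOp ν K T) : IsCompactOperator T := by
  obtain ⟨A, A0, hA⟩ := exists_A ν
  obtain ⟨C, C0, hC⟩ := bdd hK
  set B : ℝ := measureUnivNNReal ν ^ (2 : ℝ≥0∞).toReal⁻¹ with hB
  have B0 : 0 ≤ B := by positivity
  refine isClosed_setOfPred_isCompactOperator.closure_subset
    (Metric.mem_closure_iff.2 fun ε hε => ?_)
  have m0 : 0 < 1 + B * A := by positivity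
  obtain ⟨r, c, hc, hcov, hosc⟩ := hE (ε / (1 + B * A)) (by positivity)
  have hk : ∀ i, ∃ k : Y → ℝ, Measurable k ∧ (∀ v, |k v| ≤ C) ∧
      ∀ y ∈ c i, ∀ v, |K y v - k v| ≤ ε / (1 + B * A) := fun i => by
    rcases (c i).eq_empty_or_nonempty with h | ⟨y', hy'⟩
    · exact ⟨0, measurable_const, fun v => by simpa using C0, fun y hy => by simp [h] at hy⟩
    · exact ⟨K y', row hK y', hC y', fun y hy => hosc i y hy y' hy'⟩
  choose k km kb kn using hk
  have hD : ∀ i, MeasurableSet (c i \ ⋃ j, ⋃ _ : j < i, c j) := fun i =>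
    (hc i).diff (MeasurableSet.iUnion fun j => MeasurableSet.iUnion fun _ => hc j)
  choose S Sc hS using fun i => rank_one (ν := ν) (km i) (kb i) (hD i)
  refine ⟨∑ i, S i, (compactOperator (RingHom.id ℝ) _ _).sum_mem fun i _ => Sc i, ?_⟩
  rw [dist_eq_norm]
  refine lt_of_le_of_lt (ContinuousLinearMap.opNorm_le_bound _
    (M := B * (ε / (1 + B * A) * A)) (by positivity) fun φ => ?_) ?_
  · rw [mul_assoc]
    refine Lp.norm_le_of_ae_bound (by positivity) ?_
    rw [_root_.sub_apply, _root_.sum_apply]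
    filter_upwards [Lp.coeFn_sub (T φ) (∑ i, S i φ), Lp.coeFn_fun_finsetSum Finset.univ fun i => S i φ,
      hT φ, hcov, ae_all_iff.2 fun i => hS i φ] with y h1 h2 h3 h4 h5
    obtain ⟨j, hj, hmin⟩ := wellFounded_lt.has_min {i | y ∈ c i} h4
    have e : ∑ i, S i φ y = ∫ v, k j v * φ v ∂ν := by
      rw [Finset.sum_eq_single j, h5, Set.indicator_of_mem]
      · exact ⟨hj, fun h => by
          obtain ⟨i, hi, hy⟩ := Set.mem_iUnion₂.1 h
          exact hmin i hy hi⟩
      · intro i _ hij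
        rw [h5, Set.indicator_of_notMem]
        rintro ⟨hy, hn⟩
        exact hn (Set.mem_iUnion₂.2 ⟨j, lt_of_le_of_ne (not_lt.1 (hmin i hy)) hij.symm, hj⟩)
      · exact fun h => absurd (Finset.mem_univ j) h
    rw [h1, Pi.sub_apply, h2, h3, e,
      ← integral_sub (int2 (row hK y) (hC y) φ) (int2 (km j) (kb j) φ)]
    simp only [← sub_mul]
    exact hA _ _ (by positivity) (kn j y hj) φ
  · have e : B * (ε / (1 + B * A) * A) = ε * (B * A / (1 + B * A)) := by ring
    rw [e]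
    exact mul_lt_of_lt_one_right hε ((div_lt_one m0).2 (by linarith))

theorem IsOp.comp {K K' : Y → Y → ℝ} (hK : BK K) (hK' : BK K')
    {T T' : Lp ℝ 2 ν →L[ℝ] Lp ℝ 2 ν} (hT : IsOp ν K T) (hT' : IsOp ν K' T') :
    IsOp ν (fun y v => ∫ t, K y t * K' t v ∂ν) (T.comp T') := by
  intro φ
  obtain ⟨C, C0, hC⟩ := bdd hK
  obtain ⟨C', -, hC'⟩ := bdd hK'
  filter_upwards [hT (T' φ)] with y hy
  have hi : Integrable (Function.uncurry fun t v => K y t * K' t v * φ v) (ν.prod ν) :=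
    ((int1 φ).comp_snd ν).bdd_mul (c := C * C')
      (((row hK y).comp measurable_fst).mul hK'.meas).aestronglyMeasurable
      (Filter.Eventually.of_forall fun z => by
        rw [norm_mul]
        exact mul_le_mul (hC _ _) (hC' _ _) (norm_nonneg _) C0)
  calc T (T' φ) y = ∫ t, ∫ v, K y t * K' t v * φ v ∂ν ∂ν := by
        rw [hy]
        refine integral_congr_ae ?_
        filter_upwards [hT' φ] with t ht
        rw [ht, ← integral_const_mul]
        exact integral_congr_ae (Filter.Eventually.of_forall fun v => by ring)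
    _ = ∫ v, ∫ t, K y t * K' t v * φ v ∂ν ∂ν := integral_integral_swap hi
    _ = _ := integral_congr_ae (Filter.Eventually.of_forall fun v => integral_mul_const _ _)

theorem IsOp.unique {K : Y → Y → ℝ} {T T' : Lp ℝ 2 ν →L[ℝ] Lp ℝ 2 ν} (hT : IsOp ν K T)
    (hT' : IsOp ν K T') : T = T' :=
  ContinuousLinearMap.ext fun φ => Lp.ext ((hT φ).trans (hT' φ).symm)

end Pool.Agent.P.MP_3c2f8c_gt
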