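import Pool.Agent.P.MP_3c2f8c_gt.An.Geom

/-! AN-4: the Laplacian of radial functions. -/

namespace Pool.Agent.P.MP_3c2f8c_gt

open Matrix MeasureTheory
open scoped ENNReal

variable {n : ℕ}

namespace LapUAux

/-- The signs of the Lorentz form. -/
def eps (i : Fin (n + 1)) : ℝ := if i = 0 then -1 else 1

theorem eps_sq (i : Fin (n + 1)) : eps i * eps i = 1 := by
  unfold eps
  split_ifs <;> norm_num

theorem sum_eps (f : Fin (n + 1) → ℝ) : ∑ i, eps i * f i = ∑ i : Fin n, f i.succ - f 0 := by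
  rw [Fin.sum_univ_succ]
  simp [eps, Fin.succ_ne_zero]
  ring

theorem lor_eq (x y : Fin (n + 1) → ℝ) : lor x y = ∑ i, eps i * (x i * y i) := by
  rw [sum_eps, lor]

/-- The Lorentz form as a continuous linear map in the second variable. -/
noncomputable def LL (a : Fin (n + 1) → ℝ) : (Fin (n + 1) → ℝ) →L[ℝ] ℝ :=
  ∑ i, (eps i * a i) • ContinuousLinearMap.proj (R := ℝ) (φ := fun _ : Fin (n + 1) => ℝ) i

theorem LL_apply (a v : Fin (n + 1) → ℝ) : LL a v = lor a v := by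
  simp [LL, lor_eq, mul_assoc]

theorem LL_single (a : Fin (n + 1) → ℝ) (i : Fin (n + 1)) : LL a (Pi.single i 1) = eps i * a i := by
  simp [LL, Pi.single_apply]

theorem hasFDerivAt_l (a y : Fin (n + 1) → ℝ) : HasFDerivAt (fun y => lor a y) (LL a) y := by
  have e : (fun y => lor a y) = LL a := funext fun y => (LL_apply a y).symm
  rw [e]
  exact (LL a).hasFDerivAt

theorem hasFDerivAt_q (y : Fin (n + 1) → ℝ) :
    HasFDerivAt (fun y => lor y y) ((2 : ℝ) • LL y) y := by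
  simp only [lor_eq]
  refine (HasFDerivAt.fun_sum fun i _ => (((hasFDerivAt_apply i y).mul
    (hasFDerivAt_apply i y)).const_mul (eps i))).congr_fderiv ?_
  ext v
  simp only [LL, _root_.sum_apply, _root_.smul_apply,
    _root_.add_apply, smul_eq_mul, Finset.mul_sum]
  exact Finset.sum_congr rfl fun i _ => by ring

/-- The inverse of the Lorentz length. -/
noncomputable def rr (y : Fin (n + 1) → ℝ) : ℝ := (√(-lor y y))⁻¹

/-- The extension of `uu`. -/
noncomputable def U (a y : Fin (n + 1) → ℝ) : ℝ := -lor a y * rr y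

theorem hasFDerivAt_rr {y : Fin (n + 1) → ℝ} (hy : y ∈ cone n) :
    HasFDerivAt rr (rr y ^ 3 • LL y) y := by
  have h : 0 < -lor y y := neg_pos.2 hy.1
  have hs : √(-lor y y) ≠ 0 := (Real.sqrt_pos.2 h).ne'
  have h1 := ((hasFDerivAt_q y).neg.sqrt h.ne')
  refine ((hasDerivAt_inv hs).comp_hasFDerivAt y h1).congr_fderiv ?_
  ext v
  simp only [rr, _root_.smul_apply, _root_.neg_apply, smul_eq_mul,
    Pi.neg_apply]
  field_simp

theorem hasFDerivAt_U (a : Fin (n + 1) → ℝ) {y : Fin (n + 1) → ℝ} (hy : y ∈ cone n) :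
    HasFDerivAt (U a) ((-rr y) • LL a + (U a y * rr y ^ 2) • LL y) y := by
  refine ((hasFDerivAt_l a y).neg.mul (hasFDerivAt_rr hy)).congr_fderiv ?_
  ext v
  simp only [U, _root_.smul_apply, _root_.neg_apply,
    _root_.add_apply, smul_eq_mul, Pi.neg_apply]
  ring

theorem uu_proj (x : Hyp n) {y : Fin (n + 1) → ℝ} (hy : y ∈ cone n) :
    uu x (proj y hy) = U x.1 y := by
  change -lor x.1 (rr y • y) = _
  rw [← LL_apply, map_smul, LL_apply, U, smul_eq_mul]
  ring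

theorem U_pos (x : Hyp n) {y : Fin (n + 1) → ℝ} (hy : y ∈ cone n) : 0 < U x.1 y := by
  rw [← uu_proj x hy]
  exact one_pos.trans_le (one_le_uu _ _)

theorem ext_eq (φ : ℝ → ℝ) (x : Hyp n) {y : Fin (n + 1) → ℝ} (hy : y ∈ cone n) :
    ext (fun y => φ (uu x y)) y = φ (U x.1 y) := by
  rw [ext, dif_pos hy, uu_proj]

theorem contDiffOn_U (a : Fin (n + 1) → ℝ) : ContDiffOn ℝ 2 (U a) (cone n) := by
  have h1 : ContDiff ℝ 2 fun y : Fin (n + 1) → ℝ => -lor a y := by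
    unfold lor
    fun_prop
  have h2 : ContDiff ℝ 2 fun y : Fin (n + 1) → ℝ => -lor y y := by
    unfold lor
    fun_prop
  exact h1.contDiffOn.mul ((h2.contDiffOn.sqrt fun y hy => (neg_pos.2 hy.1).ne').inv
    fun y hy => (Real.sqrt_pos.2 (neg_pos.2 hy.1)).ne')

theorem rr_coe (y : Hyp n) : rr y.1 = 1 := by simp [rr, y.2.1]

theorem U_coe (x y : Hyp n) : U x.1 y.1 = uu x y := by rw [U, rr_coe, mul_one, uu]

theorem pd_pd {φ : ℝ → ℝ} (hφ : ContDiffOn ℝ 2 φ (Set.Ioi 0)) (x y : Hyp n) (i : Fin (n + 1)) :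
    pd i (pd i (ext fun y => φ (uu x y))) y.1 =
      deriv (deriv φ) (uu x y) * (-x.1 i + uu x y * y.1 i) ^ 2 +
        deriv φ (uu x y) * (-2 * (x.1 i * y.1 i) + 3 * uu x y * (y.1 i * y.1 i) +
          uu x y * eps i) := by
  have h2 := (contDiffOn_succ_iff_deriv_of_isOpen (n := 1) isOpen_Ioi).1 hφ
  have d1 : ∀ t : ℝ, 0 < t → HasDerivAt φ (deriv φ t) t := fun t ht =>
    (h2.1.differentiableAt (Ioi_mem_nhds ht)).hasDerivAt
  have d2 : ∀ t : ℝ, 0 < t → HasDerivAt (deriv φ) (deriv (deriv φ) t) t := fun t ht =>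
    ((h2.2.2.differentiableOn one_ne_zero).differentiableAt (Ioi_mem_nhds ht)).hasDerivAt
  have e1 : pd i (ext fun y => φ (uu x y)) =ᶠ[nhds y.1] fun z =>
      deriv φ (U x.1 z) * (-rr z * (eps i * x.1 i) + U x.1 z * rr z ^ 2 * (eps i * z i)) := by
    filter_upwards [isOpen_cone.mem_nhds (mem_cone y)] with z hz
    have e0 : (ext fun y => φ (uu x y)) =ᶠ[nhds z] φ ∘ U x.1 := by
      filter_upwards [isOpen_cone.mem_nhds hz] with w hw
      exact ext_eq φ x hw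
    rw [pd, e0.fderiv_eq, ((d1 _ (U_pos x hz)).comp_hasFDerivAt z (hasFDerivAt_U x.1 hz)).fderiv]
    simp only [_root_.smul_apply, _root_.add_apply, smul_eq_mul,
      LL_single]
  have hU := hasFDerivAt_U x.1 (mem_cone y)
  have hr := hasFDerivAt_rr (mem_cone y)
  have hA := ((d2 _ (U_pos x (mem_cone y))).comp_hasFDerivAt y.1 hU).fun_mul
    ((hr.fun_neg.mul_const (eps i * x.1 i)).fun_add
      ((hU.fun_mul (hr.pow 2)).fun_mul ((hasFDerivAt_apply i y.1).const_mul (eps i))))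
  rw [pd, e1.fderiv_eq]
  refine (congrArg (fun T : (Fin (n + 1) → ℝ) →L[ℝ] ℝ => T (Pi.single i 1)) hA.fderiv).trans ?_
  have := eps_sq i
  simp only [_root_.smul_apply, _root_.add_apply,
    _root_.neg_apply, smul_eq_mul, LL_single, rr_coe, U_coe, Function.comp,
    ContinuousLinearMap.proj_apply, Pi.single_eq_same, nsmul_eq_mul]
  push_cast
  linear_combination (deriv (deriv φ) (uu x y) * (-x.1 i + uu x y * y.1 i) ^ 2 +
    deriv φ (uu x y) * (-2 * (x.1 i * y.1 i) + 3 * uu x y * (y.1 i * y.1 i))) * this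

end LapUAux

open LapUAux

theorem c2_comp_uu {φ : ℝ → ℝ} (hφ : ContDiffOn ℝ 2 φ (Set.Ioi 0)) (x : Hyp n) :
    C2 fun y => φ (uu x y) :=
  (hφ.comp (contDiffOn_U x.1) fun _ hy => U_pos x hy).congr fun _ hy => ext_eq φ x hy

theorem lap_comp_uu {φ : ℝ → ℝ} (hφ : ContDiffOn ℝ 2 φ (Set.Ioi 0)) (x y : Hyp n) :
    lap (fun y => φ (uu x y)) y =
      (uu x y ^ 2 - 1) * deriv (deriv φ) (uu x y) + n * uu x y * deriv φ (uu x y) := by
  have hx : ∑ i, eps i * (x.1 i * x.1 i) = -1 := by rw [← lor_eq, x.2.1]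
  have hy : ∑ i, eps i * (y.1 i * y.1 i) = -1 := by rw [← lor_eq, y.2.1]
  have hxy : ∑ i, eps i * (x.1 i * y.1 i) = -uu x y := by rw [← lor_eq, uu, neg_neg]
  have h1 : ∑ i : Fin (n + 1), eps i * eps i = n + 1 := by simp [eps_sq]
  rw [lap, box, ← sum_eps fun i => pd i (pd i (ext fun y => φ (uu x y))) y.1]
  have e : ∀ i, eps i * pd i (pd i (ext fun y => φ (uu x y))) y.1 =
      deriv (deriv φ) (uu x y) * (eps i * (x.1 i * x.1 i)) +
      (-2 * uu x y * deriv (deriv φ) (uu x y) - 2 * deriv φ (uu x y)) * (eps i * (x.1 i * y.1 i)) +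
      (uu x y ^ 2 * deriv (deriv φ) (uu x y) + 3 * uu x y * deriv φ (uu x y)) *
        (eps i * (y.1 i * y.1 i)) + uu x y * deriv φ (uu x y) * (eps i * eps i) := fun i => by
    rw [pd_pd hφ]
    ring
  simp only [e, Finset.sum_add_distrib, ← Finset.mul_sum, hx, hy, hxy, h1]
  ring

theorem lap_ker (s : ℕ) (x y : Hyp n) :
    lap (fun y => (uu x y)⁻¹ ^ s) y =
      s * ((s : ℝ) + 1 - n) * (uu x y)⁻¹ ^ s - s * ((s : ℝ) + 1) * (uu x y)⁻¹ ^ (s + 2) := by
  have hu : 0 < uu x y := one_pos.trans_le (one_le_uu x y)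
  have d : ∀ (k : ℕ) (t : ℝ), 0 < t → HasDerivAt (fun t : ℝ => t⁻¹ ^ k) (-k * t⁻¹ ^ (k + 1)) t := by
    intro k t ht
    refine ((hasDerivAt_inv ht.ne').fun_pow k).congr_deriv ?_
    cases k with
    | zero => simp
    | succ k =>
      rw [Nat.add_sub_cancel, ← inv_pow]
      ring
  have e1 : deriv (fun t : ℝ => t⁻¹ ^ s) =ᶠ[nhds (uu x y)] fun t => -s * t⁻¹ ^ (s + 1) := by
    filter_upwards [Ioi_mem_nhds hu] with t ht
    exact (d s t ht).deriv
  have hφ : ContDiffOn ℝ 2 (fun t : ℝ => t⁻¹ ^ s) (Set.Ioi 0) :=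
    (contDiffOn_id.inv fun t ht => ne_of_gt ht).pow s
  rw [lap_comp_uu hφ, e1.deriv_eq, ((d (s + 1) _ hu).const_mul _).deriv, (d s _ hu).deriv]
  push_cast
  simp only [pow_succ]
  field_simp
  ring

end Pool.Agent.P.MP_3c2f8c_gt
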