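import Pool.Agent.P.MP_3c2f8c_gt.An.Meas
import Pool.Agent.P.MP_3c2f8c_gt.An.LapU

/-! AN-7: smoothing and the second half of the commutation. -/

namespace Pool.Agent.P.MP_3c2f8c_gt

open Matrix MeasureTheory
open scoped ENNReal

variable {n : ℕ}

namespace SmoothTAux

/-- The coefficients of the linear form `x ↦ -lor x y`. -/
def co (y : Hyp n) (i : Fin (n + 1)) : ℝ := if i = 0 then y.1 0 else -y.1 i

theorem neg_lor_eq (x : Fin (n + 1) → ℝ) (y : Hyp n) : -lor x y.1 = ∑ i, co y i * x i := by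
  rw [Fin.sum_univ_succ, lor]
  simp only [co, if_true, Fin.succ_ne_zero, if_false, neg_mul, Finset.sum_neg_distrib]
  simp only [mul_comm]
  ring

theorem one_le_zero (y : Hyp n) : 1 ≤ y.1 0 := by
  rw [← uu_orig]
  exact one_le_uu _ _

theorem abs_co_le (y : Hyp n) (i : Fin (n + 1)) : |co y i| ≤ y.1 0 := by
  unfold co
  split_ifs
  · exact (abs_of_pos y.2.2).le
  · rw [abs_neg, ← uu_orig]
    exact abs_coord_le y i

theorem measurable_coord (i : Fin (n + 1)) : Measurable fun y : Hyp n => y.1 i :=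
  (measurable_pi_apply i).comp measurable_subtype_coe

theorem measurable_co (i : Fin (n + 1)) : Measurable fun y : Hyp n => co y i := by
  unfold co
  split_ifs
  · exact measurable_coord 0
  · exact (measurable_coord i).neg

theorem uu_proj {x : Fin (n + 1) → ℝ} (hx : x ∈ cone n) (y : Hyp n) :
    uu (proj x hx) y = (√(-lor x x))⁻¹ * -lor x y.1 := by
  rw [uu, neg_lor_eq, neg_lor_eq x y, Finset.mul_sum]
  refine Finset.sum_congr rfl fun i _ => ?_
  simp only [proj, Pi.smul_apply, smul_eq_mul]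
  ring

theorem lower {x₁ : Fin (n + 1) → ℝ} (hx : x₁ ∈ cone n) :
    ∃ ε c : ℝ, 0 < ε ∧ 0 < c ∧ ∀ x ∈ Metric.ball x₁ ε, ∀ y : Hyp n, c * y.1 0 ≤ -lor x y.1 := by
  have hr : 0 < √(-lor x₁ x₁) := Real.sqrt_pos.2 (neg_pos.2 hx.1)
  have hu : 0 < uu (orig n) (proj x₁ hx) := lt_of_lt_of_le one_pos (one_le_uu _ _)
  obtain ⟨c, hc⟩ : ∃ c : ℝ, c = √(-lor x₁ x₁) / (4 * uu (orig n) (proj x₁ hx)) := ⟨_, rfl⟩
  have hc0 : 0 < c := by rw [hc]; positivity
  refine ⟨c / (n + 1), c, by positivity, hc0, fun x hxb y => ?_⟩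
  have h1 : 2 * c * y.1 0 ≤ -lor x₁ y.1 := by
    have h2 := uu_le_two_mul (orig n) (proj x₁ hx) y
    rw [uu_orig y, uu_proj hx y] at h2
    have h3 : 2 * c * (2 * uu (orig n) (proj x₁ hx) * ((√(-lor x₁ x₁))⁻¹ * -lor x₁ y.1)) =
        -lor x₁ y.1 := by
      rw [hc]
      field_simp
      norm_num
    rw [← h3]
    exact mul_le_mul_of_nonneg_left h2 (by positivity)
  have h4 : -lor x₁ y.1 - -lor x y.1 ≤ c * y.1 0 := by
    rw [neg_lor_eq, neg_lor_eq, ← Finset.sum_sub_distrib]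
    have h5 : ∀ i ∈ (Finset.univ : Finset (Fin (n + 1))),
        co y i * x₁ i - co y i * x i ≤ y.1 0 * (c / (n + 1)) := by
      intro i _
      rw [← mul_sub]
      refine (le_abs_self _).trans ?_
      rw [abs_mul]
      refine mul_le_mul (abs_co_le y i) ?_ (abs_nonneg _) y.2.2.le
      rw [abs_sub_comm, ← Real.dist_eq]
      exact (dist_le_pi_dist x x₁ i).trans (Metric.mem_ball.1 hxb).le
    refine (Finset.sum_le_card_nsmul _ _ _ h5).trans (le_of_eq ?_)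
    rw [Finset.card_univ, Fintype.card_fin, nsmul_eq_mul]
    push_cast
    field_simp
  linarith

/-- Measurable functions of growth of order `j`. -/
def Good (j : ℕ) (g : Hyp n → ℝ) : Prop :=
  Measurable g ∧ ∃ C : ℝ, ∀ y, |g y| ≤ C * y.1 0 ^ j

/-- The function that appears in the derivative. -/
def dd (m : ℕ) (i : Fin (n + 1)) (g : Hyp n → ℝ) (y : Hyp n) : ℝ := -(m : ℝ) * co y i * g y

theorem Good.dd {j : ℕ} {g : Hyp n → ℝ} (h : Good j g) (m : ℕ) (i : Fin (n + 1)) :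
    Good (j + 1) (dd m i g) := by
  obtain ⟨h1, C, hC⟩ := h
  refine ⟨((measurable_co i).const_mul _).mul h1, m * C, fun y => ?_⟩
  rw [SmoothTAux.dd, abs_mul, abs_mul, abs_neg, Nat.abs_cast, mul_assoc, mul_assoc]
  refine mul_le_mul_of_nonneg_left ?_ (Nat.cast_nonneg m)
  refine (mul_le_mul (abs_co_le y i) (hC y) (abs_nonneg _) y.2.2.le).trans (le_of_eq ?_)
  ring

/-- The integrand. -/
noncomputable def tm (m : ℕ) (g : Hyp n → ℝ) (x : Fin (n + 1) → ℝ) (y : Hyp n) : ℝ :=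
  (-lor x y.1)⁻¹ ^ m * g y

theorem measurable_tm (m : ℕ) {g : Hyp n → ℝ} (hg : Measurable g) (x : Fin (n + 1) → ℝ) :
    Measurable (tm m g x) := by
  have h : Measurable fun y : Hyp n => -lor x y.1 := by
    simp only [neg_lor_eq]
    exact Finset.measurable_sum _ fun i _ => (measurable_co i).mul_const _
  exact (h.inv.pow_const m).mul hg

theorem abs_tm_le {s j : ℕ} {g : Hyp n → ℝ} {C c : ℝ} (hc : 0 < c)
    (hC : ∀ y, |g y| ≤ C * y.1 0 ^ j) {x : Fin (n + 1) → ℝ} {y : Hyp n}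
    (h : c * y.1 0 ≤ -lor x y.1) : |tm (s + j) g x y| ≤ c⁻¹ ^ (s + j) * C * (y.1 0)⁻¹ ^ s := by
  have hy := y.2.2
  have h0 : 0 < c * y.1 0 := mul_pos hc hy
  have h1 : (-lor x y.1)⁻¹ ≤ (c * y.1 0)⁻¹ := inv_anti₀ h0 h
  have h2 : 0 ≤ (-lor x y.1)⁻¹ := inv_nonneg.2 (h0.le.trans h)
  rw [tm, abs_mul, abs_of_nonneg (pow_nonneg h2 _)]
  refine (mul_le_mul (pow_le_pow_left₀ h2 h1 _) (hC y) (abs_nonneg _) (by positivity)).trans
    (le_of_eq ?_)
  rw [mul_inv, mul_pow, pow_add (y.1 0)⁻¹, inv_pow (y.1 0) j]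
  field_simp

/-- The family of integrals. -/
noncomputable def fam (μ : Measure (Hyp n)) (m : ℕ) (g : Hyp n → ℝ) (x : Fin (n + 1) → ℝ) : ℝ :=
  ∫ y, tm m g x y ∂μ

theorem hasFDerivAt_tm (m : ℕ) (g : Hyp n → ℝ) {x : Fin (n + 1) → ℝ} {y : Hyp n}
    (h : -lor x y.1 ≠ 0) : HasFDerivAt (fun x => tm m g x y)
      (∑ i, tm (m + 1) (dd m i g) x y •
        (ContinuousLinearMap.proj i : (Fin (n + 1) → ℝ) →L[ℝ] ℝ)) x := by
  have h1 : HasFDerivAt (fun x : Fin (n + 1) → ℝ => -lor x y.1)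
      (∑ i, co y i • (ContinuousLinearMap.proj i : (Fin (n + 1) → ℝ) →L[ℝ] ℝ)) x := by
    simp only [neg_lor_eq]
    exact HasFDerivAt.fun_sum fun i _ => (hasFDerivAt_apply i x).const_mul (co y i)
  have h2 : HasDerivAt (fun t : ℝ => t⁻¹ ^ m * g y)
      (-(m : ℝ) * (-lor x y.1)⁻¹ ^ (m + 1) * g y) (-lor x y.1) := by
    refine (((hasDerivAt_inv h).pow m).mul_const (g y)).congr_deriv ?_
    rcases m with _ | m
    · simp
    · rw [Nat.add_sub_cancel, ← inv_pow]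
      ring
  refine (h2.comp_hasFDerivAt x h1).congr_fderiv ?_
  rw [Finset.smul_sum]
  refine Finset.sum_congr rfl fun i _ => ?_
  rw [smul_smul, tm, dd]
  congr 1
  ring

variable {μ : Measure (Hyp n)} {s : ℕ}

theorem integrable_tm (hμ : Integrable (fun y : Hyp n => (y.1 0)⁻¹ ^ s) μ) {j : ℕ}
    {g : Hyp n → ℝ} (hg : Good j g) {x : Fin (n + 1) → ℝ} (hx : x ∈ cone n) :
    Integrable (tm (s + j) g x) μ := by
  obtain ⟨ε, c, hε, hc, h⟩ := lower hx
  obtain ⟨h1, C, hC⟩ := hg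
  refine (hμ.const_mul (c⁻¹ ^ (s + j) * C)).mono' (measurable_tm _ h1 x).aestronglyMeasurable
    (Filter.Eventually.of_forall fun y => ?_)
  exact abs_tm_le hc hC (h x (Metric.mem_ball_self hε) y)

theorem integrable_sum {V Y ι : Type} [NormedAddCommGroup V] [MeasurableSpace Y] [Fintype ι]
    {ν : Measure Y} (f : ι → Y → V) (h : ∀ i, Integrable (f i) ν) :
    Integrable (fun y => ∑ i, f i y) ν :=
  integrable_finsetSum Finset.univ fun i _ => h i

theorem deriv_aux {E Y ι : Type} [NormedAddCommGroup E] [NormedSpace ℝ E] [MeasurableSpace Y]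
    [Fintype ι] {ν : Measure Y} (p : ι → E →L[ℝ] ℝ) (hp : ∀ i, ‖p i‖ ≤ 1) {F : E → Y → ℝ}
    {a : ι → E → Y → ℝ} {bd : ι → Y → ℝ} {S : Set E} {x₀ : E} (hS : S ∈ nhds x₀)
    (h1 : ∀ x, AEStronglyMeasurable (F x) ν) (h2 : Integrable (F x₀) ν)
    (h3 : ∀ i, Integrable (a i x₀) ν) (h4 : ∀ i y, ∀ x ∈ S, |a i x y| ≤ bd i y)
    (h5 : ∀ i, Integrable (bd i) ν)
    (h6 : ∀ y, ∀ x ∈ S, HasFDerivAt (fun x => F x y) (∑ i, a i x y • p i) x) :
    HasFDerivAt (fun x => ∫ y, F x y ∂ν) (∑ i, (∫ y, a i x₀ y ∂ν) • p i) x₀ := by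
  have hi : ∀ i, Integrable (fun y => a i x₀ y • p i) ν := fun i => (h3 i).smul_const _
  have hi' : Integrable (fun y => ∑ i, a i x₀ y • p i) ν := integrable_sum _ hi
  have hb : ∀ y, ∀ x ∈ S, ‖∑ i, a i x y • p i‖ ≤ ∑ i, bd i y := by
    intro y x hx
    refine (norm_sum_le _ _).trans (Finset.sum_le_sum fun i _ => ?_)
    rw [norm_smul, Real.norm_eq_abs]
    exact (mul_le_of_le_one_right (abs_nonneg _) (hp i)).trans (h4 i y x hx)
  have key := hasFDerivAt_integral_of_dominated_of_fderiv_le (𝕜 := ℝ) (μ := ν) (F := F)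
    (F' := fun x y => ∑ i, a i x y • p i) (bound := fun y => ∑ i, bd i y) hS
    (Filter.Eventually.of_forall h1) h2 hi'.aestronglyMeasurable (Filter.Eventually.of_forall hb)
    (integrable_finsetSum Finset.univ fun i _ => h5 i) (Filter.Eventually.of_forall h6)
  have e : ∫ y, ∑ i, a i x₀ y • p i ∂ν = ∑ i, (∫ y, a i x₀ y ∂ν) • p i := by
    rw [integral_finsetSum _ fun i _ => hi i]
    exact Finset.sum_congr rfl fun i _ => integral_smul_const _ _
  rw [← e]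
  exact key

theorem hasFDerivAt_fam (hμ : Integrable (fun y : Hyp n => (y.1 0)⁻¹ ^ s) μ) {j : ℕ}
    {g : Hyp n → ℝ} (hg : Good j g) {x : Fin (n + 1) → ℝ} (hx : x ∈ cone n) :
    HasFDerivAt (fam μ (s + j) g) (∑ i, fam μ (s + (j + 1)) (dd (s + j) i g) x •
      (ContinuousLinearMap.proj i : (Fin (n + 1) → ℝ) →L[ℝ] ℝ)) x := by
  obtain ⟨ε, c, hε, hc, h⟩ := lower hx
  choose C hC using fun i => (hg.dd (s + j) i).2
  have h1 : ∀ i, ‖(ContinuousLinearMap.proj i : (Fin (n + 1) → ℝ) →L[ℝ] ℝ)‖ ≤ 1 := fun i =>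
    ContinuousLinearMap.opNorm_le_bound _ zero_le_one fun v => by
      rw [one_mul]
      exact norm_le_pi_norm v i
  exact deriv_aux (ν := μ) _ h1 (F := tm (s + j) g)
    (a := fun i => tm (s + (j + 1)) (dd (s + j) i g))
    (bd := fun i y => c⁻¹ ^ (s + (j + 1)) * C i * (y.1 0)⁻¹ ^ s) (Metric.ball_mem_nhds x hε)
    (fun x' => (measurable_tm _ hg.1 x').aestronglyMeasurable) (integrable_tm hμ hg hx)
    (fun i => integrable_tm hμ (hg.dd (s + j) i) hx)
    (fun i y x' hx' => abs_tm_le hc (hC i) (h x' hx' y)) (fun i => hμ.const_mul _)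
    (fun y x' hx' => hasFDerivAt_tm (s + j) g ((mul_pos hc y.2.2).trans_le (h x' hx' y)).ne')

theorem contDiffOn_fam_nat (hμ : Integrable (fun y : Hyp n => (y.1 0)⁻¹ ^ s) μ) (k : ℕ) :
    ∀ (j : ℕ) (g : Hyp n → ℝ), Good j g → ContDiffOn ℝ k (fam μ (s + j) g) (cone n) := by
  induction k with
  | zero =>
    intro j g hg
    rw [Nat.cast_zero, contDiffOn_zero]
    exact fun x hx => (hasFDerivAt_fam hμ hg hx).continuousAt.continuousWithinAt
  | succ k ih =>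
    intro j g hg
    rw [Nat.cast_succ, contDiffOn_succ_iff_fderiv_of_isOpen isOpen_cone]
    refine ⟨fun x hx => (hasFDerivAt_fam hμ hg hx).differentiableAt.differentiableWithinAt,
      fun h => absurd h (by simp), ?_⟩
    refine ContDiffOn.congr ?_ fun x hx => (hasFDerivAt_fam hμ hg hx).fderiv
    exact ContDiffOn.sum fun i _ => (ih (j + 1) _ (hg.dd (s + j) i)).smul contDiffOn_const

theorem contDiffOn_fam (hμ : Integrable (fun y : Hyp n => (y.1 0)⁻¹ ^ s) μ) {j : ℕ}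
    {g : Hyp n → ℝ} (hg : Good j g) : ContDiffOn ℝ (⊤ : ℕ∞) (fam μ (s + j) g) (cone n) :=
  contDiffOn_infty.2 fun k => contDiffOn_fam_nat hμ k j g hg

theorem pd_fam (hμ : Integrable (fun y : Hyp n => (y.1 0)⁻¹ ^ s) μ) {j : ℕ}
    {g : Hyp n → ℝ} (hg : Good j g) (i : Fin (n + 1)) {x : Fin (n + 1) → ℝ} (hx : x ∈ cone n) :
    pd i (fam μ (s + j) g) x = fam μ (s + (j + 1)) (dd (s + j) i g) x := by
  rw [pd, (hasFDerivAt_fam hμ hg hx).fderiv]
  simp [Pi.single_apply]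

theorem pd_congr {F G : (Fin (n + 1) → ℝ) → ℝ} (h : ∀ x ∈ cone n, F x = G x) (i : Fin (n + 1)) :
    ∀ x ∈ cone n, pd i F x = pd i G x := by
  intro x hx
  have h1 : F =ᶠ[nhds x] G := by
    filter_upwards [isOpen_cone.mem_nhds hx] with y hy using h y hy
  rw [pd, pd, h1.fderiv_eq]

theorem diffAt {F : (Fin (n + 1) → ℝ) → ℝ} (hF : ContDiffOn ℝ (⊤ : ℕ∞) F (cone n))
    {x : Fin (n + 1) → ℝ} (hx : x ∈ cone n) : DifferentiableAt ℝ F x :=
  (hF.contDiffAt (isOpen_cone.mem_nhds hx)).differentiableAt (by simp)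

theorem contDiffOn_pd {F : (Fin (n + 1) → ℝ) → ℝ} (hF : ContDiffOn ℝ (⊤ : ℕ∞) F (cone n))
    (i : Fin (n + 1)) : ContDiffOn ℝ (⊤ : ℕ∞) (pd i F) (cone n) :=
  ((contDiffOn_infty_iff_fderiv_of_isOpen isOpen_cone).1 hF).2.clm_apply contDiffOn_const

theorem pd_mul {F G : (Fin (n + 1) → ℝ) → ℝ} (i : Fin (n + 1)) {x : Fin (n + 1) → ℝ}
    (hF : DifferentiableAt ℝ F x) (hG : DifferentiableAt ℝ G x) :
    pd i (fun x => F x * G x) x = pd i F x * G x + F x * pd i G x := by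
  rw [pd, fderiv_fun_mul hF hG]
  simp only [pd, _root_.add_apply, _root_.smul_apply, smul_eq_mul]
  ring

theorem pd_add {F G : (Fin (n + 1) → ℝ) → ℝ} (i : Fin (n + 1)) {x : Fin (n + 1) → ℝ}
    (hF : DifferentiableAt ℝ F x) (hG : DifferentiableAt ℝ G x) :
    pd i (fun x => F x + G x) x = pd i F x + pd i G x := by
  rw [pd, fderiv_fun_add hF hG]
  rfl

theorem pd_pd_mul {F G : (Fin (n + 1) → ℝ) → ℝ} (hF : ContDiffOn ℝ (⊤ : ℕ∞) F (cone n))
    (hG : ContDiffOn ℝ (⊤ : ℕ∞) G (cone n)) (i : Fin (n + 1)) {x : Fin (n + 1) → ℝ}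
    (hx : x ∈ cone n) : pd i (pd i fun x => F x * G x) x =
      pd i (pd i F) x * G x + 2 * pd i F x * pd i G x + F x * pd i (pd i G) x := by
  have h1 := diffAt hF hx
  have h2 := diffAt hG hx
  have h3 := diffAt (contDiffOn_pd hF i) hx
  have h4 := diffAt (contDiffOn_pd hG i) hx
  rw [pd_congr (fun y hy => pd_mul i (diffAt hF hy) (diffAt hG hy)) i x hx,
    pd_add i (h3.fun_mul h2) (h1.fun_mul h4), pd_mul i h3 h2, pd_mul i h1 h4]
  ring

/-- The radial factor. -/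
noncomputable def rr (s : ℕ) (x : Fin (n + 1) → ℝ) : ℝ := √(-lor x x) ^ s

theorem contDiffOn_rr (s : ℕ) : ContDiffOn ℝ (⊤ : ℕ∞) (rr (n := n) s) (cone n) := by
  have h : ContDiff ℝ (⊤ : ℕ∞) fun x : Fin (n + 1) → ℝ => -lor x x := by
    unfold lor
    fun_prop
  exact (h.contDiffOn.sqrt fun x hx => (neg_pos.2 hx.1).ne').pow s

/-- The operator for a general measure. -/
noncomputable def tt (μ : Measure (Hyp n)) (s : ℕ) (g : Hyp n → ℝ) (x : Hyp n) : ℝ :=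
  ∫ y, (uu x y)⁻¹ ^ s * g y ∂μ

theorem ext_tt (μ : Measure (Hyp n)) (s : ℕ) (g : Hyp n → ℝ) :
    ∀ x ∈ cone n, ext (tt μ s g) x = rr s x * fam μ (s + 0) g x := by
  intro x hx
  rw [ext, dif_pos hx, tt, fam, ← integral_const_mul]
  congr 1
  funext y
  rw [uu_proj, mul_inv, inv_inv, mul_pow, rr, tm, add_zero, mul_assoc]

/-- The second derivative of the kernel. -/
noncomputable def bb (s : ℕ) (i : Fin (n + 1)) (x : Fin (n + 1) → ℝ) (y : Hyp n) : ℝ :=
  pd i (pd i (rr s)) x * (-lor x y.1)⁻¹ ^ s +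
    2 * pd i (rr s) x * ((-lor x y.1)⁻¹ ^ (s + 1) * (-(s : ℝ) * co y i)) +
    rr s x * ((-lor x y.1)⁻¹ ^ (s + 2) * (-((s + 1 : ℕ) : ℝ) * co y i * (-(s : ℝ) * co y i)))

theorem bb_mul (s : ℕ) (i : Fin (n + 1)) (x : Fin (n + 1) → ℝ) (g : Hyp n → ℝ) :
    (fun y => bb s i x y * g y) = fun y => pd i (pd i (rr s)) x * tm (s + 0) g x y +
      2 * pd i (rr s) x * tm (s + (0 + 1)) (dd (s + 0) i g) x y +
      rr s x * tm (s + (0 + 1 + 1)) (dd (s + (0 + 1)) i (dd (s + 0) i g)) x y := by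
  funext y
  simp only [bb, tm, dd, add_zero, zero_add]
  ring

theorem integrable_bb (hμ : Integrable (fun y : Hyp n => (y.1 0)⁻¹ ^ s) μ)
    {g : Hyp n → ℝ} (hg : Good 0 g) (i : Fin (n + 1)) {x : Fin (n + 1) → ℝ} (hx : x ∈ cone n) :
    Integrable (fun y => bb s i x y * g y) μ := by
  rw [bb_mul]
  exact (((integrable_tm hμ hg hx).const_mul _).add
    ((integrable_tm hμ (hg.dd _ i) hx).const_mul _)).add
    ((integrable_tm hμ ((hg.dd _ i).dd _ i) hx).const_mul _)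

theorem pd_pd_tt (hμ : Integrable (fun y : Hyp n => (y.1 0)⁻¹ ^ s) μ)
    {g : Hyp n → ℝ} (hg : Good 0 g) (i : Fin (n + 1)) {x : Fin (n + 1) → ℝ} (hx : x ∈ cone n) :
    pd i (pd i (ext (tt μ s g))) x = ∫ y, bb s i x y * g y ∂μ := by
  have h1 := (integrable_tm hμ hg hx).const_mul (pd i (pd i (rr s)) x)
  have h2 := (integrable_tm hμ (hg.dd (s + 0) i) hx).const_mul (2 * pd i (rr s) x)
  have h3 := (integrable_tm hμ ((hg.dd (s + 0) i).dd (s + (0 + 1)) i) hx).const_mul (rr s x)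
  rw [pd_congr (pd_congr (ext_tt μ s g) i) i x hx,
    pd_pd_mul (contDiffOn_rr s) (contDiffOn_fam hμ hg) i hx,
    pd_congr (fun y hy => pd_fam hμ hg i hy) i x hx, pd_fam hμ hg i hx,
    pd_fam hμ (hg.dd _ i) i hx, bb_mul, integral_add (h1.fun_add h2) h3, integral_add h1 h2,
    integral_const_mul, integral_const_mul, integral_const_mul]
  rfl

theorem lap_tt (hμ : Integrable (fun y : Hyp n => (y.1 0)⁻¹ ^ s) μ)
    {g : Hyp n → ℝ} (hg : Good 0 g) (x : Hyp n) :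
    lap (tt μ s g) x = ∫ y, (∑ i : Fin n, bb s i.succ x.1 y - bb s 0 x.1 y) * g y ∂μ := by
  have hx := mem_cone x
  simp only [lap, box, pd_pd_tt hμ hg _ hx, sub_mul, Finset.sum_mul]
  rw [integral_sub (integrable_finsetSum _ fun i _ => integrable_bb hμ hg _ hx)
    (integrable_bb hμ hg 0 hx), integral_finsetSum _ fun i _ => integrable_bb hμ hg _ hx]

theorem sum_bb (s : ℕ) (x y : Hyp n) : ∑ i : Fin n, bb s i.succ x.1 y - bb s 0 x.1 y =
    s * ((s : ℝ) + 1 - n) * (uu x y)⁻¹ ^ s - s * ((s : ℝ) + 1) * (uu x y)⁻¹ ^ (s + 2) := by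
  have h1 : Good 0 fun _ : Hyp n => (1 : ℝ) := ⟨measurable_const, 1, fun _ => by simp⟩
  have h2 := lap_tt (μ := Measure.dirac y) (s := s) (integrable_dirac enorm_lt_top) h1 x
  have h3 : tt (Measure.dirac y) s (fun _ => (1 : ℝ)) = fun x => (uu y x)⁻¹ ^ s := by
    funext x
    rw [tt, integral_dirac, mul_one, uu_comm]
  rw [h3, lap_ker, integral_dirac, mul_one, uu_comm y x] at h2
  exact h2.symm

theorem integrable_hm (hs : n + 1 ≤ s) : Integrable (fun y : Hyp n => (y.1 0)⁻¹ ^ s) (hm n) := by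
  simpa only [uu_orig] using integrable_ker hs (orig n)

theorem good_of_bdd {g : Hyp n → ℝ} (hg : Measurable g) (hb : ∃ C, ∀ x, |g x| ≤ C) :
    Good 0 g := ⟨hg, by simpa using hb⟩

end SmoothTAux

open SmoothTAux

theorem smooth_TT {s : ℕ} (hs : n + 1 ≤ s) {g : Hyp n → ℝ} (hg : Measurable g)
    (hb : ∃ C, ∀ x, |g x| ≤ C) : Smooth (TT s g) :=
  ((contDiffOn_rr s).mul (contDiffOn_fam (integrable_hm hs) (good_of_bdd hg hb))).congr
    (ext_tt (hm n) s g)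

theorem lap_TT {s : ℕ} (hs : n + 1 ≤ s) {g : Hyp n → ℝ} (hg : Measurable g)
    (hb : ∃ C, ∀ x, |g x| ≤ C) (x : Hyp n) :
    lap (TT s g) x = s * ((s : ℝ) + 1 - n) * TT s g x - s * ((s : ℝ) + 1) * TT (s + 2) g x := by
  have h := lap_tt (integrable_hm hs) (good_of_bdd hg hb) x
  obtain ⟨C, hC⟩ := hb
  have h1 : ∀ {t : ℕ}, n + 1 ≤ t → Integrable (fun y => (uu x y)⁻¹ ^ t * g y) (hm n) :=
    fun ht => (integrable_ker ht x).mul_bdd hg.aestronglyMeasurable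
      (Filter.Eventually.of_forall hC)
  change lap (tt (hm n) s g) x = _
  rw [h, TT, TT, ← integral_const_mul, ← integral_const_mul,
    ← integral_sub ((h1 hs).const_mul _) ((h1 (by omega)).const_mul _)]
  congr 1
  funext y
  rw [sum_bb]
  ring

end Pool.Agent.P.MP_3c2f8c_gt
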