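import Pool.Agent.P.MP_3c2f8c_gt.An.Per
import Pool.Agent.P.MP_3c2f8c_gt.An.Op
import Pool.Agent.P.MP_3c2f8c_gt.An.SmoothT
import Pool.Agent.P.MP_3c2f8c_gt.An.EigT

/-! AN-16: the eigenspaces of the integral operator are the eigenspaces of the Laplacian. -/

namespace Pool.Agent.P.MP_3c2f8c_gt

open Matrix MeasureTheory
open scoped ENNReal

variable {n : ℕ}

variable {G Z : Type} [Group G] [MulAction G (Hyp n)] [MulAction G Z] {ρ : G →* Oplus n}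
  [Countable G] [Countable Z] [MeasurableSpace Z] [DiscreteMeasurableSpace Z]

theorem eigX_neg (N : Nice G Z ρ) {ev : ℝ} (hev : ev < 0) : EigX (n := n) G Z ev = ⊥ := by
  refine (Submodule.eq_bot_iff _).2 fun f hf => ?_
  obtain ⟨-, C, hC⟩ := N.bdd (fun z => (hf.1 z).1.c2.continuous) hf.2
  funext w
  exact congrFun (eq_zero_of_neg hev (hf.1 w.2).1.c2 ⟨C, fun x => hC _⟩ (hf.1 w.2).2.2) w.1

namespace IdentAux

/-- Invariant functions that are continuous in the first variable. -/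
def CI (n : ℕ) (G Z : Type) [Group G] [MulAction G (Hyp n)] [MulAction G Z] :
    Submodule ℝ (Hyp n × Z → ℝ) where
  carrier := {f | (∀ z, Continuous fun x => f (x, z)) ∧ ∀ (g : G) w, f (g • w) = f w}
  zero_mem' := ⟨fun _ => continuous_const, fun _ _ => rfl⟩
  add_mem' := fun hf hg => ⟨fun z => (hf.1 z).add (hg.1 z), fun g w => by simp [hf.2 g w, hg.2 g w]⟩
  smul_mem' := fun c _ hf => ⟨fun z => (hf.1 z).const_smul c, fun g w => by simp [hf.2 g w]⟩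

theorem exists_res (N : Nice G Z ρ) {D : Set (Hyp n × Z)} (hD : GoodFD G D) :
    ∃ r : CI n G Z →ₗ[ℝ] Lp ℝ 2 ((xm n Z).restrict D), Function.Injective r ∧
      ∀ f, (r f : Hyp n × Z → ℝ) =ᵐ[(xm n Z).restrict D] f.1 := by
  have := hD.finite
  have hm : ∀ f : CI n G Z, MemLp f.1 2 ((xm n Z).restrict D) := fun f => by
    obtain ⟨h1, C, hC⟩ := N.bdd f.2.1 f.2.2
    exact MemLp.of_bound h1.aestronglyMeasurable C (Filter.Eventually.of_forall hC)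
  let r : CI n G Z →ₗ[ℝ] Lp ℝ 2 ((xm n Z).restrict D) :=
    { toFun := fun f => (hm f).toLp f.1
      map_add' := fun f g => MemLp.toLp_add (hm f) (hm g)
      map_smul' := fun c f => MemLp.toLp_const_smul c (hm f) }
  have hr : ∀ f, (r f : Hyp n × Z → ℝ) =ᵐ[(xm n Z).restrict D] f.1 := fun f => (hm f).coeFn_toLp
  refine ⟨r, (injective_iff_map_eq_zero r).2 fun f hf => Subtype.ext ?_, hr⟩
  refine N.eq_zero_of_ae hD f.2.1 f.2.2 ((hr f).symm.trans ?_)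
  rw [hf]
  exact Lp.coeFn_zero _ _ _

theorem unfold_TT (N : Nice G Z ρ) {D : Set (Hyp n × Z)} (hD : GoodFD G D) {s : ℕ}
    (hs : n + 1 ≤ s) (f : CI n G Z) (w : Hyp n × Z) :
    ∫ v in D, (per G (ker1 s) 0 0 w v).toReal * f.1 v ∂xm n Z =
      TT s (fun y => f.1 (y, w.2)) w.1 := by
  obtain ⟨h1, hb⟩ := N.bdd f.2.1 f.2.2
  rw [integral_per N hD (adm_ker1 hs) (κ := 0) (fun z => by simp) (fun _ _ _ => rfl) 0 h1 hb f.2.2]
  refine integral_congr_ae (Filter.Eventually.of_forall fun y => ?_)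
  have h0 : 0 ≤ (uu w.1 y)⁻¹ ^ s :=
    pow_nonneg (inv_nonneg.2 (zero_le_one.trans (one_le_uu _ _))) _
  simp only [ker1, ENNReal.toReal_ofReal h0, pow_zero, Module.End.one_apply]

variable {D : Set (Hyp n × Z)} {r : CI n G Z →ₗ[ℝ] Lp ℝ 2 ((xm n Z).restrict D)}

theorem exists_lift (N : Nice G Z ρ) (hD : GoodFD G D) {s : ℕ} (hs : n + 1 ≤ s)
    (hr : ∀ f, (r f : Hyp n × Z → ℝ) =ᵐ[(xm n Z).restrict D] f.1)
    {T : Lp ℝ 2 ((xm n Z).restrict D) →L[ℝ] Lp ℝ 2 ((xm n Z).restrict D)}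
    (hT : IsOp _ (fun w v => (per G (ker1 s) 0 0 w v).toReal) T)
    (φ : Lp ℝ 2 ((xm n Z).restrict D)) :
    ∃ f : CI n G Z, r f = T φ ∧
      ∀ g : CI n G Z, r g = φ → ∀ w, f.1 w = TT s (fun y => g.1 (y, w.2)) w.1 := by
  have := hD.finite
  have hi : Integrable φ ((xm n Z).restrict D) := (Lp.memLp φ).integrable (by norm_num)
  refine ⟨⟨fun w => ∫ v in D, (per G (ker1 s) 0 0 w v).toReal * φ v ∂xm n Z,
    fun z => continuous_lift N hD hs 0 hi z, fun g w => ?_⟩, ?_, fun g hg w => ?_⟩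
  · simp only [per_smul_left N (adm_ker1 hs) (κ := 0) (fun _ _ _ => rfl)]
  · exact Lp.ext ((hr _).trans (hT φ).symm)
  · rw [← unfold_TT N hD hs g w]
    refine integral_congr_ae ?_
    filter_upwards [hr g] with v hv
    rw [← hg, hv]

theorem key (N : Nice G Z ρ) (hD : GoodFD G D) {s : ℕ} (hs : n + 1 ≤ s)
    (hinj : Function.Injective r)
    (hr : ∀ f, (r f : Hyp n × Z → ℝ) =ᵐ[(xm n Z).restrict D] f.1)
    {T T2 : Lp ℝ 2 ((xm n Z).restrict D) →L[ℝ] Lp ℝ 2 ((xm n Z).restrict D)}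
    (hT : IsOp _ (fun w v => (per G (ker1 s) 0 0 w v).toReal) T)
    (hT2 : IsOp _ (fun w v => (per G (ker1 (s + 2)) 0 0 w v).toReal) T2)
    {t : ℝ} (ht : t ≠ 0) {φ : Lp ℝ 2 ((xm n Z).restrict D)} (hφ : T φ = t • φ) :
    ∃ f f' : CI n G Z, r f = φ ∧ (∀ z, Smooth fun x => f.1 (x, z)) ∧
      (∀ w : Hyp n × Z, TT s (fun y => f.1 (y, w.2)) w.1 = t * f.1 w) ∧
      (∀ w : Hyp n × Z, lap (fun x => f.1 (x, w.2)) w.1 = f'.1 w) ∧
      r f' = t⁻¹ • ((s * ((s : ℝ) + 1 - n)) • T φ - (s * ((s : ℝ) + 1)) • T2 φ) ∧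
      T (r f') = t • r f' := by
  obtain ⟨f1, h1, h1'⟩ := exists_lift N hD hs hr hT φ
  obtain ⟨f2, h2, h2'⟩ := exists_lift N hD (by omega) hr hT2 φ
  obtain ⟨f, hf⟩ : ∃ f : CI n G Z, r f = φ :=
    ⟨t⁻¹ • f1, by rw [map_smul, h1, hφ, smul_smul, inv_mul_cancel₀ ht, one_smul]⟩
  have e1 : f1 = t • f := hinj (by rw [h1, hφ, map_smul, hf])
  have hTT : ∀ w : Hyp n × Z, TT s (fun y => f.1 (y, w.2)) w.1 = t * f.1 w := fun w => by
    rw [← h1' f hf w, e1]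
    rfl
  have hfz : ∀ z, (fun x => f.1 (x, z)) = t⁻¹ • TT s (fun y => f.1 (y, z)) := fun z => by
    funext x
    rw [Pi.smul_apply, hTT (x, z), smul_eq_mul, ← mul_assoc, inv_mul_cancel₀ ht, one_mul]
  obtain ⟨-, C, hC⟩ := N.bdd f.2.1 f.2.2
  have hb : ∀ z, ∃ C, ∀ x, |f.1 (x, z)| ≤ C := fun z => ⟨C, fun x => hC _⟩
  have hsm : ∀ z, Smooth fun x => f.1 (x, z) := fun z => by
    rw [hfz z, Smooth, ext_smul]
    exact ContDiffOn.const_smul t⁻¹ (smooth_TT hs (f.2.1 z).measurable (hb z))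
  obtain ⟨f', hf'⟩ : ∃ f' : CI n G Z,
      f' = t⁻¹ • ((s * ((s : ℝ) + 1 - n)) • f1 - (s * ((s : ℝ) + 1)) • f2) := ⟨_, rfl⟩
  have hf'w : ∀ w : Hyp n × Z, f'.1 w =
      t⁻¹ * (s * ((s : ℝ) + 1 - n) * TT s (fun y => f.1 (y, w.2)) w.1 -
        s * ((s : ℝ) + 1) * TT (s + 2) (fun y => f.1 (y, w.2)) w.1) := fun w => by
    rw [← h1' f hf w, ← h2' f hf w, hf']
    rfl
  have hlap : ∀ w : Hyp n × Z, lap (fun x => f.1 (x, w.2)) w.1 = f'.1 w := fun w => by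
    rw [hf'w, ← lap_TT hs (f.2.1 w.2).measurable (hb w.2), ← lap_smul, ← hfz]
  refine ⟨f, f', hf, hsm, hTT, hlap, ?_, ?_⟩
  · rw [hf', map_smul, map_sub, map_smul, map_smul, h1, h2]
  · obtain ⟨f3, h3, h3'⟩ := exists_lift N hD hs hr hT (r f')
    obtain ⟨-, C', hC'⟩ := N.bdd f'.2.1 f'.2.2
    rw [← h3, ← map_smul]
    refine congrArg r (Subtype.ext (funext fun w => ?_))
    have e : (fun y => f'.1 (y, w.2)) = lap fun x => f.1 (x, w.2) :=
      funext fun y => (hlap (y, w.2)).symm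
    rw [h3' f' rfl w, e, TT_lap hs (hsm w.2).c2 (hb w.2)
      ⟨C', fun x => by rw [hlap (x, w.2)]; exact hC' _⟩]
    change _ = t * f'.1 w
    rw [hf'w, ← mul_assoc, mul_inv_cancel₀ ht, one_mul]

theorem exists_basis {E : Type} [NormedAddCommGroup E] [InnerProductSpace ℝ E] {A : E →ₗ[ℝ] E}
    (hA : A.IsSymmetric) {V : Submodule ℝ E} [FiniteDimensional ℝ V] (hV : ∀ v ∈ V, A v ∈ V) :
    ∃ (m : ℕ) (b : Module.Basis (Fin m) ℝ V), ∀ i, ∃ μ : ℝ, A (b i).1 = μ • (b i).1 := by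
  have hA' := hA.restrict_invariant hV
  exact ⟨_, (hA'.eigenvectorBasis rfl).toBasis, fun i =>
    ⟨_, congrArg Subtype.val (hA'.apply_eigenvectorBasis rfl i)⟩⟩

theorem symm_comb {E : Type} [NormedAddCommGroup E] [InnerProductSpace ℝ E] {A B : E →ₗ[ℝ] E}
    (hA : A.IsSymmetric) (hB : B.IsSymmetric) (a b c : ℝ) :
    ∃ C : E →ₗ[ℝ] E, C.IsSymmetric ∧ ∀ v, C v = a • (b • A v - c • B v) :=
  ⟨a • (b • A - c • B), ((hA.smul (by simp)).sub (hB.smul (by simp))).smul (by simp),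
    fun _ => rfl⟩

/-- Structure of a nonzero eigenspace. -/
theorem main (N : Nice G Z ρ) (hD : GoodFD G D) {s : ℕ} (hs : n + 1 ≤ s) {h : ℝ → ℝ}
    (hh : IsSel n s h) (hinj : Function.Injective r)
    (hr : ∀ f, (r f : Hyp n × Z → ℝ) =ᵐ[(xm n Z).restrict D] f.1)
    {T : Lp ℝ 2 ((xm n Z).restrict D) →L[ℝ] Lp ℝ 2 ((xm n Z).restrict D)}
    (hT : IsOp _ (fun w v => (per G (ker1 s) 0 0 w v).toReal) T) {t : ℝ} (ht : t ≠ 0) :
    ∃ (m : ℕ) (b : Module.Basis (Fin m) ℝ (Module.End.eigenspace T.toLinearMap t)),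
      ∀ i, ∃ (ev : ℝ) (f : CI n G Z), 0 ≤ ev ∧ t = h ev ∧ f.1 ∈ EigX (n := n) G Z ev ∧
        r f = (b i).1 := by
  have := hD.finite
  have hs2 : n + 1 ≤ s + 2 := by omega
  have bk : ∀ {s : ℕ}, n + 1 ≤ s → BK fun w v : Hyp n × Z => (per G (ker1 s) 0 0 w v).toReal :=
    fun hs => bk_per N (adm_ker1 hs) (κ := 0) (fun z => by simp) (fun _ _ _ => rfl) 0
  obtain ⟨T2, hT2⟩ := exists_op ((xm n Z).restrict D) (bk hs2)
  have s1 := hT.isSymmetric (bk hs) fun y v => by rw [per_zero_symm N (adm_ker1 hs)]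
  have s2 := hT2.isSymmetric (bk hs2) fun y v => by rw [per_zero_symm N (adm_ker1 hs2)]
  have := ContinuousLinearMap.finite_dimensional_eigenspace
    (hT.isCompact (bk hs) (equi_per N hD hs 0)) t ht
  obtain ⟨A, hAs, hAφ⟩ := symm_comb s1 s2 t⁻¹ (s * ((s : ℝ) + 1 - n)) (s * ((s : ℝ) + 1))
  simp only [ContinuousLinearMap.coe_coe] at hAφ
  have hinv : ∀ φ ∈ Module.End.eigenspace T.toLinearMap t,
      A φ ∈ Module.End.eigenspace T.toLinearMap t := fun φ hφ => by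
    obtain ⟨f, f', -, -, -, -, h5, h6⟩ :=
      key N hD hs hinj hr hT hT2 ht (Module.End.mem_eigenspace_iff.1 hφ)
    rw [hAφ, ← h5]
    exact Module.End.mem_eigenspace_iff.2 h6
  obtain ⟨m, b, hb⟩ := exists_basis hAs hinv
  refine ⟨m, b, fun i => ?_⟩
  obtain ⟨μ, hb⟩ := hb i
  have hb0 := b.ne_zero i
  generalize b i = φ at hb hb0 ⊢
  obtain ⟨f, f', h1, h2, h3, h4, h5, -⟩ :=
    key N hD hs hinj hr hT hT2 ht (Module.End.mem_eigenspace_iff.1 φ.2)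
  have e : f' = μ • f := hinj (by rw [h5, ← hAφ, map_smul, h1]; exact hb)
  have hl : ∀ z x, lap (fun x => f.1 (x, z)) x = -(-μ) * f.1 (x, z) := fun z x => by
    rw [h4 (x, z), e, neg_neg]
    rfl
  have hE : f.1 ∈ EigX (n := n) G Z (-μ) :=
    ⟨fun z => ⟨h2 z, fun g hg x => by rw [Subgroup.mem_bot.1 hg, one_smul], hl z⟩, f.2.2⟩
  have hf0 : f.1 ≠ 0 := fun h0 => hb0 (Subtype.ext (by
    rw [← h1, show f = 0 from Subtype.ext h0, map_zero]
    rfl))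
  have hμ : 0 ≤ -μ := not_lt.1 fun hlt => hf0 (by rwa [eigX_neg N hlt, Submodule.mem_bot] at hE)
  refine ⟨-μ, f, hμ, ?_, hE, h1⟩
  obtain ⟨w, hw⟩ := Function.ne_iff.1 hf0
  obtain ⟨-, C, hC⟩ := N.bdd f.2.1 f.2.2
  exact mul_right_cancel₀ hw ((h3 w).symm.trans
    (hh.eq (-μ) _ hμ (h2 w.2).c2 ⟨C, fun x => hC _⟩ (hl w.2) w.1))

end IdentAux

open IdentAux in
theorem eigX_ident (N : Nice G Z ρ) {D : Set (Hyp n × Z)} (hD : GoodFD G D) {s : ℕ}
    (hs : n + 1 ≤ s) {h : ℝ → ℝ} (hh : IsSel n s h) (κ : Z → Z → ℕ)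
    {T : Lp ℝ 2 ((xm n Z).restrict D) →L[ℝ] Lp ℝ 2 ((xm n Z).restrict D)}
    (hT : IsOp _ (fun w v => (per G (ker1 s) κ 0 w v).toReal) T) :
    (∀ ev, 0 ≤ ev → ∃ e : EigX (n := n) G Z ev ≃ₗ[ℝ]
        Module.End.eigenspace T.toLinearMap (h ev),
      ∀ f, ((e f).1 : Hyp n × Z → ℝ) =ᵐ[(xm n Z).restrict D] f.1) ∧
    ∀ t : ℝ, t ≠ 0 → Module.End.eigenspace T.toLinearMap t ≠ ⊥ →
      ∃ ev, 0 ≤ ev ∧ t = h ev := by
  replace hT : IsOp _ (fun w v => (per G (ker1 s) 0 0 w v).toReal) T := hT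
  obtain ⟨r, hinj, hr⟩ := exists_res N hD
  refine ⟨fun ev hev => ?_, fun t ht hne => ?_⟩
  · have hle : EigX (n := n) G Z ev ≤ CI n G Z := fun f hf =>
      ⟨fun z => (hf.1 z).1.c2.continuous, hf.2⟩
    have hmem : ∀ f, (r ∘ₗ Submodule.inclusion hle) f ∈
        Module.End.eigenspace T.toLinearMap (h ev) := fun f => by
      obtain ⟨f1, h1, h1'⟩ := exists_lift N hD hs hr hT (r (Submodule.inclusion hle f))
      obtain ⟨-, C, hC⟩ := N.bdd (hle f.2).1 f.2.2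
      have e : f1 = h ev • Submodule.inclusion hle f := Subtype.ext (funext fun w =>
        (h1' _ rfl w).trans (hh.eq ev _ hev (f.2.1 w.2).1.c2 ⟨C, fun x => hC _⟩
          (f.2.1 w.2).2.2 w.1))
      refine Module.End.mem_eigenspace_iff.2 (h1.symm.trans ?_)
      rw [e, map_smul]
      rfl
    have hi : Function.Injective ((r ∘ₗ Submodule.inclusion hle).codRestrict _ hmem) :=
      fun f g hfg => Submodule.inclusion_injective hle (hinj (congrArg Subtype.val hfg))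
    have hsurj : Function.Surjective ((r ∘ₗ Submodule.inclusion hle).codRestrict _ hmem) := by
      obtain ⟨m, b, hb⟩ := main N hD hs hh hinj hr hT (hh.pos ev hev).ne'
      rw [← LinearMap.range_eq_top, eq_top_iff, ← b.span_eq, Submodule.span_le]
      rintro _ ⟨i, rfl⟩
      obtain ⟨ev', f, h1, h2, h3, h4⟩ := hb i
      obtain rfl : ev = ev' := hh.anti.injOn hev h1 h2
      exact ⟨⟨f.1, h3⟩, Subtype.ext h4⟩
    exact ⟨LinearEquiv.ofBijective _ ⟨hi, hsurj⟩, fun f => hr _⟩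
  · obtain ⟨m, b, hb⟩ := main N hD hs hh hinj hr hT ht
    have := Submodule.nontrivial_iff_ne_bot.2 hne
    obtain ⟨i⟩ := b.index_nonempty
    obtain ⟨ev, -, h1, h2, -⟩ := hb i
    exact ⟨ev, h1, h2⟩

end Pool.Agent.P.MP_3c2f8c_gt
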