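import Pool.Agent.P.MP_3c2f8c_gt.An.Spec
import Pool.Agent.P.MP_3c2f8c_gt.An.Comp
import Pool.Agent.P.MP_3c2f8c_gt.An.Moment
import Pool.Agent.P.MP_3c2f8c_gt.An.Unfold

/-! AN-20: the analytic main theorem. -/

namespace Pool.Agent.P.MP_3c2f8c_gt

open Matrix MeasureTheory
open scoped ENNReal

variable {n : ℕ}

namespace MainAux

theorem geom {G G' Z : Type} [Group G] [Group G'] [Countable G] [Countable G']
    [MulAction G (Hyp n)] [MulAction G' (Hyp n)] [MulAction G Z] [MulAction G' Z]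
    [Countable Z] [MeasurableSpace Z] [DiscreteMeasurableSpace Z]
    {ρ : G →* Oplus n} {ρ' : G' →* Oplus n} (N : Nice G Z ρ) (N' : Nice G' Z ρ')
    {κ : Z → Z → ℕ} (hinv : ∀ (g : G) z z', κ (g • z) (g • z') = κ z z')
    (hinv' : ∀ (g : G') z z', κ (g • z) (g • z') = κ z z')
    (tr : Transfer n G G' κ) {D D' : Set (Hyp n × Z)} (hD : GoodFD G D) (hD' : GoodFD G' D')
    {k : Hyp n → Hyp n → ℝ≥0∞} (hk : Adm k) (m : ℕ) :
    ∫⁻ w in D, per G k κ (m + 1) w w ∂xm n Z ≤ ∫⁻ w in D', per G' k κ (m + 1) w w ∂xm n Z := by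
  obtain ⟨Reg, φ, h1, h2, h3⟩ := tr
  have := N.measurableConstSMul
  have := N'.measurableConstSMul
  have := N.invariant
  have := N'.invariant
  have meas : ∀ (f : Hyp n × Z → Hyp n × Z), Measurable f →
      Measurable fun w : Hyp n × Z => k w.1 (f w).1 * kpow κ (m + 1) w.2 (f w).2 := by
    intro f hf
    refine (hk.meas.comp (measurable_fst.prodMk (measurable_fst.comp hf))).mul ?_
    exact (Measurable.of_discrete (f := Function.uncurry (kpow κ (m + 1)))).comp
      (measurable_snd.prodMk (measurable_snd.comp hf))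
  refine geom_le (xm n Z) hD.meas hD'.meas hD.strict hD'.strict
    (fun γ w => k w.1 (γ • w.1) * kpow κ (m + 1) w.2 (γ • w.2))
    (fun γ w => k w.1 (γ • w.1) * kpow κ (m + 1) w.2 (γ • w.2))
    (fun γ => meas _ (measurable_const_smul γ)) (fun γ => meas _ (measurable_const_smul γ))
    (fun g γ w => ?_) (fun g γ w => ?_) Reg φ (fun γ w hw => ?_) (fun γ hγ => ?_) h3
  · simp only [Prod.smul_fst, Prod.smul_snd, mul_smul, inv_smul_smul]
    rw [kpow_smul hinv, N.act g, N.act g, hk.inv]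
  · simp only [Prod.smul_fst, Prod.smul_snd, mul_smul, inv_smul_smul]
    rw [kpow_smul hinv', N'.act g, N'.act g, hk.inv]
  · exact h1 m γ w.2 (chain_of_kpow (right_ne_zero_of_mul hw))
  · obtain ⟨τ, g, Ψ, a1, a2, a3, a4⟩ := h2 γ hγ
    obtain ⟨Θ, b1, b2⟩ := measurePreserving_prod g Ψ
    refine ⟨τ, Θ, b2, fun t w => ?_, fun w => ?_⟩
    · rw [b1, b1]
      exact Prod.ext (a2 t w.1) (a3 t w.2)
    · let t : Subgroup.centralizer {γ} :=
        ⟨γ, Subgroup.mem_centralizer_iff.2 fun h hh => by rw [Set.mem_singleton_iff.1 hh]⟩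
      have e1 := a2 t w.1
      have e2 := a3 t w.2
      rw [a1 t rfl] at e1 e2
      simp only [b1]
      rw [← e1, ← e2, hk.inv, kpow_equiv Ψ a4]

theorem trOn_pow {V : Type} [AddCommGroup V] [Module ℝ V] (E : Submodule ℝ V) (S : V →ₗ[ℝ] V)
    (h : ∀ x ∈ E, S x ∈ E) (m : ℕ) :
    trOn E (S ^ m) = LinearMap.trace ℝ E (S.restrict h ^ m) := by
  have h' : ∀ x ∈ E, (S ^ m) x ∈ E := fun x hx => Module.End.pow_apply_mem_of_forall_mem m h x hx
  rw [trOn, dif_pos h', Module.End.pow_restrict m h]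

end MainAux

open MainAux in
theorem isospectral_of_transfer {G G' Z : Type} [Group G] [Group G'] [Countable G] [Countable G']
    [MulAction G (Hyp n)] [MulAction G' (Hyp n)] [MulAction G Z] [MulAction G' Z]
    {ρ : G →* Oplus n} {ρ' : G' →* Oplus n} (N : Nice G Z ρ) (N' : Nice G' Z ρ')
    {κ : Z → Z → ℕ} (hκ : HK κ) (hinv : ∀ (g : G) z z', κ (g • z) (g • z') = κ z z')
    (hinv' : ∀ (g : G') z z', κ (g • z) (g • z') = κ z z')
    (tr : Transfer n G G' κ) (tr' : Transfer n G' G κ) (z₀ : Z)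
    (hconj : ∀ z : Z, ∃ g : G, MulAction.stabilizer G z = MulAction.stabilizer G (g • z₀))
    (hconj' : ∀ z : Z, ∃ g : G', MulAction.stabilizer G' z = MulAction.stabilizer G' (g • z₀)) :
    Isospectral ((MulAction.stabilizer G z₀).map ρ) ((MulAction.stabilizer G' z₀).map ρ') := by
  have : Countable Z := N.countable
  let _ : MeasurableSpace Z := ⊤
  have : DiscreteMeasurableSpace Z := ⟨fun _ => trivial⟩
  obtain ⟨h, hh⟩ := exists_sel (n := n) (s := n + 1) le_rfl
  obtain ⟨D, hD⟩ := N.exists_FD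
  obtain ⟨D', hD'⟩ := N'.exists_FD
  have key : ∀ ev : ℝ, Module.finrank ℝ (EigX (n := n) G Z ev) =
      Module.finrank ℝ (EigX (n := n) G' Z ev) := by
    intro ev
    rcases lt_or_ge ev 0 with hev | hev
    · rw [eigX_neg N hev, eigX_neg N' hev]
    have := finite_eigX N ev
    have := finite_eigX N' ev
    refine finrank_eq_of_trace_pow ((UL (Hyp n) κ hκ.fin).restrict (UL_mem_eigX N hκ.fin hinv ev))
      ((UL (Hyp n) κ hκ.fin).restrict (UL_mem_eigX N' hκ.fin hinv' ev))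
      (fun f g e => Subtype.ext (UL_injective hκ (congrArg Subtype.val e)))
      (fun f g e => Subtype.ext (UL_injective hκ (congrArg Subtype.val e))) fun m => ?_
    rw [← trOn_pow, ← trOn_pow]
    have hs : ∀ a : ℕ, HasSum (fun e : Set.Ici (0 : ℝ) => h e ^ a * (h e ^ 3 *
        (trOn (EigX (n := n) G Z e) (UL (Hyp n) κ hκ.fin ^ (m + 1)) -
          trOn (EigX (n := n) G' Z e) (UL (Hyp n) κ hκ.fin ^ (m + 1))))) 0 := by
      intro a
      have s1 := spectral_side N hD le_rfl hh hκ.fin hinv a (m + 1)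
      have s2 := spectral_side N' hD' le_rfl hh hκ.fin hinv' a (m + 1)
      have e := le_antisymm (geom N N' hinv hinv' tr hD hD' (adm_kc le_rfl (a + 2)) m)
        (geom N' N hinv' hinv tr' hD' hD (adm_kc le_rfl (a + 2)) m)
      rw [e] at s1
      have s3 := s1.sub s2
      rw [sub_self] at s3
      refine s3.congr_fun ?_
      intro e
      ring
    have hz := eq_zero_of_moments (fun e : Set.Ici (0 : ℝ) => h e) (h 0)
      (fun e => by
        rw [abs_of_pos (hh.pos e e.2)]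
        exact hh.anti.antitoneOn (Set.mem_Ici.2 le_rfl) e.2 e.2)
      (fun e e' he => Subtype.ext (hh.anti.injOn e.2 e'.2 he)) _
      (by simpa using (hs 0).summable) (fun a => (hs a).tsum_eq)
    have h0 := congrFun hz ⟨ev, hev⟩
    rcases mul_eq_zero.1 h0 with h1 | h1
    · exact absurd h1 (pow_pos (hh.pos ev hev) 3).ne'
    · exact sub_eq_zero.1 h1
  obtain ⟨r, hr, H⟩ := finrank_eigX N z₀ hconj
  obtain ⟨r', -, H'⟩ := finrank_eigX N' z₀ hconj'
  have c : ∀ {G : Type} [Group G] [MulAction G (Hyp n)] [MulAction G Z] {ρ : G →* Oplus n},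
      Nice G Z ρ → Module.finrank ℝ (Eig ((MulAction.stabilizer G z₀).map ρ) 0) = 1 := by
    intro G _ _ _ ρ N
    obtain ⟨R, hR⟩ := N.cocompact z₀
    refine finrank_eig_zero _ ⟨R, fun x => ?_⟩
    obtain ⟨g, hg, hx⟩ := hR x
    exact ⟨ρ g, Subgroup.mem_map_of_mem ρ hg, by rwa [← N.act]⟩
  have hrr : r = r' := by
    have e := key 0
    rwa [(H 0 (finite_eigX N 0)).2, (H' 0 (finite_eigX N' 0)).2, c N, c N', mul_one, mul_one] at e
  intro ev
  refine ⟨(H ev (finite_eigX N ev)).1, (H' ev (finite_eigX N' ev)).1, ?_⟩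
  have e := key ev
  rw [(H ev (finite_eigX N ev)).2, (H' ev (finite_eigX N' ev)).2, ← hrr] at e
  exact Nat.eq_of_mul_eq_mul_left hr e

end Pool.Agent.P.MP_3c2f8c_gt
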