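import Pool.Agent.P.MP_3c2f8c_gt.An.Adm
import Pool.Agent.P.MP_3c2f8c_gt.An.FD

/-! AN-15: calculus of periodised kernels. -/

namespace Pool.Agent.P.MP_3c2f8c_gt

open Matrix MeasureTheory
open scoped ENNReal

variable {n : ℕ}

namespace PerAux

/-- The product kernel. -/
noncomputable def pk {Z : Type} (k : Hyp n → Hyp n → ℝ≥0∞) (κ : Z → Z → ℕ) (m : ℕ)
    (w v : Hyp n × Z) : ℝ≥0∞ := k w.1 v.1 * kpow κ m w.2 v.2

theorem row {Z : Type} {κ : Z → Z → ℕ} (hfin : ∀ z, {z' | κ z z' ≠ 0}.Finite) (m : ℕ) (z : Z) :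
    ∑' z', kpow κ m z z' ≠ ∞ := by
  classical
  induction m generalizing z with
  | zero =>
    rw [tsum_eq_single z fun z' h => by simp [kpow, h.symm]]
    simp [kpow]
  | succ m ih =>
    simp only [kpow]
    rw [ENNReal.tsum_comm, tsum_eq_sum (s := (hfin z).toFinset) fun y hy => by
      have : κ z y = 0 := by simpa using hy
      simp [this]]
    refine ENNReal.sum_ne_top.2 fun y _ => ?_
    rw [ENNReal.tsum_mul_left]
    exact ENNReal.mul_ne_top (ENNReal.natCast_ne_top _) (ih y)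

theorem hasSum_UL {X Z : Type} {κ : Z → Z → ℕ} (hfin : ∀ z, {z' | κ z z' ≠ 0}.Finite) (m : ℕ)
    (f : X × Z → ℝ) (y : X) (z : Z) :
    HasSum (fun z' => (kpow κ m z z').toReal * f (y, z')) ((UL X κ hfin ^ m) f (y, z)) := by
  classical
  induction m generalizing z with
  | zero =>
    have := hasSum_single (f := fun z' => (kpow κ 0 z z').toReal * f (y, z')) z
      fun z' h => by simp [kpow, h.symm]
    simpa [kpow] using this
  | succ m ih =>
    have h0 : ∀ t ∉ (hfin z).toFinset, κ z t = 0 := fun t ht => by simpa using ht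
    have e : (UL X κ hfin ^ (m + 1)) f (y, z) =
        ∑ t ∈ (hfin z).toFinset, (κ z t : ℝ) * (UL X κ hfin ^ m) f (y, t) := by
      rw [pow_succ', Module.End.mul_apply]
      refine finsum_eq_sum_of_support_subset _ fun t ht => ?_
      by_contra h
      exact ht (by simp [h0 t h])
    have e' : (fun z' => (kpow κ (m + 1) z z').toReal * f (y, z')) = fun z' =>
        ∑ t ∈ (hfin z).toFinset, (κ z t : ℝ) * ((kpow κ m t z').toReal * f (y, z')) := by
      funext z'
      simp only [kpow]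
      rw [tsum_eq_sum (s := (hfin z).toFinset) fun t ht => by simp [h0 t ht],
        ENNReal.toReal_sum fun t _ => ENNReal.mul_ne_top (ENNReal.natCast_ne_top _)
          (ENNReal.ne_top_of_tsum_ne_top (row hfin m t) z'), Finset.sum_mul]
      refine Finset.sum_congr rfl fun t _ => ?_
      rw [ENNReal.toReal_mul, ENNReal.toReal_natCast, mul_assoc]
    rw [e, e']
    exact hasSum_sum fun t _ => (ih t).mul_left _

theorem ker1_le (s : ℕ) (x x' y : Hyp n) :
    ker1 s x' y ≤ ENNReal.ofReal ((uu x x' + √(uu x x' ^ 2 - 1)) ^ s) * ker1 s x y := by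
  have h1 := one_le_uu x x'
  have h2 := one_le_uu x y
  have h3 := one_le_uu x' y
  have h4 := uu_le_mul x' x y
  rw [uu_comm x' x] at h4
  rw [ker1, ker1, ← ENNReal.ofReal_mul (by positivity), ← mul_pow]
  refine ENNReal.ofReal_le_ofReal (pow_le_pow_left₀ (by positivity) ?_ s)
  rw [← div_eq_mul_inv, le_div_iff₀ (by positivity), inv_mul_le_iff₀ (by positivity), mul_comm]
  exact h4

variable {G Z : Type} [Group G] [MulAction G (Hyp n)] [MulAction G Z] {ρ : G →* Oplus n}

theorem per_eq (k : Hyp n → Hyp n → ℝ≥0∞) (κ : Z → Z → ℕ) (m : ℕ) (w v : Hyp n × Z) :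
    per G k κ m w v = ∑' g : G, pk k κ m w (g • v) := rfl

theorem pk_smul (N : Nice G Z ρ) {k : Hyp n → Hyp n → ℝ≥0∞} (hk : Adm k) {κ : Z → Z → ℕ}
    (hinv : ∀ (g : G) z z', κ (g • z) (g • z') = κ z z') (m : ℕ) (g : G) (w v : Hyp n × Z) :
    pk k κ m (g • w) (g • v) = pk k κ m w v := by
  rw [pk, pk, Prod.smul_fst, Prod.smul_fst, Prod.smul_snd, Prod.smul_snd, kpow_smul hinv,
    N.act, N.act, hk.inv]

theorem est [Countable G] (N : Nice G Z ρ) {s : ℕ} (hs : n + 1 ≤ s) (κ : Z → Z → ℕ) :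
    ∃ C : ℝ, (∀ w v : Hyp n × Z, |(per G (ker1 s) κ 0 w v).toReal| ≤ C) ∧
      ∀ ε : ℝ, 0 < ε → ∃ δ : ℝ, 0 < δ ∧ ∀ x x' : Hyp n, uu x x' < 1 + δ → ∀ (z : Z) v,
        |(per G (ker1 s) κ 0 (x', z) v).toReal - (per G (ker1 s) κ 0 (x, z) v).toReal| ≤ ε := by
  obtain ⟨C, hC, h⟩ := per_le N (adm_ker1 hs) (κ := fun _ _ => 0) (fun z => by simp)
    (fun _ _ _ => rfl) 0
  have h' : ∀ w v : Hyp n × Z, per G (ker1 s) κ 0 w v ≤ C := h
  have hb : ∀ w v : Hyp n × Z, (per G (ker1 s) κ 0 w v).toReal ≤ C.toReal :=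
    fun w v => ENNReal.toReal_mono hC (h' w v)
  refine ⟨C.toReal, fun w v => by rw [abs_of_nonneg ENNReal.toReal_nonneg]; exact hb w v,
    fun ε hε => ?_⟩
  have hc : Continuous fun u : ℝ => ((u + √(u ^ 2 - 1)) ^ s - 1) * C.toReal := by fun_prop
  obtain ⟨δ, hδ, hd⟩ := Metric.continuous_iff.1 hc 1 ε hε
  refine ⟨δ, hδ, fun x x' hx z v => ?_⟩
  have h1 := one_le_uu x x'
  have h2 := hd (uu x x') (by rw [Real.dist_eq, abs_of_nonneg (by linarith)]; linarith)
  have h3 : 1 ≤ (uu x x' + √(uu x x' ^ 2 - 1)) ^ s :=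
    one_le_pow₀ (h1.trans (le_add_of_nonneg_right (Real.sqrt_nonneg _)))
  have key : ∀ a a' : Hyp n, uu a a' = uu x x' → (per G (ker1 s) κ 0 (a', z) v).toReal ≤
      (uu x x' + √(uu x x' ^ 2 - 1)) ^ s * (per G (ker1 s) κ 0 (a, z) v).toReal := by
    intro a a' e
    rw [← ENNReal.toReal_ofReal (zero_le_one.trans h3), ← ENNReal.toReal_mul]
    refine ENNReal.toReal_mono (ENNReal.mul_ne_top ENNReal.ofReal_ne_top
      (ne_top_of_le_ne_top hC (h' _ _))) ?_
    rw [per, per, ← ENNReal.tsum_mul_left]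
    refine ENNReal.tsum_le_tsum fun g => ?_
    rw [← mul_assoc, ← e]
    exact mul_le_mul_left (ker1_le s a a' _) _
  have k1 := key x x' rfl
  have k2 := key x' x (uu_comm _ _)
  have b1 := mul_le_mul_of_nonneg_left (hb (x, z) v) (sub_nonneg.2 h3)
  have b2 := mul_le_mul_of_nonneg_left (hb (x', z) v) (sub_nonneg.2 h3)
  simp only [one_pow, sub_self, Real.sqrt_zero, add_zero, zero_mul, dist_zero_right,
    Real.norm_eq_abs] at h2
  have h4 := (le_abs_self _).trans h2.le
  rw [abs_le]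
  constructor <;> nlinarith

variable [Countable G] [Countable Z] [MeasurableSpace Z] [DiscreteMeasurableSpace Z]

theorem meas_pk {k : Hyp n → Hyp n → ℝ≥0∞} (hk : Adm k) (κ : Z → Z → ℕ) (m : ℕ) :
    Measurable (Function.uncurry (pk k κ m)) :=
  (hk.meas.comp (measurable_fst.fst.prodMk measurable_snd.fst)).mul
    ((Measurable.of_discrete (f := Function.uncurry (kpow κ m))).comp
      (measurable_fst.snd.prodMk measurable_snd.snd))

theorem meas_per (N : Nice G Z ρ) {k : Hyp n → Hyp n → ℝ≥0∞} (hk : Adm k)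
    (κ : Z → Z → ℕ) (m : ℕ) : Measurable (Function.uncurry (per G k κ m)) := by
  have := N.measurableConstSMul
  exact Measurable.tsum fun g : G => (meas_pk hk κ m).comp
    (measurable_fst.prodMk ((measurable_const_smul g).comp measurable_snd))

theorem lintegral_xm {F : Hyp n × Z → ℝ≥0∞} (hF : Measurable F) :
    ∫⁻ t, F t ∂xm n Z = ∫⁻ y, ∑' z, F (y, z) ∂hm n := by
  rw [xm, lintegral_prod _ hF.aemeasurable]
  simp only [lintegral_count]

end PerAux

open PerAux

variable {G Z : Type} [Group G] [MulAction G (Hyp n)] [MulAction G Z] {ρ : G →* Oplus n}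
  [Countable G] [Countable Z] [MeasurableSpace Z] [DiscreteMeasurableSpace Z]

theorem per_smul_right (k : Hyp n → Hyp n → ℝ≥0∞) (κ : Z → Z → ℕ) (m : ℕ) (g : G)
    (w v : Hyp n × Z) : per G k κ m w (g • v) = per G k κ m w v := by
  simp only [per_eq, smul_smul]
  exact (Equiv.mulRight g).tsum_eq fun h => pk k κ m w (h • v)

theorem per_smul_left (N : Nice G Z ρ) {k : Hyp n → Hyp n → ℝ≥0∞} (hk : Adm k) {κ : Z → Z → ℕ}
    (hinv : ∀ (g : G) z z', κ (g • z) (g • z') = κ z z') (m : ℕ) (g : G) (w v : Hyp n × Z) :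
    per G k κ m (g • w) v = per G k κ m w v := by
  rw [per_eq, per_eq, ← (Equiv.mulLeft g).tsum_eq]
  refine tsum_congr fun h => ?_
  rw [Equiv.coe_mulLeft, mul_smul, pk_smul N hk hinv]

theorem per_zero_symm (N : Nice G Z ρ) {k : Hyp n → Hyp n → ℝ≥0∞} (hk : Adm k) (κ : Z → Z → ℕ)
    (w v : Hyp n × Z) : per G k κ 0 w v = per G k κ 0 v w := by
  change per G k (fun _ _ => 0) 0 w v = per G k (fun _ _ => 0) 0 v w
  rw [per_eq, per_eq, ← (Equiv.inv G).tsum_eq]
  refine tsum_congr fun g => ?_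
  rw [Equiv.inv_apply, ← pk_smul N hk (fun _ _ _ => rfl) 0 g, smul_inv_smul, pk, pk, hk.symm]
  simp only [kpow]
  by_cases h : v.2 = (g • w).2
  · rw [if_pos h, if_pos h.symm]
  · rw [if_neg h, if_neg (Ne.symm h)]

theorem bk_per (N : Nice G Z ρ) {k : Hyp n → Hyp n → ℝ≥0∞} (hk : Adm k) {κ : Z → Z → ℕ}
    (hfin : ∀ z, {z' | κ z z' ≠ 0}.Finite)
    (hinv : ∀ (g : G) z z', κ (g • z) (g • z') = κ z z') (m : ℕ) :
    BK fun w v => (per G k κ m w v).toReal := by
  obtain ⟨C, hC, h⟩ := per_le N hk hfin hinv m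
  refine ⟨(meas_per N hk κ m).ennreal_toReal, C.toReal, fun w v => ?_⟩
  rw [abs_of_nonneg ENNReal.toReal_nonneg]
  exact ENNReal.toReal_mono hC (h w v)

theorem measurable_per (N : Nice G Z ρ) {k : Hyp n → Hyp n → ℝ≥0∞} (hk : Adm k)
    (κ : Z → Z → ℕ) (m : ℕ) : Measurable (Function.uncurry (per G k κ m)) :=
  meas_per N hk κ m

theorem per_comp (N : Nice G Z ρ) {D : Set (Hyp n × Z)} (hD : GoodFD G D)
    {k k' : Hyp n → Hyp n → ℝ≥0∞} (hk : Adm k) (hk' : Adm k') {κ : Z → Z → ℕ}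
    (hinv : ∀ (g : G) z z', κ (g • z) (g • z') = κ z z') (m m' : ℕ) (w v : Hyp n × Z) :
    ∫⁻ t in D, per G k κ m w t * per G k' κ m' t v ∂xm n Z =
      per G (fun x y => ∫⁻ t, k x t * k' t y ∂hm n) κ (m + m') w v := by
  have := N.measurableConstSMul
  have := N.invariant
  have hm1 : Measurable fun t => pk k κ m w t * per G k' κ m' t v :=
    ((meas_pk hk κ m).of_uncurry_left).mul ((meas_per N hk' κ m').of_uncurry_right)
  have hm2 : ∀ y', Measurable fun y => k w.1 y * k' y y' := fun y' =>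
    hk.meas.of_uncurry_left.mul hk'.meas.of_uncurry_right
  have h1 := (hD.strict.isFundamentalDomain hD.meas (xm n Z)).lintegral_eq_tsum''
    fun t => pk k κ m w t * per G k' κ m' t v
  rw [← lintegral_tsum (f := fun (g : G) t => pk k κ m w (g • t) * per G k' κ m' (g • t) v)
    fun g => (hm1.comp (measurable_const_smul g)).aemeasurable] at h1
  simp only [per_smul_left N hk' hinv, ENNReal.tsum_mul_right, ← per_eq] at h1
  rw [← h1, lintegral_xm hm1, per]
  simp only [← lintegral_mul_const _ (hm2 _)]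
  rw [← lintegral_tsum fun g => ((hm2 _).mul_const _).aemeasurable]
  refine lintegral_congr fun y => ?_
  simp only [per, pk, kpow_add, ← ENNReal.tsum_mul_left]
  rw [ENNReal.tsum_comm]
  refine tsum_congr fun g => tsum_congr fun z => ?_
  ring

/-- Unfolding against a bounded invariant function. -/
theorem integral_per (N : Nice G Z ρ) {D : Set (Hyp n × Z)} (hD : GoodFD G D)
    {k : Hyp n → Hyp n → ℝ≥0∞} (hk : Adm k) {κ : Z → Z → ℕ}
    (hfin : ∀ z, {z' | κ z z' ≠ 0}.Finite)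
    (hinv : ∀ (g : G) z z', κ (g • z) (g • z') = κ z z') (m : ℕ) {f : Hyp n × Z → ℝ}
    (hf : Measurable f) (hb : ∃ C, ∀ w, |f w| ≤ C) (hi : ∀ (g : G) w, f (g • w) = f w)
    (w : Hyp n × Z) :
    ∫ v in D, (per G k κ m w v).toReal * f v ∂xm n Z =
      ∫ y, (k w.1 y).toReal * (UL (Hyp n) κ hfin ^ m) f (y, w.2) ∂hm n := by
  have := N.measurableConstSMul
  have := N.invariant
  have := hm_sigmaFinite (n := n)
  have hF := hD.strict.isFundamentalDomain hD.meas (xm n Z)
  obtain ⟨C, hC, h⟩ := per_le N hk hfin hinv m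
  obtain ⟨B, hB⟩ := hb
  have hm0 : Measurable (pk k κ m w) := (meas_pk hk κ m).of_uncurry_left
  have hm1 : Measurable fun t => (pk k κ m w t).toReal * f t := hm0.ennreal_toReal.mul hf
  have hI : Integrable (fun t => (pk k κ m w t).toReal * f t) (xm n Z) := by
    refine (integrable_toReal_of_lintegral_ne_top hm0.aemeasurable ?_).mul_bdd
      hf.aestronglyMeasurable (c := B) (Filter.Eventually.of_forall hB)
    rw [lintegral_xm hm0]
    simp only [pk, ENNReal.tsum_mul_left]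
    rw [lintegral_mul_const _ hk.meas.of_uncurry_left]
    exact ENNReal.mul_ne_top (hk.int _) (row hfin m _)
  have h1 := hF.integral_eq_tsum'' _ hI
  rw [← integral_tsum (f := fun (g : G) t => (pk k κ m w (g • t)).toReal * f (g • t))
    (fun g => (hm1.comp (measurable_const_smul g)).aestronglyMeasurable)
    (by
      rw [← hF.lintegral_eq_tsum'' fun t => ‖(pk k κ m w t).toReal * f t‖ₑ]
      exact hI.2.ne)] at h1
  have h2 : ∀ v, (per G k κ m w v).toReal * f v =
      ∑' g : G, (pk k κ m w (g • v)).toReal * f (g • v) := fun v => by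
    simp only [hi, tsum_mul_right]
    rw [per_eq, ENNReal.tsum_toReal_eq (f := fun g : G => pk k κ m w (g • v))
      (ENNReal.ne_top_of_tsum_ne_top (ne_top_of_le_ne_top hC (h w v)))]
  simp only [h2]
  refine h1.symm.trans ?_
  rw [xm] at hI ⊢
  rw [integral_prod _ hI]
  refine integral_congr_ae ?_
  filter_upwards [hI.prod_right_ae] with y hy
  rw [integral_countable hy, ← ((hasSum_UL hfin m f y w.2).mul_left _).tsum_eq]
  refine tsum_congr fun z => ?_
  simp [pk, measureReal_def, mul_assoc]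

theorem equi_per (N : Nice G Z ρ) {D : Set (Hyp n × Z)} (hD : GoodFD G D) {s : ℕ}
    (hs : n + 1 ≤ s) (κ : Z → Z → ℕ) :
    Equi ((xm n Z).restrict D) fun w v => (per G (ker1 s) κ 0 w v).toReal := by
  classical
  intro ε hε
  obtain ⟨C, -, h⟩ := est N hs κ
  obtain ⟨δ, hδ, hd⟩ := h (ε / 2) (half_pos hε)
  obtain ⟨R, S, hS⟩ := hD.bdd
  have ho : ∀ c : Hyp n, IsOpen {y | uu c y < 1 + δ} := fun c =>
    isOpen_lt (continuous_uu.comp (Continuous.prodMk_right c)) continuous_const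
  obtain ⟨t, ht⟩ := (isCompact_ball (orig n) R).elim_finite_subcover _ ho fun y _ =>
    Set.mem_iUnion.2 ⟨y, by simp [uu_self, hδ]⟩
  let e := (t ×ˢ S).equivFin.symm
  refine ⟨_, fun i => {y | uu (e i).1.1 y < 1 + δ} ×ˢ {(e i).1.2},
    fun i => (ho _).measurableSet.prod (measurableSet_singleton _), ?_, ?_⟩
  · filter_upwards [ae_restrict_mem hD.meas] with w hw
    obtain ⟨c, hc, hc'⟩ := Set.mem_iUnion₂.1 (ht (hS w hw).1)
    refine ⟨e.symm ⟨(c, w.2), Finset.mem_product.2 ⟨hc, (hS w hw).2⟩⟩, ?_⟩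
    rw [Equiv.apply_symm_apply]
    exact ⟨hc', rfl⟩
  · rintro i ⟨y, z⟩ ⟨hy, hz⟩ ⟨y', z'⟩ ⟨hy', hz'⟩ v
    obtain rfl : z = (e i).1.2 := hz
    obtain rfl : z' = (e i).1.2 := hz'
    have h1 := abs_le.1 (hd _ _ hy (e i).1.2 v)
    have h2 := abs_le.1 (hd _ _ hy' (e i).1.2 v)
    rw [abs_le]
    constructor <;> linarith [h1.1, h1.2, h2.1, h2.2]

theorem continuous_lift (N : Nice G Z ρ) {D : Set (Hyp n × Z)} (hD : GoodFD G D) {s : ℕ}
    (hs : n + 1 ≤ s) (κ : Z → Z → ℕ) {φ : Hyp n × Z → ℝ}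
    (hφ : Integrable φ ((xm n Z).restrict D)) (z : Z) :
    Continuous fun x => ∫ v in D, (per G (ker1 s) κ 0 (x, z) v).toReal * φ v ∂xm n Z := by
  obtain ⟨C, hC, h⟩ := est N hs κ
  refine continuous_of_dominated (bound := fun v => C * ‖φ v‖) (fun x => ?_)
    (fun x => Filter.Eventually.of_forall fun v => ?_) (hφ.norm.const_mul C)
    (Filter.Eventually.of_forall fun v => Continuous.mul ?_ continuous_const)
  · exact (meas_per N (adm_ker1 hs) κ 0).of_uncurry_left.ennreal_toReal.aestronglyMeasurable.mul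
      hφ.1
  · rw [norm_mul]
    exact mul_le_mul_of_nonneg_right (hC _ _) (norm_nonneg _)
  · refine continuous_iff_continuousAt.2 fun x => Metric.tendsto_nhds.2 fun ε hε => ?_
    obtain ⟨δ, hδ, hd⟩ := h (ε / 2) (half_pos hε)
    have ho : IsOpen {y | uu x y < 1 + δ} :=
      isOpen_lt (continuous_uu.comp (Continuous.prodMk_right x)) continuous_const
    filter_upwards [ho.mem_nhds (show uu x x < 1 + δ by simp [uu_self, hδ])] with y hy
    exact (hd x y hy z v).trans_lt (half_lt_self hε)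

end Pool.Agent.P.MP_3c2f8c_gt
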