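import Pool.Agent.P.MP_3c2f8c_gt.An.Green
import Pool.Agent.P.MP_3c2f8c_gt.An.LapU

/-! AN-6: the operators commute with the Laplacian, first half. -/

namespace Pool.Agent.P.MP_3c2f8c_gt

open Matrix MeasureTheory
open scoped ENNReal

variable {n : ℕ}

namespace SelAux

open Filter Topology

/-- The cut-off function. -/
noncomputable def chi (t : ℝ) : ℝ := Real.smoothTransition (2 - t)

theorem chi_smooth (k : ℕ) : ContDiff ℝ k chi :=
  Real.smoothTransition.contDiff.comp (contDiff_const.sub contDiff_id)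

theorem chi_one {t : ℝ} (h : t ≤ 1) : chi t = 1 :=
  Real.smoothTransition.one_of_one_le (by linarith)

theorem chi_zero {t : ℝ} (h : 2 ≤ t) : chi t = 0 :=
  Real.smoothTransition.zero_of_nonpos (by linarith)

theorem abs_chi_le (t : ℝ) : |chi t| ≤ 1 := by
  rw [chi, abs_of_nonneg (Real.smoothTransition.nonneg _)]
  exact Real.smoothTransition.le_one _

theorem chi1_smooth : ContDiff ℝ 1 (deriv chi) := by
  have := (chi_smooth 2).iterate_deriv' 1 1
  simpa using this

theorem chi1_zero {t : ℝ} (h : t < 1 ∨ 2 < t) : deriv chi =ᶠ[𝓝 t] fun _ => 0 := by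
  rcases h with h | h
  · have : chi =ᶠ[𝓝 t] fun _ => 1 := by
      filter_upwards [Iio_mem_nhds h] with z hz using chi_one (le_of_lt hz)
    simpa using this.deriv
  · have : chi =ᶠ[𝓝 t] fun _ => 0 := by
      filter_upwards [Ioi_mem_nhds h] with z hz using chi_zero (le_of_lt hz)
    simpa using this.deriv

theorem chi2_zero {t : ℝ} (h : t < 1 ∨ 2 < t) : deriv (deriv chi) t = 0 := by
  rw [(chi1_zero h).deriv_eq]
  simp

theorem exists_bound {g : ℝ → ℝ} (hg : Continuous g) (h0 : ∀ t, t < 1 ∨ 2 < t → g t = 0) :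
    ∃ C, 0 ≤ C ∧ ∀ t, |g t| ≤ C := by
  obtain ⟨C, hC⟩ := (isCompact_Icc (a := (1 : ℝ)) (b := 2)).exists_bound_of_continuousOn
    hg.continuousOn
  refine ⟨max C 0, le_max_right _ _, fun t => ?_⟩
  by_cases ht : t ∈ Set.Icc (1 : ℝ) 2
  · exact (hC t ht).trans (le_max_left _ _)
  · rw [h0 t ((not_and_or.mp ht).imp not_le.mp not_le.mp), abs_zero]
    exact le_max_right _ _

/-- The truncated kernel. -/
noncomputable def phi (s : ℕ) (R t : ℝ) : ℝ := chi (t / R) * t⁻¹ ^ s

theorem hasDerivAt_inv_pow (s : ℕ) {t : ℝ} (ht : t ≠ 0) :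
    HasDerivAt (fun t : ℝ => t⁻¹ ^ s) (-(s * t⁻¹ ^ (s + 1))) t := by
  have := (hasDerivAt_inv ht).fun_pow s
  refine this.congr_deriv ?_
  rcases s with _ | s
  · simp
  · simp only [Nat.add_sub_cancel, ← inv_pow]
    ring

theorem hasDerivAt_comp_div {g : ℝ → ℝ} (hg : Differentiable ℝ g) (R t : ℝ) :
    HasDerivAt (fun t => g (t / R)) (deriv g (t / R) / R) t := by
  have := (hg (t / R)).hasDerivAt.comp t ((hasDerivAt_id t).div_const R)
  exact this.congr_deriv (by simp [div_eq_mul_inv])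

theorem deriv_phi (s : ℕ) (R : ℝ) {t : ℝ} (ht : t ≠ 0) : deriv (phi s R) t =
    deriv chi (t / R) / R * t⁻¹ ^ s - s * (chi (t / R) * t⁻¹ ^ (s + 1)) := by
  have := (hasDerivAt_comp_div ((chi_smooth 1).differentiable one_ne_zero) R t).mul
    (hasDerivAt_inv_pow s ht)
  refine (this.deriv).trans ?_
  ring

theorem deriv2_phi (s : ℕ) (R : ℝ) {t : ℝ} (ht : t ≠ 0) : deriv (deriv (phi s R)) t =
    deriv (deriv chi) (t / R) / R / R * t⁻¹ ^ s - 2 * s * (deriv chi (t / R) / R) * t⁻¹ ^ (s + 1) +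
      s * (s + 1) * chi (t / R) * t⁻¹ ^ (s + 2) := by
  have h : deriv (phi s R) =ᶠ[𝓝 t] fun t =>
      deriv chi (t / R) / R * t⁻¹ ^ s - s * (chi (t / R) * t⁻¹ ^ (s + 1)) := by
    filter_upwards [isOpen_ne.mem_nhds ht] with z hz using deriv_phi s R hz
  have h1 := (((hasDerivAt_comp_div (chi1_smooth.differentiable one_ne_zero) R t).div_const R).mul
    (hasDerivAt_inv_pow s ht)).sub
    (((hasDerivAt_comp_div ((chi_smooth 1).differentiable one_ne_zero) R t).mul
      (hasDerivAt_inv_pow (s + 1) ht)).const_mul (s : ℝ))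
  rw [h.deriv_eq]
  refine h1.deriv.trans ?_
  push_cast
  ring

theorem phi_smooth (s : ℕ) (R : ℝ) : ContDiffOn ℝ 2 (phi s R) (Set.Ioi 0) :=
  (((chi_smooth 2).comp (contDiff_id.div_const R)).contDiffOn).mul
    ((contDiffOn_id.inv fun _ hx => ne_of_gt hx).pow s)

/-- The factor of the Laplacian of the truncated kernel. -/
noncomputable def fac (n s : ℕ) (R t : ℝ) : ℝ :=
  chi (t / R) * (s * ((s : ℝ) + 1 - n) - s * ((s : ℝ) + 1) * t⁻¹ ^ 2) +
    (1 - t⁻¹ ^ 2) * ((t / R) ^ 2 * deriv (deriv chi) (t / R) -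
      2 * s * (t / R * deriv chi (t / R))) + n * (t / R * deriv chi (t / R))

theorem lap_phi (s : ℕ) (R : ℝ) (x y : Hyp n) :
    lap (fun y => phi s R (uu x y)) y = (uu x y)⁻¹ ^ s * fac n s R (uu x y) := by
  have h0 : uu x y ≠ 0 := by linarith [one_le_uu x y]
  rw [lap_comp_uu (phi_smooth s R), deriv_phi s R h0, deriv2_phi s R h0, fac]
  obtain ⟨w, hw⟩ : ∃ w, w = (uu x y)⁻¹ := ⟨_, rfl⟩
  have h1 : uu x y * w = 1 := by rw [hw, mul_inv_cancel₀ h0]
  rw [← hw]
  simp only [div_eq_mul_inv, pow_succ, pow_zero, one_mul]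
  generalize uu x y = u at h1
  generalize deriv (deriv chi) (u * R⁻¹) = c2
  generalize deriv chi (u * R⁻¹) = c1
  generalize chi (u * R⁻¹) = c0
  generalize R⁻¹ = r
  generalize w ^ s = k
  linear_combination (k * (c2 * r ^ 2 * (u * w + 1) - 2 * s * c1 * r * (u + w) +
    s * (s + 1) * c0 * (u * w + 1) - n * s * c0)) * h1

theorem fac_eq (n s : ℕ) {R t : ℝ} (h : t / R < 1) :
    fac n s R t = s * ((s : ℝ) + 1 - n) - s * ((s : ℝ) + 1) * t⁻¹ ^ 2 := by
  rw [fac, chi_one h.le, chi2_zero (Or.inl h), (chi1_zero (Or.inl h)).eq_of_nhds]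
  ring

theorem fac_bound (n s : ℕ) : ∃ C, ∀ R t : ℝ, 1 ≤ t → |fac n s R t| ≤ C := by
  obtain ⟨A, hA0, hA⟩ := exists_bound (g := fun v => v * deriv chi v)
    (continuous_id.mul chi1_smooth.continuous) fun t ht => by
      simp [(chi1_zero ht).eq_of_nhds]
  obtain ⟨B, hB0, hB⟩ := exists_bound (g := fun v => v ^ 2 * deriv (deriv chi) v)
    ((continuous_pow 2).mul (chi1_smooth.continuous_deriv le_rfl)) fun t ht => by
      simp [chi2_zero ht]
  refine ⟨1 * (|s * ((s : ℝ) + 1 - n)| + s * ((s : ℝ) + 1) * 1) + 1 * (B + 2 * s * A) + n * A,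
    fun R t ht => ?_⟩
  have h1 : 0 ≤ t⁻¹ ^ 2 := by positivity
  have h2 : t⁻¹ ^ 2 ≤ 1 := pow_le_one₀ (by positivity) (inv_le_one_of_one_le₀ ht)
  refine (abs_add_le _ _).trans (add_le_add ((abs_add_le _ _).trans (add_le_add ?_ ?_)) ?_)
  · rw [abs_mul]
    refine mul_le_mul (abs_chi_le _) ((abs_sub _ _).trans (add_le_add le_rfl ?_)) (abs_nonneg _)
      zero_le_one
    rw [abs_of_nonneg (by positivity)]
    exact mul_le_mul_of_nonneg_left h2 (by positivity)
  · rw [abs_mul]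
    refine mul_le_mul (abs_le.mpr ⟨by linarith, by linarith⟩)
      ((abs_sub _ _).trans (add_le_add (hB _) ?_)) (abs_nonneg _) zero_le_one
    rw [abs_mul, abs_of_nonneg (by positivity : (0 : ℝ) ≤ 2 * s)]
    exact mul_le_mul_of_nonneg_left (hA _) (by positivity)
  · rw [abs_mul, abs_of_nonneg (Nat.cast_nonneg n)]
    exact mul_le_mul_of_nonneg_left (hA _) (Nat.cast_nonneg n)

theorem ev_lt (t : ℝ) : ∀ᶠ k : ℕ in atTop, t / ((k : ℝ) + 1) < 1 := by
  filter_upwards [(tendsto_natCast_atTop_atTop (R := ℝ)).eventually_ge_atTop t] with k hk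
  rw [div_lt_one (by positivity)]
  linarith

theorem integrable_mul {s : ℕ} (hs : n + 1 ≤ s) (x : Hyp n) {g : Hyp n → ℝ} (hg : Continuous g)
    {C : ℝ} (hC : ∀ y, |g y| ≤ C) : Integrable (fun y => (uu x y)⁻¹ ^ s * g y) (hm n) :=
  (integrable_ker hs x).mul_bdd hg.aestronglyMeasurable (Eventually.of_forall hC)

end SelAux

open SelAux Filter Topology in
theorem TT_lap {s : ℕ} (hs : n + 1 ≤ s) {f : Hyp n → ℝ} (hf : C2 f) (hb : ∃ C, ∀ x, |f x| ≤ C)
    (hb' : ∃ C, ∀ x, |lap f x| ≤ C) (x : Hyp n) :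
    TT s (lap f) x = s * ((s : ℝ) + 1 - n) * TT s f x - s * ((s : ℝ) + 1) * TT (s + 2) f x := by
  obtain ⟨C, hC⟩ := hb
  obtain ⟨C', hC'⟩ := hb'
  obtain ⟨B, hB⟩ := fac_bound n s
  have hk : ∀ y, 0 ≤ (uu x y)⁻¹ ^ s := fun y => by
    have := one_le_uu x y
    positivity
  have hψ : ∀ R : ℝ, C2 fun y => phi s R (uu x y) := fun R => c2_comp_uu (phi_smooth s R) x
  have hg : ∀ k : ℕ, ∫ y, phi s (k + 1) (uu x y) * lap f y ∂hm n =
      ∫ y, f y * lap (fun y => phi s (k + 1) (uu x y)) y ∂hm n := fun k => by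
    refine green hf (hψ _) (HasCompactSupport.intro (isCompact_ball x (2 * (k + 1))) fun y hy => ?_)
    rw [phi, chi_zero, zero_mul]
    rw [le_div_iff₀ (by positivity)]
    exact (not_le.mp hy).le
  have t1 : Tendsto (fun k : ℕ => ∫ y, phi s (k + 1) (uu x y) * lap f y ∂hm n) atTop
      (𝓝 (TT s (lap f) x)) := by
    refine tendsto_integral_of_dominated_convergence (fun y => (uu x y)⁻¹ ^ s * C')
      (fun k => ((hψ _).continuous.mul hf.continuous_lap).aestronglyMeasurable)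
      ((integrable_ker hs x).mul_const _) (fun k => Eventually.of_forall fun y => ?_)
      (Eventually.of_forall fun y => tendsto_const_nhds.congr' ?_)
    · rw [Real.norm_eq_abs, phi, abs_mul, abs_mul, abs_of_nonneg (hk y)]
      exact mul_le_mul (mul_le_of_le_one_left (hk y) (abs_chi_le _)) (hC' y) (abs_nonneg _) (hk y)
    · filter_upwards [ev_lt (uu x y)] with k hk'
      rw [phi, chi_one hk'.le, one_mul]
  have t2 : Tendsto (fun k : ℕ => ∫ y, f y * lap (fun y => phi s (k + 1) (uu x y)) y ∂hm n) atTop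
      (𝓝 (∫ y, s * ((s : ℝ) + 1 - n) * ((uu x y)⁻¹ ^ s * f y) -
        s * ((s : ℝ) + 1) * ((uu x y)⁻¹ ^ (s + 2) * f y) ∂hm n)) := by
    refine tendsto_integral_of_dominated_convergence (fun y => C * ((uu x y)⁻¹ ^ s * B))
      (fun k => (hf.continuous.mul (hψ _).continuous_lap).aestronglyMeasurable)
      (((integrable_ker hs x).mul_const _).const_mul _) (fun k => Eventually.of_forall fun y => ?_)
      (Eventually.of_forall fun y => tendsto_const_nhds.congr' ?_)
    · rw [Real.norm_eq_abs, lap_phi, abs_mul, abs_mul, abs_of_nonneg (hk y)]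
      exact mul_le_mul (hC y) (mul_le_mul_of_nonneg_left (hB _ _ (one_le_uu x y)) (hk y))
        (mul_nonneg (hk y) (abs_nonneg _)) ((abs_nonneg _).trans (hC y))
    · filter_upwards [ev_lt (uu x y)] with k hk'
      rw [lap_phi, fac_eq n s hk']
      ring
  rw [funext hg] at t1
  rw [tendsto_nhds_unique t1 t2, integral_sub
    ((integrable_mul hs x hf.continuous hC).const_mul _)
    ((integrable_mul (by omega) x hf.continuous hC).const_mul _), integral_const_mul,
    integral_const_mul]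
  rfl

end Pool.Agent.P.MP_3c2f8c_gt
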