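import Pool.Agent.P.MP_3c2f8c_gt.An.Op

/-! AN-13: the trace of `T S T` as a sum over the eigenvalues of `T`. -/

namespace Pool.Agent.P.MP_3c2f8c_gt

open Matrix MeasureTheory
open scoped ENNReal

variable {n : ℕ}

namespace TraceAux

open Filter Topology

section Hilbert

variable {H : Type} [NormedAddCommGroup H] [InnerProductSpace ℝ H] {ι : Type}
  (E : ι → Submodule ℝ H) [∀ t, (E t).HasOrthogonalProjection]

/-- The remainder after removing the components indexed by `A`. -/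
noncomputable def rem (A : Finset ι) : H →L[ℝ] H :=
  ContinuousLinearMap.id ℝ H - ∑ t ∈ A, (E t).starProjection

theorem rem_apply (A : Finset ι) (x : H) :
    rem E A x = x - ∑ t ∈ A, (E t).starProjection x := by
  simp [rem]

variable {E}

theorem norm_rem_le (ho : ∀ s t, s ≠ t → ∀ x ∈ E s, ∀ y ∈ E t, inner ℝ x y = 0) (A : Finset ι)
    (x : H) : ‖rem E A x‖ ≤ ‖x‖ := by
  classical
  have h1 : ∀ s ∈ A, ∀ y ∈ E s, inner ℝ (rem E A x) y = 0 := by
    intro s hs y hy
    rw [rem_apply, ← Finset.add_sum_erase A _ hs, ← sub_sub, inner_sub_left,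
      Submodule.starProjection_inner_eq_zero x y hy, sum_inner, Finset.sum_eq_zero, sub_zero]
    intro t ht
    exact ho t s (Finset.ne_of_mem_erase ht) _ ((E t).starProjection_apply_mem x) y hy
  have h2 : inner ℝ (rem E A x) (rem E A x) = inner ℝ (rem E A x) x := by
    nth_rewrite 2 [rem_apply]
    rw [inner_sub_right, inner_sum, Finset.sum_eq_zero, sub_zero]
    intro t ht
    exact h1 t ht _ ((E t).starProjection_apply_mem x)
  rw [real_inner_self_eq_norm_mul_norm] at h2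
  have h3 := real_inner_le_norm (rem E A x) x
  rcases (norm_nonneg (rem E A x)).eq_or_lt with h | h
  · rw [← h]
    exact norm_nonneg _
  · exact le_of_mul_le_mul_left (h2.le.trans h3) h

theorem rem_small [CompleteSpace H]
    (ho : ∀ s t, s ≠ t → ∀ x ∈ E s, ∀ y ∈ E t, inner ℝ x y = 0) (hd : (⨆ t, E t)ᗮ = ⊥)
    (x : H) {ε : ℝ} (hε : 0 < ε) : ∀ᶠ A in (atTop : Filter (Finset ι)), ‖rem E A x‖ ≤ ε := by
  classical
  have h1 : ∀ y ∈ ⨆ t, E t, ∀ᶠ A in (atTop : Filter (Finset ι)), rem E A y = 0 := by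
    intro y hy
    refine Submodule.iSup_induction E
      (motive := fun y => ∀ᶠ A in (atTop : Filter (Finset ι)), rem E A y = 0) hy ?_ ?_ ?_
    · intro s y hy
      filter_upwards [eventually_ge_atTop {s}] with A hA
      have hs : s ∈ A := hA (Finset.mem_singleton_self s)
      rw [rem_apply, ← Finset.add_sum_erase A _ hs, Submodule.starProjection_eq_self_iff.2 hy,
        Finset.sum_eq_zero, add_zero, sub_self]
      intro t ht
      refine Submodule.eq_starProjection_of_mem_of_inner_eq_zero (E t).zero_mem fun w hw => ?_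
      rw [sub_zero]
      exact ho s t (Finset.ne_of_mem_erase ht).symm y hy w hw
    · exact Eventually.of_forall fun A => map_zero _
    · intro a b ha hb
      filter_upwards [ha, hb] with A ha hb
      rw [map_add, ha, hb, add_zero]
  have h2 : x ∈ closure ((⨆ t, E t : Submodule ℝ H) : Set H) := by
    rw [← Submodule.topologicalClosure_coe, Submodule.topologicalClosure_eq_top_iff.2 hd]
    trivial
  obtain ⟨y, hy, hxy⟩ := Metric.mem_closure_iff.1 h2 ε hε
  filter_upwards [h1 y hy] with A hA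
  have : rem E A x = rem E A (x - y) := by rw [map_sub, hA, sub_zero]
  rw [this]
  exact (norm_rem_le ho A _).trans (by rw [← dist_eq_norm]; exact hxy.le)

end Hilbert

variable {Y : Type} [MeasurableSpace Y] {ν : Measure Y} [IsFiniteMeasure ν] {K : Y → Y → ℝ}

theorem memLp_row (hK : BK K) (ν : Measure Y) [IsFiniteMeasure ν] (w : Y) : MemLp (K w) 2 ν := by
  obtain ⟨C, hC⟩ := hK.bdd
  exact MemLp.of_bound hK.meas.of_uncurry_left.aestronglyMeasurable C
    (ae_of_all _ fun v => hC w v)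

/-- The row of the kernel as an element of `L²`. -/
noncomputable def kk (hK : BK K) (ν : Measure Y) [IsFiniteMeasure ν] (w : Y) : Lp ℝ 2 ν :=
  (memLp_row hK ν w).toLp _

theorem kk_ae (hK : BK K) (w : Y) : (kk hK ν w : Y → ℝ) =ᵐ[ν] K w := MemLp.coeFn_toLp _

theorem inner_kk (hK : BK K) (w : Y) (φ : Lp ℝ 2 ν) :
    inner ℝ (kk hK ν w) φ = ∫ v, K w v * φ v ∂ν := by
  rw [L2.inner_def]
  refine integral_congr_ae ?_
  filter_upwards [kk_ae (ν := ν) hK w] with v hv
  simp [hv, mul_comm]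

theorem op_ae (hK : BK K) {T : Lp ℝ 2 ν →L[ℝ] Lp ℝ 2 ν} (hT : IsOp ν K T) (φ : Lp ℝ 2 ν) :
    ∀ᵐ w ∂ν, inner ℝ (kk hK ν w) φ = T φ w := by
  filter_upwards [hT φ] with w hw
  rw [hw, inner_kk]

theorem eig_ae (hK : BK K) {T : Lp ℝ 2 ν →L[ℝ] Lp ℝ 2 ν} (hT : IsOp ν K T) {t : ℝ}
    {φ : Lp ℝ 2 ν} (hφ : φ ∈ Module.End.eigenspace T.toLinearMap t) :
    ∀ᵐ w ∂ν, inner ℝ (kk hK ν w) φ = t * φ w := by
  have h : T φ = t • φ := Module.End.mem_eigenspace_iff.1 hφ
  filter_upwards [op_ae hK hT φ, Lp.coeFn_smul t φ] with w h1 h2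
  rw [h1, h, h2]
  rfl

theorem exists_bound (hK : BK K) (ν : Measure Y) [IsFiniteMeasure ν] :
    ∃ c : ℝ, 0 ≤ c ∧ (∀ w, ‖kk hK ν w‖ ≤ c) ∧ ∀ ε : ℝ, 0 ≤ ε → ∀ y y',
      (∀ v, |K y v - K y' v| ≤ ε) → ‖kk hK ν y - kk hK ν y'‖ ≤ c * ε := by
  obtain ⟨C, hC⟩ := hK.bdd
  set m : ℝ := (measureUnivNNReal ν : ℝ) ^ (2 : ℝ≥0∞).toReal⁻¹ with hm
  have hm0 : 0 ≤ m := by positivity
  refine ⟨m * (|C| + 1), by positivity, fun w => ?_, fun ε hε y y' h => ?_⟩
  · refine Lp.norm_le_of_ae_bound (by positivity) ?_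
    filter_upwards [kk_ae (ν := ν) hK w] with v hv
    rw [hv]
    exact (hC w v).trans ((le_abs_self C).trans (by linarith))
  · refine (Lp.norm_le_of_ae_bound hε ?_).trans ?_
    · filter_upwards [kk_ae (ν := ν) hK y, kk_ae (ν := ν) hK y',
        Lp.coeFn_sub (kk hK ν y) (kk hK ν y')] with v h1 h2 h3
      rw [h3, Pi.sub_apply, h1, h2]
      exact h v
    · refine mul_le_mul_of_nonneg_right ?_ hε
      rw [← hm]
      nlinarith [abs_nonneg C]

theorem ker_orth (hK : BK K) (hE : Equi ν K) {T : Lp ℝ 2 ν →L[ℝ] Lp ℝ 2 ν} (hT : IsOp ν K T) :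
    ∀ᵐ w ∂ν, ∀ φ ∈ Module.End.eigenspace T.toLinearMap 0, inner ℝ (kk hK ν w) φ = 0 := by
  obtain ⟨c, hc0, -, hc⟩ := exists_bound hK ν
  have h1 : ∀ j : ℕ, ∀ᵐ w ∂ν, ∀ φ ∈ Module.End.eigenspace T.toLinearMap 0,
      |inner ℝ (kk hK ν w) φ| ≤ c * ‖φ‖ * (1 / ((j : ℝ) + 1)) := by
    intro j
    have hj : (0 : ℝ) < 1 / ((j : ℝ) + 1) := by positivity
    obtain ⟨r, C, -, hcov, hC⟩ := hE _ hj
    have h2 : ∀ᵐ w ∂ν, ∀ i, ν (C i) = 0 → w ∉ C i := by
      rw [ae_all_iff]
      intro i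
      by_cases h : ν (C i) = 0
      · filter_upwards [measure_eq_zero_iff_ae_notMem.1 h] with w hw using fun _ => hw
      · exact ae_of_all _ fun w h' => absurd h' h
    filter_upwards [hcov, h2] with w ⟨i, hi⟩ hw φ hφ
    obtain ⟨y, hy, h0⟩ := Measure.exists_mem_of_measure_ne_zero_of_ae
      (fun h => hw i h hi) (ae_restrict_of_ae (eig_ae hK hT hφ))
    rw [zero_mul] at h0
    have e : inner ℝ (kk hK ν w) φ = inner ℝ (kk hK ν w - kk hK ν y) φ := by
      rw [inner_sub_left, h0, sub_zero]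
    rw [e]
    refine (abs_real_inner_le_norm _ _).trans ?_
    have := mul_le_mul_of_nonneg_right (hc _ hj.le w y (hC i w hi y hy)) (norm_nonneg φ)
    linarith
  filter_upwards [ae_all_iff.2 h1] with w hw φ hφ
  have h3 : Tendsto (fun j : ℕ => c * ‖φ‖ * (1 / ((j : ℝ) + 1))) atTop (𝓝 (c * ‖φ‖ * 0)) :=
    tendsto_one_div_add_atTop_nhds_zero_nat.const_mul _
  rw [mul_zero] at h3
  exact abs_nonpos_iff.1 (ge_of_tendsto' h3 fun j => hw j φ hφ)

theorem term (hK : BK K) (hE : Equi ν K) {T S' : Lp ℝ 2 ν →L[ℝ] Lp ℝ 2 ν} (hT : IsOp ν K T)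
    (hc : T.comp S' = S'.comp T) (t : ℝ) :
    Integrable (fun w => inner ℝ (kk hK ν w)
      (S' ((Module.End.eigenspace T.toLinearMap t).starProjection (kk hK ν w)))) ν ∧
    ∫ w, inner ℝ (kk hK ν w)
      (S' ((Module.End.eigenspace T.toLinearMap t).starProjection (kk hK ν w))) ∂ν =
      t ^ 2 * trOn (Module.End.eigenspace T.toLinearMap t) S'.toLinearMap := by
  by_cases ht : t = 0
  · subst ht
    have h : (fun w => inner ℝ (kk hK ν w)
        (S' ((Module.End.eigenspace T.toLinearMap 0).starProjection (kk hK ν w)))) =ᵐ[ν]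
        fun _ => (0 : ℝ) := by
      filter_upwards [ker_orth hK hE hT] with w hw
      rw [Submodule.eq_starProjection_of_mem_of_inner_eq_zero (Submodule.zero_mem _)
        (fun φ hφ => by rw [sub_zero]; exact hw φ hφ), map_zero, inner_zero_right]
    exact ⟨(integrable_zero _ _ _).congr h.symm, by rw [integral_congr_ae h]; simp⟩
  have := ContinuousLinearMap.finite_dimensional_eigenspace (hT.isCompact hK hE) t ht
  set E := Module.End.eigenspace T.toLinearMap t with hEdef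
  have hinv : ∀ x ∈ E, S'.toLinearMap x ∈ E := by
    intro x hx
    have h1 : T x = t • x := Module.End.mem_eigenspace_iff.1 hx
    have h2 : T (S' x) = S' (T x) := congrArg (fun f : Lp ℝ 2 ν →L[ℝ] Lp ℝ 2 ν => f x) hc
    refine Module.End.mem_eigenspace_iff.2 ?_
    change T (S' x) = t • S' x
    rw [h2, h1, map_smul]
  let b := stdOrthonormalBasis ℝ E
  have h : (fun w => inner ℝ (kk hK ν w) (S' (E.starProjection (kk hK ν w)))) =ᵐ[ν]
      fun w => t ^ 2 * ∑ i, inner ℝ ((b i : Lp ℝ 2 ν) w) (S' (b i) w) := by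
    have a1 := ae_all_iff.2 fun i => eig_ae hK hT (b i).2
    have a2 := ae_all_iff.2 fun i => eig_ae hK hT (hinv _ (b i).2)
    filter_upwards [a1, a2] with w h1 h2
    rw [b.starProjection_eq_sum_rankOne, _root_.sum_apply, map_sum, inner_sum,
      Finset.mul_sum]
    refine Finset.sum_congr rfl fun i _ => ?_
    rw [InnerProductSpace.rankOne_apply, map_smul, inner_smul_right, real_inner_comm, h1 i]
    have h3 : inner ℝ (kk hK ν w) (S' (b i)) = t * S' (b i) w := h2 i
    rw [h3]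
    simp only [RCLike.inner_apply, conj_trivial]
    ring
  have hint : ∀ i, Integrable (fun w => inner ℝ ((b i : Lp ℝ 2 ν) w) (S' (b i) w)) ν :=
    fun i => L2.integrable_inner _ _
  refine ⟨((integrable_finsetSum _ fun i _ => hint i).const_mul _).congr h.symm, ?_⟩
  rw [integral_congr_ae h, integral_const_mul, integral_finsetSum _ fun i _ => hint i, trOn,
    dif_pos hinv, LinearMap.trace_eq_sum_inner _ b]
  refine congrArg _ (Finset.sum_congr rfl fun i _ => ?_)
  rw [← L2.inner_def]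
  rfl

end TraceAux

variable {Y : Type} [MeasurableSpace Y] {ν : Measure Y} [IsFiniteMeasure ν]

open TraceAux Filter Topology in
theorem trace_expansion {K S : Y → Y → ℝ} (hK : BK K) (hs : ∀ y v, K y v = K v y) (hE : Equi ν K)
    (hS : BK S) {T S' : Lp ℝ 2 ν →L[ℝ] Lp ℝ 2 ν} (hT : IsOp ν K T) (hS' : IsOp ν S S')
    (hc : T.comp S' = S'.comp T) :
    HasSum (fun t : ℝ => t ^ 2 * trOn (Module.End.eigenspace T.toLinearMap t) S'.toLinearMap)
      (∫ w, ∫ v, K w v * ∫ v', S v v' * K v' w ∂ν ∂ν ∂ν) := by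
  have hsym := hT.isSymmetric hK hs
  let E : ℝ → Submodule ℝ (Lp ℝ 2 ν) := fun t => Module.End.eigenspace T.toLinearMap t
  have ho : ∀ s t, s ≠ t → ∀ x ∈ E s, ∀ y ∈ E t, inner ℝ x y = 0 := fun s t h x hx y hy =>
    hsym.orthogonalFamily_eigenspaces h ⟨x, hx⟩ ⟨y, hy⟩
  have hd : (⨆ t, E t)ᗮ = ⊥ :=
    ContinuousLinearMap.orthogonalComplement_iSup_eigenspaces_eq_bot (hT.isCompact hK hE) hsym
  obtain ⟨c, hc0, hc1, hc2⟩ := exists_bound hK ν
  have hF : ∀ w, ∫ v, K w v * ∫ v', S v v' * K v' w ∂ν ∂ν =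
      inner ℝ (kk hK ν w) (S' (kk hK ν w)) := by
    intro w
    rw [inner_kk]
    refine integral_congr_ae ?_
    filter_upwards [hS' (kk hK ν w)] with v hv
    rw [hv]
    refine congrArg _ (integral_congr_ae ?_)
    filter_upwards [kk_ae (ν := ν) hK w] with v' hv'
    rw [hv', hs]
  have hm : StronglyMeasurable fun w => ∫ v, K w v * ∫ v', S v v' * K v' w ∂ν ∂ν := by
    have m1 : StronglyMeasurable fun p : Y × Y => ∫ v', S p.2 v' * K v' p.1 ∂ν :=
      StronglyMeasurable.integral_prod_right'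
        (f := fun q : (Y × Y) × Y => S q.1.2 q.2 * K q.2 q.1.1)
        ((hS.meas.comp (measurable_fst.snd.prodMk measurable_snd)).mul
          (hK.meas.comp (measurable_snd.prodMk measurable_fst.fst))).stronglyMeasurable
    exact StronglyMeasurable.integral_prod_right'
      (f := fun p : Y × Y => K p.1 p.2 * ∫ v', S p.2 v' * K v' p.1 ∂ν)
      (hK.meas.stronglyMeasurable.mul m1)
  have hbd : ∀ w (x : Lp ℝ 2 ν), ‖inner ℝ (kk hK ν w) (S' x)‖ ≤ c * ‖S'‖ * ‖x‖ := fun w x => by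
    refine (norm_inner_le_norm _ _).trans ?_
    rw [mul_assoc]
    exact mul_le_mul (hc1 w) (S'.le_opNorm x) (norm_nonneg _) hc0
  simp only [hF] at hm ⊢
  have hi : Integrable (fun w => inner ℝ (kk hK ν w) (S' (kk hK ν w))) ν :=
    Integrable.of_bound hm.aestronglyMeasurable (c * ‖S'‖ * c) (ae_of_all _ fun w =>
      (hbd w _).trans (mul_le_mul_of_nonneg_left (hc1 w) (by positivity)))
  have key : ∀ ε : ℝ, 0 < ε → ∀ᶠ A in (atTop : Filter (Finset ℝ)),
      ‖(∫ w, inner ℝ (kk hK ν w) (S' (kk hK ν w)) ∂ν) -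
        ∑ t ∈ A, t ^ 2 * trOn (E t) S'.toLinearMap‖ ≤
        c * ‖S'‖ * (c + 1) * ν.real Set.univ * ε := by
    intro ε hε
    obtain ⟨r, C, -, hcov, hC⟩ := hE ε hε
    have h1 : ∀ i, ∀ᶠ A in (atTop : Filter (Finset ℝ)), ∀ w ∈ C i,
        ‖rem E A (kk hK ν w)‖ ≤ (c + 1) * ε := by
      intro i
      rcases (C i).eq_empty_or_nonempty with h | ⟨y, hy⟩
      · simp [h]
      · filter_upwards [rem_small ho hd (kk hK ν y) hε] with A hA w hw
        have e : rem E A (kk hK ν w) = rem E A (kk hK ν w - kk hK ν y) + rem E A (kk hK ν y) := by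
          rw [map_sub, sub_add_cancel]
        have h2 := (norm_rem_le ho A _).trans (hc2 ε hε.le w y (hC i w hw y hy))
        rw [e]
        exact (norm_add_le _ _).trans (by linarith)
    filter_upwards [eventually_all.2 h1] with A hA
    have e : (∫ w, inner ℝ (kk hK ν w) (S' (kk hK ν w)) ∂ν) -
        ∑ t ∈ A, t ^ 2 * trOn (E t) S'.toLinearMap =
        ∫ w, inner ℝ (kk hK ν w) (S' (rem E A (kk hK ν w))) ∂ν := by
      simp only [rem_apply, map_sub, map_sum, inner_sub_right, inner_sum]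
      rw [integral_sub hi (integrable_finsetSum _ fun t _ => (term hK hE hT hc t).1),
        integral_finsetSum _ fun t _ => (term hK hE hT hc t).1]
      exact congrArg _ (Finset.sum_congr rfl fun t _ => (term hK hE hT hc t).2.symm)
    rw [e]
    refine (norm_integral_le_of_norm_le_const (C := c * ‖S'‖ * ((c + 1) * ε)) ?_).trans
      (le_of_eq (by ring))
    filter_upwards [hcov] with w ⟨i, hi⟩
    exact (hbd w _).trans (mul_le_mul_of_nonneg_left (hA i w hi) (by positivity))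
  refine Metric.tendsto_nhds.2 fun δ hδ => ?_
  set B := c * ‖S'‖ * (c + 1) * ν.real Set.univ with hB
  have hB0 : 0 ≤ B := by positivity
  filter_upwards [key (δ / (B + 1)) (by positivity)] with A hA
  rw [dist_comm, dist_eq_norm]
  refine hA.trans_lt ?_
  rw [← mul_div_assoc, div_lt_iff₀ (by positivity)]
  linarith

end Pool.Agent.P.MP_3c2f8c_gt
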