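import Pool.Agent.P.MP_3c2f8c_gt.An.Ident
import Pool.Agent.P.MP_3c2f8c_gt.An.Trace

/-! AN-17: the spectral side of the trace formula. -/

namespace Pool.Agent.P.MP_3c2f8c_gt

open Matrix MeasureTheory
open scoped ENNReal

variable {n : ℕ}

variable {G Z : Type} [Group G] [MulAction G (Hyp n)] [MulAction G Z] {ρ : G →* Oplus n}
  [Countable G] [Countable Z] [MeasurableSpace Z] [DiscreteMeasurableSpace Z]

theorem UL_mem_eigX (N : Nice G Z ρ) {κ : Z → Z → ℕ} (hfin : ∀ z, {z' | κ z z' ≠ 0}.Finite)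
    (hinv : ∀ (g : G) z z', κ (g • z) (g • z') = κ z z') (ev : ℝ) :
    ∀ f ∈ EigX (n := n) G Z ev, UL (Hyp n) κ hfin f ∈ EigX (n := n) G Z ev := by
  intro f hf
  refine ⟨fun z => ?_, fun g w => ?_⟩
  · have e : (fun x => UL (Hyp n) κ hfin f (x, z))
        = ∑ z' ∈ (hfin z).toFinset, (κ z z' : ℝ) • fun x => f (x, z') := by
      funext x
      rw [Finset.sum_apply]
      exact finsum_eq_sum_of_support_subset _ fun z' hz' => by
        simpa using left_ne_zero_of_mul hz'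
    rw [e]
    exact Submodule.sum_mem _ fun z' _ => Submodule.smul_mem _ _ (hf.1 z')
  · change ∑ᶠ z', (κ (g • w.2) z' : ℝ) * f (g • w.1, z') = ∑ᶠ z', (κ w.2 z' : ℝ) * f (w.1, z')
    rw [← finsum_comp_equiv (MulAction.toPerm g)]
    refine finsum_congr fun z' => ?_
    rw [MulAction.toPerm_apply, hinv, ← hf.2 g (w.1, z')]
    rfl

theorem finite_eigX (N : Nice G Z ρ) (ev : ℝ) : Module.Finite ℝ (EigX (n := n) G Z ev) := by
  rcases lt_or_ge ev 0 with hev | hev
  · rw [eigX_neg N hev]; infer_instance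
  obtain ⟨D, hD⟩ := N.exists_FD
  obtain ⟨h, hh⟩ := exists_sel (n := n) le_rfl
  have := hD.finite
  have hK := bk_per N (adm_ker1 (n := n) le_rfl) (κ := fun _ _ => 0) (fun _ => by simp)
    (fun _ _ _ => rfl) 0
  obtain ⟨T, hT⟩ := exists_op ((xm n Z).restrict D) hK
  obtain ⟨e, -⟩ := (eigX_ident N hD le_rfl hh _ hT).1 ev hev
  have := ContinuousLinearMap.finite_dimensional_eigenspace
    (hT.isCompact hK (equi_per N hD le_rfl _)) (h ev) (hh.pos ev hev).ne'
  exact Module.Finite.equiv e.symm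

namespace SpecAux

theorem comp_real (N : Nice G Z ρ) {D : Set (Hyp n × Z)} (hD : GoodFD G D)
    {k k' : Hyp n → Hyp n → ℝ≥0∞} (hk : Adm k) (hk' : Adm k') {κ : Z → Z → ℕ}
    (hfin : ∀ z, {z' | κ z z' ≠ 0}.Finite)
    (hinv : ∀ (g : G) z z', κ (g • z) (g • z') = κ z z') (m m' : ℕ) (w v : Hyp n × Z) :
    ∫ t in D, (per G k κ m w t).toReal * (per G k' κ m' t v).toReal ∂xm n Z =
      (per G (fun x y => ∫⁻ t, k x t * k' t y ∂hm n) κ (m + m') w v).toReal := by
  obtain ⟨C, hC, h1⟩ := per_le N hk hfin hinv m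
  obtain ⟨C', hC', h2⟩ := per_le N hk' hfin hinv m'
  simp only [← ENNReal.toReal_mul]
  rw [← per_comp N hD hk hk' hinv]
  exact integral_toReal ((measurable_per N hk κ m).of_uncurry_left.mul
    (measurable_per N hk' κ m').of_uncurry_right).aemeasurable (.of_forall fun t =>
      ENNReal.mul_lt_top ((h1 _ _).trans_lt hC.lt_top) ((h2 _ _).trans_lt hC'.lt_top))

theorem comp_left (N : Nice G Z ρ) {D : Set (Hyp n × Z)} (hD : GoodFD G D) {s : ℕ}
    (hs : n + 1 ≤ s) {κ : Z → Z → ℕ} (hfin : ∀ z, {z' | κ z z' ≠ 0}.Finite)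
    (hinv : ∀ (g : G) z z', κ (g • z) (g • z') = κ z z') (a m : ℕ) (w v : Hyp n × Z) :
    ∫ t in D, (per G (ker1 s) κ 0 w t).toReal * (per G (kc s a) κ m t v).toReal ∂xm n Z =
      (per G (kc s (a + 1)) κ m w v).toReal := by
  rw [comp_real N hD (adm_ker1 hs) (adm_kc hs a) hfin hinv, zero_add]
  rfl

theorem comp_right (N : Nice G Z ρ) {D : Set (Hyp n × Z)} (hD : GoodFD G D) {s : ℕ}
    (hs : n + 1 ≤ s) {κ : Z → Z → ℕ} (hfin : ∀ z, {z' | κ z z' ≠ 0}.Finite)
    (hinv : ∀ (g : G) z z', κ (g • z) (g • z') = κ z z') (a m : ℕ) (w v : Hyp n × Z) :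
    ∫ t in D, (per G (kc s a) κ m w t).toReal * (per G (ker1 s) κ 0 t v).toReal ∂xm n Z =
      (per G (kc s (a + 1)) κ m w v).toReal := by
  simp only [comp_real N hD (adm_kc hs a) (adm_ker1 hs) hfin hinv, add_zero, kc_succ']

theorem trOn_conj {V W : Type} [AddCommGroup V] [Module ℝ V] [AddCommGroup W] [Module ℝ W]
    {E : Submodule ℝ V} {F : Submodule ℝ W} (e : E ≃ₗ[ℝ] F) {U : V →ₗ[ℝ] V} {S : W →ₗ[ℝ] W}
    (hU : ∀ x ∈ E, U x ∈ E) {c : ℝ} (key : ∀ f : E, S (e f).1 = c • (e ⟨_, hU f.1 f.2⟩).1) :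
    trOn F S = c * trOn E U := by
  have hS : ∀ x ∈ F, S x ∈ F := fun x hx => by
    obtain ⟨f, hf⟩ := e.surjective ⟨x, hx⟩
    rw [← show (e f).1 = x from congrArg Subtype.val hf, key]
    exact Submodule.smul_mem _ _ (e _).2
  have e2 : S.restrict hS = c • e.conj (U.restrict hU) := by
    refine LinearMap.ext fun x => ?_
    obtain ⟨f, rfl⟩ := e.surjective x
    refine Subtype.ext ((key f).trans ?_)
    rw [LinearMap.smul_apply, LinearEquiv.conj_apply_apply, e.symm_apply_apply]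
    rfl
  rw [trOn, trOn, dif_pos hS, dif_pos hU, e2, map_smul, LinearMap.trace_conj', smul_eq_mul]

end SpecAux

open SpecAux

theorem spectral_side (N : Nice G Z ρ) {D : Set (Hyp n × Z)} (hD : GoodFD G D) {s : ℕ}
    (hs : n + 1 ≤ s) {h : ℝ → ℝ} (hh : IsSel n s h) {κ : Z → Z → ℕ}
    (hfin : ∀ z, {z' | κ z z' ≠ 0}.Finite)
    (hinv : ∀ (g : G) z z', κ (g • z) (g • z') = κ z z') (a m : ℕ) :
    HasSum (fun ev : Set.Ici (0 : ℝ) =>
        h ev ^ (a + 3) * trOn (EigX (n := n) G Z ev) (UL (Hyp n) κ hfin ^ m))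
      (∫⁻ w in D, per G (kc s (a + 2)) κ m w w ∂xm n Z).toReal := by
  have := hD.finite
  have hK := bk_per N (adm_ker1 hs) hfin hinv 0
  have hS := fun a => bk_per N (adm_kc hs a) hfin hinv m
  obtain ⟨T, hT⟩ := exists_op ((xm n Z).restrict D) hK
  choose S hS' using fun a => exists_op ((xm n Z).restrict D) (hS a)
  have h1 : ∀ a, T.comp (S a) = S (a + 1) := fun a => IsOp.unique
    (by simpa only [comp_left N hD hs hfin hinv] using IsOp.comp hK (hS a) hT (hS' a)) (hS' (a + 1))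
  have h2 : (S a).comp T = S (a + 1) := IsOp.unique
    (by simpa only [comp_right N hD hs hfin hinv] using IsOp.comp (hS a) hK (hS' a) hT)
    (hS' (a + 1))
  have h3 := trace_expansion hK (fun y v => by rw [per_zero_symm N (adm_ker1 hs)])
    (equi_per N hD hs κ) (hS a) hT (hS' a) ((h1 a).trans h2.symm)
  simp only [comp_right N hD hs hfin hinv, comp_left N hD hs hfin hinv] at h3
  obtain ⟨C, hC, h4⟩ := per_le N (adm_kc hs (a + 2)) hfin hinv m
  rw [integral_toReal (f := fun w => per G (kc s (a + 1 + 1)) κ m w w)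
    ((measurable_per N (adm_kc hs (a + 2)) κ m).comp
      (measurable_id.prodMk measurable_id)).aemeasurable
    (.of_forall fun w => (h4 w w).trans_lt hC.lt_top)] at h3
  obtain ⟨h5, h6⟩ := eigX_ident N hD hs hh κ hT
  have hi : Function.Injective fun ev : Set.Ici (0 : ℝ) => h ev := fun x y e =>
    Subtype.ext (hh.anti.injOn x.2 y.2 e)
  rw [← hi.hasSum_iff] at h3
  · refine h3.congr_fun fun ⟨ev, hev⟩ => ?_
    obtain ⟨e, he⟩ := h5 ev hev
    have hU : ∀ f ∈ EigX (n := n) G Z ev, (UL (Hyp n) κ hfin ^ m) f ∈ EigX (n := n) G Z ev :=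
      fun f hf => Module.End.pow_apply_mem_of_forall_mem m (UL_mem_eigX N hfin hinv ev) f hf
    have key : ∀ a f, S a (e f).1 = h ev ^ (a + 1) • (e ⟨_, hU f.1 f.2⟩).1 := fun a f => by
      induction a with
      | succ a ih =>
        rw [← h1, ContinuousLinearMap.comp_apply, ih, map_smul, pow_succ (h ev) (a + 1), mul_smul]
        congr 1
        exact Module.End.mem_eigenspace_iff.1 (e _).2
      | zero =>
        refine Lp.ext ?_
        filter_upwards [hS' 0 (e f).1, Lp.coeFn_smul (h ev ^ (0 + 1)) (e ⟨_, hU f.1 f.2⟩).1,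
          he ⟨_, hU f.1 f.2⟩] with w w1 w2 w3
        obtain ⟨b1, b2⟩ := N.bdd (fun z => (f.2.1 z).1.c2.continuous) f.2.2
        have g1 := hU f.1 f.2
        obtain ⟨-, C, b3⟩ := N.bdd (fun z => (g1.1 z).1.c2.continuous) g1.2
        rw [w1, w2, Pi.smul_apply, w3, zero_add, pow_one, smul_eq_mul,
          ← hh.eq ev _ hev (g1.1 w.2).1.c2 ⟨C, fun x => b3 _⟩ (g1.1 w.2).2.2 w.1,
          integral_congr_ae (g := fun v => (per G (kc s 0) κ m w v).toReal * f.1 v)
            (by filter_upwards [he f] with v hv; rw [hv]),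
          integral_per N hD (adm_kc hs 0) hfin hinv m b1 b2 f.2.2, TT]
        refine integral_congr_ae (.of_forall fun y => ?_)
        exact congrArg (· * _) (ENNReal.toReal_ofReal
          (pow_nonneg (inv_nonneg.2 (zero_le_one.trans (one_le_uu _ _))) s))
    rw [Function.comp_apply, trOn_conj e hU (key a)]
    ring
  · intro t ht
    by_cases h0 : t = 0
    · simp [h0]
    · have : Module.End.eigenspace T.toLinearMap t = ⊥ := by
        by_contra hne
        obtain ⟨ev, hev, rfl⟩ := h6 t h0 hne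
        exact ht ⟨⟨ev, hev⟩, rfl⟩
      rw [this, trOn]
      split_ifs with h7
      · rw [Subsingleton.elim (LinearMap.restrict _ h7) 0, map_zero, mul_zero]
      · rw [mul_zero]

end Pool.Agent.P.MP_3c2f8c_gt
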